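import Pool.Agent.MP_ca1109_lc.Dnf.Defs

/-!
# Read-bounded DNFs: averages, Walsh coefficients, spectral norms, sandwiches
-/

namespace Pool.Agent.MP_ca1109_lc.Dnf

open Finset

variable {n N : ℕ}

theorem E_add (f g : Cube n → ℝ) : E (fun x => f x + g x) = E f + E g := by
  simp only [E, sum_add_distrib, add_div]

theorem E_sub (f g : Cube n → ℝ) : E (fun x => f x - g x) = E f - E g := by
  simp only [E, sum_sub_distrib, sub_div]

theorem E_smul (c : ℝ) (f : Cube n → ℝ) : E (fun x => c * f x) = c * E f := by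
  simp only [E, ← mul_sum, mul_div_assoc]

theorem E_const (c : ℝ) : E (fun _ : Cube n => c) = c := by
  simp [E]

theorem E_sum {ι : Type*} (s : Finset ι) (f : ι → Cube n → ℝ) :
    E (fun x => ∑ i ∈ s, f i x) = ∑ i ∈ s, E (f i) := by
  simp only [E, ← sum_div]
  rw [sum_comm]

theorem E_mono {f g : Cube n → ℝ} (h : ∀ x, f x ≤ g x) : E f ≤ E g :=
  div_le_div_of_nonneg_right (sum_le_sum fun x _ => h x) (by positivity)

theorem E_nonneg {f : Cube n → ℝ} (h : ∀ x, 0 ≤ f x) : 0 ≤ E f :=
  div_nonneg (sum_nonneg fun x _ => h x) (by positivity)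

theorem one_nonneg (p : Prop) : 0 ≤ one p := by
  unfold one; split_ifs <;> norm_num

theorem one_le (p : Prop) : one p ≤ 1 := by
  unfold one; split_ifs <;> norm_num

theorem one_true {p : Prop} (h : p) : one p = 1 := by
  unfold one; rw [if_pos h]

theorem one_false {p : Prop} (h : ¬ p) : one p = 0 := by
  unfold one; rw [if_neg h]

theorem one_and (p q : Prop) : one (p ∧ q) = one p * one q := by
  by_cases hp : p <;> by_cases hq : q <;> simp [one, hp, hq]

theorem one_not (p : Prop) : one (¬ p) = 1 - one p := by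
  by_cases hp : p <;> simp [one, hp]

theorem one_mono {p q : Prop} (h : p → q) : one p ≤ one q := by
  by_cases hp : p
  · rw [one_true hp, one_true (h hp)]
  · rw [one_false hp]; exact one_nonneg q

theorem ch_empty (x : Cube n) : ch ∅ x = 1 := by
  simp [ch]

theorem sg_abs (b : Bool) : |sg b| = 1 := by
  cases b <;> simp [sg]

theorem sg_mul_self (b : Bool) : sg b * sg b = 1 := by
  cases b <;> simp [sg]

theorem ch_abs (S : Finset (Fin n)) (x : Cube n) : |ch S x| = 1 := by
  unfold ch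
  rw [abs_prod]
  exact prod_eq_one fun i _ => sg_abs _

theorem ch_ite (S : Finset (Fin n)) (x : Cube n) :
    ch S x = ∏ i, if i ∈ S then sg (x i) else 1 := by
  unfold ch
  rw [prod_ite_mem, univ_inter]

theorem ch_mul (S T : Finset (Fin n)) (x : Cube n) : ch S x * ch T x = ch (symmDiff S T) x := by
  rw [ch_ite, ch_ite, ch_ite, ← prod_mul_distrib]
  refine prod_congr rfl fun i _ => ?_
  have h := sg_mul_self (x i)
  by_cases hS : i ∈ S <;> by_cases hT : i ∈ T <;> simp [mem_symmDiff, hS, hT, h]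

theorem sum_ch (S : Finset (Fin n)) : ∑ x, ch S x = if S = ∅ then 2 ^ n else 0 := by
  have h1 : ∀ x : Cube n, ch S x = ∏ i, if i ∈ S then sg (x i) else 1 := ch_ite S
  simp_rw [h1]
  have h2 := (prod_univ_sum (fun _ : Fin n => (univ : Finset Bool))
    (fun i b => (if i ∈ S then sg b else 1 : ℝ))).symm
  rw [Fintype.piFinset_univ] at h2
  rw [h2]
  have h3 : ∀ i, ∑ b : Bool, (if i ∈ S then sg b else 1 : ℝ) = if i ∈ S then 0 else 2 := by
    intro i
    rw [Fintype.sum_bool]
    by_cases hS : i ∈ S <;> simp [hS, sg]; norm_num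
  simp_rw [h3]
  split_ifs with h
  · subst h
    simp
  · obtain ⟨i, hi⟩ := nonempty_iff_ne_empty.mpr h
    exact prod_eq_zero (mem_univ i) (if_pos hi)

theorem E_ch (S : Finset (Fin n)) : E (ch S) = if S = ∅ then 1 else 0 := by
  unfold E
  rw [sum_ch]
  split_ifs
  · rw [div_self (by positivity)]
  · rw [zero_div]

theorem fc_empty (f : Cube n → ℝ) : fc f ∅ = E f := by
  simp [fc, ch_empty]

theorem fc_ch (S T : Finset (Fin n)) : fc (ch S) T = if S = T then 1 else 0 := by
  unfold fc
  simp_rw [ch_mul]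
  have h := E_ch (symmDiff S T)
  have h2 : (symmDiff S T = ∅) ↔ S = T := by
    rw [← bot_eq_empty, symmDiff_eq_bot]
  simp only [h2] at h
  exact h

theorem fc_add (f g : Cube n → ℝ) (S) : fc (fun x => f x + g x) S = fc f S + fc g S := by
  unfold fc
  rw [← E_add]
  congr 1
  funext x
  ring

theorem fc_sub (f g : Cube n → ℝ) (S) : fc (fun x => f x - g x) S = fc f S - fc g S := by
  unfold fc
  rw [← E_sub]
  congr 1
  funext x
  ring

theorem fc_smul (c : ℝ) (f : Cube n → ℝ) (S) : fc (fun x => c * f x) S = c * fc f S := by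
  unfold fc
  rw [← E_smul]
  congr 1
  funext x
  ring

theorem fc_sum {ι : Type*} (s : Finset ι) (f : ι → Cube n → ℝ) (S) :
    fc (fun x => ∑ i ∈ s, f i x) S = ∑ i ∈ s, fc (f i) S := by
  unfold fc
  rw [← E_sum]
  congr 1
  funext x
  rw [sum_mul]

theorem ch_complete (x y : Cube n) : ∑ S, ch S x * ch S y = if x = y then (2 : ℝ) ^ n else 0 := by
  have h1 : ∑ S : Finset (Fin n), ch S x * ch S y = ∏ i, (1 + sg (x i) * sg (y i)) := by
    rw [prod_one_add, powerset_univ]
    refine sum_congr rfl fun S _ => ?_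
    unfold ch
    rw [prod_mul_distrib]
  rw [h1]
  split_ifs with h
  · subst h
    have : ∀ i, (1 + sg (x i) * sg (x i)) = 2 := by
      intro i; rw [sg_mul_self]; norm_num
    simp [this]
  · obtain ⟨i, hi⟩ : ∃ i, x i ≠ y i := by
      by_contra hcon
      push Not at hcon
      exact h (funext hcon)
    apply prod_eq_zero (mem_univ i)
    revert hi
    cases x i <;> cases y i <;> simp [sg]

/-- Fourier inversion -/
theorem inversion (f : Cube n → ℝ) (x : Cube n) : f x = ∑ S, fc f S * ch S x := by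
  unfold fc E
  simp_rw [div_mul_eq_mul_div, sum_mul]
  rw [← sum_div, sum_comm]
  simp_rw [mul_assoc, ← mul_sum, ch_complete]
  simp

/-- the coefficients of a Walsh polynomial -/
theorem fc_poly (c : Finset (Fin n) → ℝ) (S) : fc (fun x => ∑ T, c T * ch T x) S = c S := by
  rw [fc_sum]
  simp_rw [fc_smul, fc_ch]
  simp

theorem parseval (f : Cube n → ℝ) : E (fun x => f x ^ 2) = ∑ S, fc f S ^ 2 := by
  have h : (fun x => f x ^ 2) = fun x => ∑ S, fc f S * (f x * ch S x) := by
    funext x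
    have h2 : f x ^ 2 = f x * ∑ S, fc f S * ch S x := by
      rw [← inversion, sq]
    rw [h2, mul_sum]
    refine sum_congr rfl fun S _ => ?_
    ring
  rw [h, E_sum]
  refine sum_congr rfl fun S _ => ?_
  rw [E_smul, sq]
  rfl

theorem L1_nonneg (f : Cube n → ℝ) : 0 ≤ L1 f := sum_nonneg fun _ _ => abs_nonneg _

theorem abs_le_L1 (f : Cube n → ℝ) (x : Cube n) : |f x| ≤ L1 f := by
  rw [inversion f x]
  refine (abs_sum_le_sum_abs _ _).trans (sum_le_sum fun S _ => ?_)
  rw [abs_mul, ch_abs, mul_one]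

theorem L1_ch (S : Finset (Fin n)) : L1 (ch S) = 1 := by
  unfold L1
  simp_rw [fc_ch]
  rw [sum_eq_single S]
  · simp
  · intro T _ hT
    rw [if_neg (Ne.symm hT), abs_zero]
  · intro h
    exact absurd (mem_univ S) h

theorem L1_smul (c : ℝ) (f : Cube n → ℝ) : L1 (fun x => c * f x) = |c| * L1 f := by
  unfold L1
  simp_rw [fc_smul, abs_mul, mul_sum]

theorem L1_const (c : ℝ) : L1 (fun _ : Cube n => c) = |c| := by
  have h : (fun _ : Cube n => c) = fun x => c * ch ∅ x := by
    funext x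
    rw [ch_empty, mul_one]
  rw [h, L1_smul, L1_ch, mul_one]

theorem L1_add (f g : Cube n → ℝ) : L1 (fun x => f x + g x) ≤ L1 f + L1 g := by
  unfold L1
  rw [← sum_add_distrib]
  refine sum_le_sum fun S _ => ?_
  rw [fc_add]
  exact abs_add_le _ _

theorem L1_sub (f g : Cube n → ℝ) : L1 (fun x => f x - g x) ≤ L1 f + L1 g := by
  unfold L1
  rw [← sum_add_distrib]
  refine sum_le_sum fun S _ => ?_
  rw [fc_sub]
  exact abs_sub _ _

theorem L1_sum {ι : Type*} (s : Finset ι) (f : ι → Cube n → ℝ) :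
    L1 (fun x => ∑ i ∈ s, f i x) ≤ ∑ i ∈ s, L1 (f i) := by
  unfold L1
  rw [sum_comm]
  refine sum_le_sum fun S _ => ?_
  rw [fc_sum]
  exact abs_sum_le_sum_abs _ _

theorem L1_mul (f g : Cube n → ℝ) : L1 (fun x => f x * g x) ≤ L1 f * L1 g := by
  have h1 : ∀ U, fc (fun x => f x * g x) U = ∑ S, fc f S * fc g (symmDiff S U) := by
    intro U
    have h2 : (fun x => f x * g x * ch U x) =
        fun x => ∑ S, fc f S * (g x * ch (symmDiff S U) x) := by
      funext x
      rw [inversion f x, sum_mul, sum_mul]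
      refine sum_congr rfl fun S _ => ?_
      rw [← ch_mul]
      ring
    change E (fun x => f x * g x * ch U x) = _
    rw [h2, E_sum]
    refine sum_congr rfl fun S _ => ?_
    rw [E_smul]
    rfl
  have h3 : ∀ S : Finset (Fin n), ∑ U, |fc g (symmDiff S U)| = L1 g := by
    intro S
    have hinv : Function.Involutive fun U : Finset (Fin n) => symmDiff S U := fun U => by
      simp
    exact hinv.bijective.sum_comp fun V => |fc g V|
  calc L1 (fun x => f x * g x) ≤ ∑ U, ∑ S, |fc f S| * |fc g (symmDiff S U)| := by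
        unfold L1
        refine sum_le_sum fun U _ => ?_
        rw [h1]
        refine (abs_sum_le_sum_abs _ _).trans (sum_le_sum fun S _ => ?_)
        rw [abs_mul]
    _ = ∑ S, |fc f S| * ∑ U, |fc g (symmDiff S U)| := by
        rw [sum_comm]
        simp_rw [mul_sum]
    _ = L1 f * L1 g := by
        simp_rw [h3]
        rw [← sum_mul]
        rfl

/-- the Walsh expansion of a term: `∏_{i ∈ S} (1 + sg (a i) sg (x i)) / 2` -/
theorem term_expand (t : Term n) (x : Cube n) :
    t.f x = ∑ S ∈ t.S.powerset, (1 / 2 : ℝ) ^ t.S.card * ch S t.a * ch S x := by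
  have h1 : t.f x = ∏ i ∈ t.S, (1 / 2 * (1 + sg (t.a i) * sg (x i))) := by
    unfold Term.f
    by_cases h : t.Sat x
    · rw [one_true h]
      symm
      refine prod_eq_one fun i hi => ?_
      rw [h i hi, sg_mul_self]
      norm_num
    · rw [one_false h]
      unfold Term.Sat at h
      push Not at h
      obtain ⟨i, hi, hne⟩ := h
      symm
      refine prod_eq_zero hi ?_
      revert hne
      cases x i <;> cases t.a i <;> simp [sg]
  rw [h1, prod_mul_distrib, prod_const, prod_one_add, mul_sum]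
  refine sum_congr rfl fun S _ => ?_
  unfold ch
  rw [prod_mul_distrib, mul_assoc]

theorem L1_term (t : Term n) : L1 t.f ≤ 1 := by
  have h : t.f = fun x => ∑ S ∈ t.S.powerset, (1 / 2 : ℝ) ^ t.S.card * ch S t.a * ch S x :=
    funext (term_expand t)
  rw [h]
  refine (L1_sum _ _).trans ?_
  have h2 : ∀ S ∈ t.S.powerset, L1 (fun x => (1 / 2 : ℝ) ^ t.S.card * ch S t.a * ch S x) =
      (1 / 2 : ℝ) ^ t.S.card := by
    intro S _
    rw [L1_smul, L1_ch, mul_one, abs_mul, ch_abs, mul_one, abs_of_nonneg (by positivity)]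
  rw [sum_congr rfl h2, sum_const, card_powerset, nsmul_eq_mul]
  push_cast
  rw [← mul_pow]
  norm_num

theorem E_term (t : Term n) : E t.f = (1 / 2) ^ t.S.card := by
  have h : t.f = fun x => ∑ S ∈ t.S.powerset, (1 / 2 : ℝ) ^ t.S.card * ch S t.a * ch S x :=
    funext (term_expand t)
  rw [h, E_sum]
  simp_rw [E_smul]
  rw [sum_eq_single ∅]
  · rw [E_ch, if_pos rfl, ch_empty, mul_one, mul_one]
  · intro S _ hS
    have := E_ch S
    rw [if_neg hS] at this
    rw [this, mul_zero]
  · intro h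
    exact absurd (empty_mem_powerset _) h

/-! Sandwiches. -/

theorem Sand.mono {ε ε' M M' : ℝ} {f : Cube n → ℝ} (h : Sand ε M f) (h1 : ε ≤ ε') (h2 : M ≤ M') :
    Sand ε' M' f := by
  obtain ⟨lo, up, hs, he, hl, hu⟩ := h
  exact ⟨lo, up, hs, he.trans h1, hl.trans h2, hu.trans h2⟩

theorem Sand.congr {ε M : ℝ} {f g : Cube n → ℝ} (h : Sand ε M f) (h1 : ∀ x, f x = g x) :
    Sand ε M g := by
  rwa [← funext h1]

theorem Sand.of_L1 {M : ℝ} {f : Cube n → ℝ} (h : L1 f ≤ M) : Sand 0 M f :=
  ⟨f, f, fun _ => ⟨le_rfl, le_rfl⟩, by rw [sub_self], h, h⟩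

theorem Sand.add {ε ε' M M' : ℝ} {f g : Cube n → ℝ} (hf : Sand ε M f) (hg : Sand ε' M' g) :
    Sand (ε + ε') (M + M') (fun x => f x + g x) := by
  obtain ⟨lo, up, hs, he, hl, hu⟩ := hf
  obtain ⟨lo', up', hs', he', hl', hu'⟩ := hg
  refine ⟨fun x => lo x + lo' x, fun x => up x + up' x, fun x => ⟨?_, ?_⟩, ?_, ?_, ?_⟩
  · exact add_le_add (hs x).1 (hs' x).1
  · exact add_le_add (hs x).2 (hs' x).2
  · rw [E_add, E_add]; linarith
  · exact (L1_add _ _).trans (add_le_add hl hl')
  · exact (L1_add _ _).trans (add_le_add hu hu')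

theorem Sand.smul {ε M : ℝ} (c : ℝ) {f : Cube n → ℝ} (hf : Sand ε M f) :
    Sand (|c| * ε) (|c| * M) (fun x => c * f x) := by
  obtain ⟨lo, up, hs, he, hl, hu⟩ := hf
  have hc := abs_nonneg c
  rcases le_total 0 c with h0 | h0
  · refine ⟨fun x => c * lo x, fun x => c * up x, fun x => ⟨?_, ?_⟩, ?_, ?_, ?_⟩
    · exact mul_le_mul_of_nonneg_left (hs x).1 h0
    · exact mul_le_mul_of_nonneg_left (hs x).2 h0
    · rw [E_smul, E_smul, abs_of_nonneg h0, ← mul_sub]
      exact mul_le_mul_of_nonneg_left he h0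
    · rw [L1_smul]; exact mul_le_mul_of_nonneg_left hl hc
    · rw [L1_smul]; exact mul_le_mul_of_nonneg_left hu hc
  · refine ⟨fun x => c * up x, fun x => c * lo x, fun x => ⟨?_, ?_⟩, ?_, ?_, ?_⟩
    · exact mul_le_mul_of_nonpos_left (hs x).2 h0
    · exact mul_le_mul_of_nonpos_left (hs x).1 h0
    · rw [E_smul, E_smul, abs_of_nonpos h0]
      nlinarith [mul_le_mul_of_nonneg_left he (neg_nonneg.mpr h0)]
    · rw [L1_smul]; exact mul_le_mul_of_nonneg_left hu hc
    · rw [L1_smul]; exact mul_le_mul_of_nonneg_left hl hc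

theorem Sand.sum {ι : Type*} (s : Finset ι) {ε M : ι → ℝ} {f : ι → Cube n → ℝ}
    (h : ∀ i ∈ s, Sand (ε i) (M i) (f i)) :
    Sand (∑ i ∈ s, ε i) (∑ i ∈ s, M i) (fun x => ∑ i ∈ s, f i x) := by
  classical
  induction s using Finset.induction_on with
  | empty =>
    simp only [sum_empty]
    refine Sand.of_L1 ?_
    rw [L1_const, abs_zero]
  | insert i s hi ih =>
    simp only [sum_insert hi]
    exact (h i (mem_insert_self i s)).add (ih fun j hj => h j (mem_insert_of_mem hj))

end Pool.Agent.MP_ca1109_lc.Dnf
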