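import Pool.Agent.MP_ca1109_lc.Dnf.B1

/-!
# Read-bounded DNFs: independence
-/

namespace Pool.Agent.MP_ca1109_lc.Dnf

open Finset

variable {n N : ℕ}

/-! Functions which depend only on the bits in `A`. -/

theorem On.mono {α : Type*} {A B : Finset (Fin n)} {f : Cube n → α} (h : On A f) (hAB : A ⊆ B) :
    On B f := fun x y hxy => h x y fun i hi => hxy i (hAB hi)

theorem sat_congr (t : Term n) {x y : Cube n} (h : ∀ i ∈ t.S, x i = y i) : t.Sat x ↔ t.Sat y := by
  unfold Term.Sat
  constructor
  · intro h1 i hi
    rw [← h i hi]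
    exact h1 i hi
  · intro h1 i hi
    rw [h i hi]
    exact h1 i hi

theorem on_sat (t : Term n) : On t.S t.Sat := fun _ _ h => propext (sat_congr t h)

theorem on_term (t : Term n) : On t.S t.f := by
  intro x y h
  unfold Term.f
  rw [on_sat t x y h]

theorem on_ball (τ : ℕ) (T : Fin N → Term n) (j : Fin N) : On (ball τ T j) (Z τ T j) := by
  classical
  intro x y h
  unfold Z
  congr 1
  unfold ZP
  have h1 : (T j).Sat x ↔ (T j).Sat y :=
    sat_congr _ fun i hi => h i (Finset.mem_union_left _ hi)
  have h2 : ∀ i, Hv τ T i j → ((T i).Sat x ↔ (T i).Sat y) := fun i hi =>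
    sat_congr _ fun v hv => h v (Finset.mem_union_right _
      (Finset.mem_biUnion.2 ⟨i, Finset.mem_filter.2 ⟨Finset.mem_univ _, hi⟩, hv⟩))
  apply propext
  rw [h1]
  refine and_congr_right fun _ => forall_congr' fun i => ?_
  exact imp_congr_right fun hi => not_congr (h2 i hi)

theorem mix_mix {α : Type*} (A : Finset (Fin n)) (x y : Fin n → α) :
    mix A (mix A x y) (mix A y x) = x := by
  funext i
  unfold mix
  split_ifs <;> rfl

/-- The exchange of the bits in `A`. -/
def mixEquiv (A : Finset (Fin n)) : Cube n × Cube n ≃ Cube n × Cube n where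
  toFun p := (mix A p.1 p.2, mix A p.2 p.1)
  invFun p := (mix A p.1 p.2, mix A p.2 p.1)
  left_inv p := by
    ext1
    · exact mix_mix A p.1 p.2
    · exact mix_mix A p.2 p.1
  right_inv p := by
    ext1
    · exact mix_mix A p.1 p.2
    · exact mix_mix A p.2 p.1

theorem E_E (F : Cube n → Cube n → ℝ) :
    E (fun x => E fun y => F x y) = (∑ p : Cube n × Cube n, F p.1 p.2) / (2 ^ n * 2 ^ n) := by
  unfold E
  rw [Fintype.sum_prod_type, ← Finset.sum_div, div_div]

/-- Resampling: if `x` and `y` are uniform and independent, so is `x` on `A`, `y` outside. -/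
theorem E_mix (A : Finset (Fin n)) (f : Cube n → ℝ) :
    E (fun x => E fun y => f (mix A x y)) = E f := by
  rw [E_E (fun x y => f (mix A x y))]
  have h1 : ∑ p : Cube n × Cube n, f (mix A p.1 p.2) = ∑ p : Cube n × Cube n, f p.1 :=
    Equiv.sum_comp (mixEquiv A) (fun p => f p.1)
  rw [h1, ← E_E (fun x _ => f x)]
  simp only [E_const]

/-- Functions of disjoint sets of bits are independent. -/
theorem E_indep {A B : Finset (Fin n)} (hAB : Disjoint A B) {f g : Cube n → ℝ} (hf : On A f)
    (hg : On B g) : E (fun x => f x * g x) = E f * E g := by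
  rw [← E_mix A (fun x => f x * g x)]
  have h1 : ∀ x y, f (mix A x y) = f x := fun x y => hf _ _ fun i hi => by
    unfold mix
    rw [if_pos hi]
  have h2 : ∀ x y, g (mix A x y) = g y := fun x y => hg _ _ fun i hi => by
    unfold mix
    rw [if_neg (Finset.disjoint_right.1 hAB hi)]
  simp only [h1, h2]
  have h3 : ∀ x, E (fun y => f x * g y) = E g * f x := fun x => by
    rw [E_smul, mul_comm]
  simp only [h3]
  rw [E_smul, mul_comm]

/-- Many functions of pairwise disjoint sets of bits are independent. -/
theorem E_prod {ι : Type*} (J : Finset ι) (A : ι → Finset (Fin n)) (f : ι → Cube n → ℝ)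
    (hA : ∀ i ∈ J, ∀ j ∈ J, i ≠ j → Disjoint (A i) (A j)) (hf : ∀ i ∈ J, On (A i) (f i)) :
    E (fun x => ∏ i ∈ J, f i x) = ∏ i ∈ J, E (f i) := by
  classical
  induction J using Finset.induction_on with
  | empty =>
    simp only [Finset.prod_empty]
    exact E_const 1
  | insert a J ha ih =>
    simp only [Finset.prod_insert ha]
    have h1 : On (J.biUnion A) fun x => ∏ i ∈ J, f i x := by
      intro x y h
      refine Finset.prod_congr rfl fun i hi => hf i (Finset.mem_insert_of_mem hi) x y fun v hv => ?_
      exact h v (Finset.mem_biUnion.2 ⟨i, hi, hv⟩)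
    have h2 : Disjoint (A a) (J.biUnion A) := by
      rw [Finset.disjoint_biUnion_right]
      intro i hi
      exact hA a (Finset.mem_insert_self _ _) i (Finset.mem_insert_of_mem hi)
        fun h => ha (h ▸ hi)
    rw [E_indep h2 (hf a (Finset.mem_insert_self _ _)) h1,
      ih (fun i hi j hj => hA i (Finset.mem_insert_of_mem hi) j (Finset.mem_insert_of_mem hj))
        (fun i hi => hf i (Finset.mem_insert_of_mem hi))]

end Pool.Agent.MP_ca1109_lc.Dnf
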