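import Pool.Agent.MP_ca1109_lc.Dnf.B2

/-!
# Read-bounded DNFs: products of terms, projections
-/

namespace Pool.Agent.MP_ca1109_lc.Dnf

open Finset

variable {n N : ℕ}

/- ROW B3.  PROOF.  `prod_term`: if two terms of `J` contradict each other the product is 0; otherwise a common extension `a`.
`E_two`: `s.f x * t.f x` is 0 or the term with variables `s.S ∪ t.S`, `E_term` (or `prod_term` for two terms); `|s.S ∪ t.S| = |s.S| + |t.S \ s.S|`.
`Sand.proj`: `lo' x = ∑_{S disjoint from V} fc lo S * ch S x = E_y lo (mix V y x)`; `fc_poly` for the norm, `fc_empty` for the average. -/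

/-- The product of the terms in `J` is zero or a term. -/
theorem prod_term (T : Fin N → Term n) (J : Finset (Fin N)) :
    (∀ x, ∏ j ∈ J, (T j).f x = 0) ∨
      ∃ t : Term n, t.S = J.biUnion (fun j => (T j).S) ∧ (∀ j ∈ J, ∀ i ∈ (T j).S, t.a i = (T j).a i) ∧
        ∀ x, ∏ j ∈ J, (T j).f x = t.f x := by
  classical
  by_cases h : ∃ x, ∀ j ∈ J, (T j).Sat x
  · obtain ⟨y, hy⟩ := h
    right
    refine ⟨⟨J.biUnion fun j => (T j).S, y⟩, rfl, fun j hj i hi => hy j hj i hi, fun x => ?_⟩
    unfold Term.f
    by_cases hx : ∀ j ∈ J, (T j).Sat x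
    · rw [prod_eq_one fun j hj => one_true (hx j hj), one_true]
      intro i hi
      obtain ⟨j, hj, hi⟩ := mem_biUnion.mp hi
      rw [hx j hj i hi]
      exact (hy j hj i hi).symm
    · push Not at hx
      obtain ⟨j, hj, hn⟩ := hx
      rw [prod_eq_zero hj (one_false hn), one_false]
      intro hs
      apply hn
      intro i hi
      rw [← hy j hj i hi]
      exact hs i (mem_biUnion.mpr ⟨j, hj, hi⟩)
  · left
    intro x
    push Not at h
    obtain ⟨j, hj, hn⟩ := h x
    exact prod_eq_zero hj (one_false hn)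

/-- The probability that two terms are satisfied. -/
theorem E_two (s t : Term n) : E (fun x => s.f x * t.f x) ≤ (1 / 2) ^ (s.S.card + (t.S \ s.S).card) := by
  classical
  have h1 : ∀ x, s.f x * t.f x = ∏ j ∈ (univ : Finset (Fin 2)), ((![s, t] : Fin 2 → Term n) j).f x := by
    intro x
    rw [Fin.prod_univ_two]
    rfl
  simp_rw [h1]
  rcases prod_term (![s, t] : Fin 2 → Term n) univ with h | ⟨u, hu, _, h⟩
  · simp_rw [h]
    rw [E_const]
    positivity
  · simp_rw [h]
    have hE : E (fun x => u.f x) = (1 / 2) ^ u.S.card := E_term u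
    rw [hE]
    apply le_of_eq
    congr 1
    have h2 : u.S = t.S ∪ s.S := by
      rw [hu]
      ext i
      simp only [mem_biUnion, mem_univ, true_and, Fin.exists_fin_two, mem_union]
      exact or_comm
    rw [h2, ← card_sdiff_add_card, add_comm]

theorem pJ_nonneg (T : Fin N → Term n) (J : Finset (Fin N)) : 0 ≤ pJ T J :=
  E_nonneg fun _ => prod_nonneg fun _ _ => one_nonneg _

theorem pJ_le (T : Fin N → Term n) {J J' : Finset (Fin N)} (h : J ⊆ J') : pJ T J' ≤ pJ T J := by
  classical
  refine E_mono fun x => ?_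
  rw [← prod_sdiff h]
  refine mul_le_of_le_one_left (prod_nonneg fun _ _ => one_nonneg _) ?_
  exact prod_le_one (fun _ _ => one_nonneg _) fun _ _ => one_le _

theorem L1_prod (T : Fin N → Term n) (J : Finset (Fin N)) : L1 (fun x => ∏ j ∈ J, (T j).f x) ≤ 1 := by
  rcases prod_term T J with h | ⟨u, _, _, h⟩
  · simp_rw [h]
    rw [L1_const, abs_zero]
    exact zero_le_one
  · simp_rw [h]
    exact L1_term u

open Classical in
/-- The average over the bits in `V`: keep the Walsh coefficients of the sets disjoint from `V`. -/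
noncomputable def pr (V : Finset (Fin n)) (g : Cube n → ℝ) (x : Cube n) : ℝ :=
  ∑ S, (if Disjoint S V then fc g S else 0) * ch S x

theorem fc_pr (V : Finset (Fin n)) (g : Cube n → ℝ) (S : Finset (Fin n)) :
    fc (pr V g) S = open Classical in if Disjoint S V then fc g S else 0 := by
  classical
  have h := fc_poly (fun S => if Disjoint S V then fc g S else 0) S
  exact h

theorem E_pr (V : Finset (Fin n)) (g : Cube n → ℝ) : E (pr V g) = E g := by
  rw [← fc_empty, fc_pr, if_pos (disjoint_empty_left V), fc_empty]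

theorem L1_pr (V : Finset (Fin n)) (g : Cube n → ℝ) : L1 (pr V g) ≤ L1 g := by
  refine sum_le_sum fun S _ => ?_
  rw [fc_pr]
  split_ifs
  · exact le_rfl
  · rw [abs_zero]
    exact abs_nonneg _

theorem on_pr (V : Finset (Fin n)) (g : Cube n → ℝ) : On Vᶜ (pr V g) := by
  classical
  intro x y hxy
  unfold pr
  refine sum_congr rfl fun S _ => ?_
  split_ifs with h
  · congr 1
    refine prod_congr rfl fun i hi => ?_
    rw [hxy i (mem_compl.mpr (disjoint_left.mp h hi))]
  · rw [zero_mul, zero_mul]

theorem ch_mix (V S : Finset (Fin n)) (x y : Cube n) :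
    ch S (mix V y x) = ch (S ∩ V) y * ch (S \ V) x := by
  classical
  unfold ch
  rw [← prod_inter_mul_prod_sdiff S V]
  congr 1
  · refine prod_congr rfl fun i hi => ?_
    rw [mix, if_pos (mem_inter.mp hi).2]
  · refine prod_congr rfl fun i hi => ?_
    rw [mix, if_neg (mem_sdiff.mp hi).2]

theorem pr_eq (V : Finset (Fin n)) (g : Cube n → ℝ) (x : Cube n) :
    pr V g x = E fun y => g (mix V y x) := by
  classical
  have h : (fun y => g (mix V y x)) = fun y => ∑ S, (fc g S * ch (S \ V) x) * ch (S ∩ V) y := by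
    funext y
    rw [inversion g]
    refine sum_congr rfl fun S _ => ?_
    rw [ch_mix]
    ring
  rw [h, E_sum]
  unfold pr
  refine sum_congr rfl fun S _ => ?_
  rw [E_smul]
  have h2 : E (fun y => ch (S ∩ V) y) = if S ∩ V = ∅ then 1 else 0 := E_ch (S ∩ V)
  rw [h2]
  by_cases hd : Disjoint S V
  · rw [if_pos hd, if_pos (disjoint_iff_inter_eq_empty.mp hd), sdiff_eq_self_of_disjoint hd, mul_one]
  · rw [if_neg hd, if_neg fun h => hd (disjoint_iff_inter_eq_empty.mpr h), zero_mul, mul_zero]

/-- Sandwiches of a function which does not depend on the bits in `V` can be chosen independent of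
`V`. (Average over the bits in `V`: keep the Walsh coefficients of the sets disjoint from `V`.) -/
theorem Sand.proj {V : Finset (Fin n)} {ε M : ℝ} {f : Cube n → ℝ} (h : Sand ε M f) (hf : On Vᶜ f) :
    ∃ lo up : Cube n → ℝ, On Vᶜ lo ∧ On Vᶜ up ∧ (∀ x, lo x ≤ f x ∧ f x ≤ up x) ∧
      E up - E lo ≤ ε ∧ L1 lo ≤ M ∧ L1 up ≤ M := by
  classical
  obtain ⟨lo, up, hs, he, hl, hu⟩ := h
  have hfx : ∀ x, (E fun y => f (mix V y x)) = f x := by
    intro x
    have : (fun y => f (mix V y x)) = fun _ => f x := by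
      funext y
      refine hf _ _ fun i hi => ?_
      rw [mix, if_neg (mem_compl.mp hi)]
    rw [this, E_const]
  refine ⟨pr V lo, pr V up, on_pr V lo, on_pr V up, fun x => ⟨?_, ?_⟩, ?_, ?_, ?_⟩
  · rw [pr_eq, ← hfx x]
    exact E_mono fun y => (hs _).1
  · rw [pr_eq, ← hfx x]
    exact E_mono fun y => (hs _).2
  · rw [E_pr, E_pr]
    exact he
  · exact (L1_pr V lo).trans hl
  · exact (L1_pr V up).trans hu

end Pool.Agent.MP_ca1109_lc.Dnf
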