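import Pool.Agent.MP_ca1109_lc.Dnf.B3

/-!
# Read-bounded DNFs: random restrictions
-/

namespace Pool.Agent.MP_ca1109_lc.Dnf

open Finset

variable {n N : ℕ}

/-- The weight of a restriction. -/
noncomputable def Wr (p : ℝ) (a : Finset (Fin n) × Cube n) : ℝ :=
  p ^ a.1.card * (1 - p) ^ (n - a.1.card) / 2 ^ n

theorem Er_eq (p : ℝ) (g : Finset (Fin n) → Cube n → ℝ) :
    Er p g = ∑ a : Finset (Fin n) × Cube n, Wr p a * g a.1 a.2 := by
  rw [Fintype.sum_prod_type]
  unfold Er E Wr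
  refine sum_congr rfl fun R _ => ?_
  rw [Finset.sum_div, Finset.mul_sum]
  refine sum_congr rfl fun y _ => ?_
  simp only
  ring

theorem Er_const (p : ℝ) (c : ℝ) : Er (n := n) p (fun _ _ => c) = c := by
  unfold Er
  simp_rw [E_const]
  rw [← Finset.sum_mul]
  have h := Fintype.sum_pow_mul_eq_add_pow (Fin n) p (1 - p)
  rw [Fintype.card_fin] at h
  rw [h]
  simp

theorem Er_add (p : ℝ) (f g : Finset (Fin n) → Cube n → ℝ) :
    Er p (fun R y => f R y + g R y) = Er p f + Er p g := by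
  unfold Er
  rw [← sum_add_distrib]
  refine sum_congr rfl fun R _ => ?_
  rw [E_add, mul_add]

theorem Er_smul (p c : ℝ) (f : Finset (Fin n) → Cube n → ℝ) :
    Er p (fun R y => c * f R y) = c * Er p f := by
  unfold Er
  rw [Finset.mul_sum]
  refine sum_congr rfl fun R _ => ?_
  rw [E_smul]
  ring

theorem Er_sum {ι : Type*} (p : ℝ) (s : Finset ι) (f : ι → Finset (Fin n) → Cube n → ℝ) :
    Er p (fun R y => ∑ i ∈ s, f i R y) = ∑ i ∈ s, Er p (f i) := by
  unfold Er
  rw [sum_comm]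
  refine sum_congr rfl fun R _ => ?_
  rw [E_sum, Finset.mul_sum]

theorem Er_mono {p : ℝ} (hp : 0 ≤ p) (hp1 : p ≤ 1) {f g : Finset (Fin n) → Cube n → ℝ}
    (h : ∀ R y, f R y ≤ g R y) : Er p f ≤ Er p g := by
  unfold Er
  refine sum_le_sum fun R _ => ?_
  have h1 : 0 ≤ 1 - p := by linarith
  exact mul_le_mul_of_nonneg_left (E_mono (h R)) (by positivity)

/-- `g` depends only on the part of `(R, y)` in `T`. -/
def OnR (T : Finset (Fin n)) (g : Finset (Fin n) → Cube n → ℝ) : Prop :=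
  ∀ R R' y y', R ∩ T = R' ∩ T → (∀ i ∈ T, y i = y' i) → g R y = g R' y'

/-- `a` in `T`, `b` outside. -/
def mx (T : Finset (Fin n)) (a b : Finset (Fin n) × Cube n) : Finset (Fin n) × Cube n :=
  ((a.1 ∩ T) ∪ (b.1 \ T), mix T a.2 b.2)

theorem mx_mx (T : Finset (Fin n)) (a b : Finset (Fin n) × Cube n) :
    mx T (mx T a b) (mx T b a) = a := by
  unfold mx mix
  refine Prod.ext ?_ ?_
  · ext i
    simp only [mem_union, mem_inter, mem_sdiff]
    tauto
  · funext i
    simp only
    by_cases h : i ∈ T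
    · rw [if_pos h, if_pos h]
    · rw [if_neg h, if_neg h]

theorem mx_inter (T : Finset (Fin n)) (a b : Finset (Fin n) × Cube n) :
    (mx T a b).1 ∩ T = a.1 ∩ T := by
  unfold mx
  ext i
  simp only [mem_union, mem_inter, mem_sdiff]
  tauto

theorem mx_compl (T : Finset (Fin n)) (a b : Finset (Fin n) × Cube n) :
    (mx T a b).1 ∩ Tᶜ = b.1 ∩ Tᶜ := by
  unfold mx
  ext i
  simp only [mem_union, mem_inter, mem_sdiff, mem_compl]
  tauto

theorem mx_card (T : Finset (Fin n)) (a b : Finset (Fin n) × Cube n) :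
    (mx T a b).1.card + (mx T b a).1.card = a.1.card + b.1.card := by
  unfold mx
  simp only
  have h : ∀ R R' : Finset (Fin n), ((R ∩ T) ∪ (R' \ T)).card = (R ∩ T).card + (R' \ T).card := by
    intro R R'
    refine card_union_of_disjoint ?_
    rw [disjoint_left]
    intro i hi hi'
    exact (mem_sdiff.1 hi').2 (mem_inter.1 hi).2
  rw [h, h]
  have h1 := card_inter_add_card_sdiff a.1 T
  have h2 := card_inter_add_card_sdiff b.1 T
  omega

theorem Wr_mx (p : ℝ) (T : Finset (Fin n)) (a b : Finset (Fin n) × Cube n) :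
    Wr p (mx T a b) * Wr p (mx T b a) = Wr p a * Wr p b := by
  have h := mx_card T a b
  have hle : ∀ R : Finset (Fin n), R.card ≤ n := fun R => by
    simpa using card_le_univ R
  have h1 := hle a.1
  have h2 := hle b.1
  have h3 := hle (mx T a b).1
  have h4 := hle (mx T b a).1
  unfold Wr
  have e : ∀ x y : ℕ, p ^ x * (1 - p) ^ (n - x) / 2 ^ n * (p ^ y * (1 - p) ^ (n - y) / 2 ^ n) =
      p ^ (x + y) * (1 - p) ^ ((n - x) + (n - y)) / 2 ^ n / 2 ^ n := by
    intro x y
    rw [pow_add, pow_add]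
    ring
  rw [e, e, h]
  congr 4
  omega

theorem Er_indep (p : ℝ) (T : Finset (Fin n)) {f g : Finset (Fin n) → Cube n → ℝ}
    (hf : OnR T f) (hg : OnR Tᶜ g) : Er p (fun R y => f R y * g R y) = Er p f * Er p g := by
  have h1 : Er p f * Er p g = ∑ q : (Finset (Fin n) × Cube n) × (Finset (Fin n) × Cube n),
      Wr p q.1 * Wr p q.2 * (f q.1.1 q.1.2 * g q.2.1 q.2.2) := by
    rw [Er_eq, Er_eq, Finset.sum_mul_sum]
    rw [Fintype.sum_prod_type (f := fun q : (Finset (Fin n) × Cube n) ×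
      (Finset (Fin n) × Cube n) => Wr p q.1 * Wr p q.2 * (f q.1.1 q.1.2 * g q.2.1 q.2.2))]
    refine sum_congr rfl fun a _ => sum_congr rfl fun b _ => ?_
    simp only
    ring
  have h2 : Er p (fun R y => f R y * g R y) =
      ∑ q : (Finset (Fin n) × Cube n) × (Finset (Fin n) × Cube n),
      Wr p q.1 * Wr p q.2 * (f q.1.1 q.1.2 * g q.1.1 q.1.2) := by
    have h3 : Er (n := n) p (fun _ _ => (1 : ℝ)) = 1 := Er_const p 1
    rw [Er_eq] at h3
    calc Er p (fun R y => f R y * g R y) = Er p (fun R y => f R y * g R y) *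
          ∑ a : Finset (Fin n) × Cube n, Wr p a * 1 := by rw [h3, mul_one]
      _ = _ := by
          rw [Er_eq, Finset.sum_mul_sum]
          rw [Fintype.sum_prod_type (f := fun q : (Finset (Fin n) × Cube n) ×
            (Finset (Fin n) × Cube n) =>
              Wr p q.1 * Wr p q.2 * (f q.1.1 q.1.2 * g q.1.1 q.1.2))]
          refine sum_congr rfl fun a _ => sum_congr rfl fun b _ => ?_
          simp only
          ring
  rw [h1, h2]
  let φ : (Finset (Fin n) × Cube n) × (Finset (Fin n) × Cube n) →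
      (Finset (Fin n) × Cube n) × (Finset (Fin n) × Cube n) := fun q =>
    (mx T q.1 q.2, mx T q.2 q.1)
  have hφ : Function.Involutive φ := fun q => Prod.ext (mx_mx T q.1 q.2) (mx_mx T q.2 q.1)
  rw [← Equiv.sum_comp hφ.toPerm (fun q : (Finset (Fin n) × Cube n) × (Finset (Fin n) × Cube n) =>
    Wr p q.1 * Wr p q.2 * (f q.1.1 q.1.2 * g q.2.1 q.2.2))]
  refine sum_congr rfl fun q _ => ?_
  show _ = Wr p (mx T q.1 q.2) * Wr p (mx T q.2 q.1) *
    (f (mx T q.1 q.2).1 (mx T q.1 q.2).2 * g (mx T q.2 q.1).1 (mx T q.2 q.1).2)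
  rw [Wr_mx]
  have e1 : f (mx T q.1 q.2).1 (mx T q.1 q.2).2 = f q.1.1 q.1.2 := by
    refine hf _ _ _ _ (mx_inter T _ _) fun i hi => ?_
    show mix T q.1.2 q.2.2 i = _
    rw [mix, if_pos hi]
  have e2 : g (mx T q.2 q.1).1 (mx T q.2 q.1).2 = g q.1.1 q.1.2 := by
    refine hg _ _ _ _ (mx_compl T _ _) fun i hi => ?_
    show mix T q.2.2 q.1.2 i = _
    rw [mix, if_neg (mem_compl.1 hi)]
  rw [e1, e2]

theorem Er_point (p : ℝ) {T Y : Finset (Fin n)} (hY : Y ⊆ T) (a : Cube n) :
    Er p (fun R y => one (R ∩ T = Y ∧ ∀ i ∈ T \ Y, y i = a i)) =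
      p ^ Y.card * ((1 - p) / 2) ^ (T.card - Y.card) := by
  classical
  have hc : (T \ Y).card = T.card - Y.card := card_sdiff_of_subset hY
  have h1 : ∀ R : Finset (Fin n), E (fun y => one (R ∩ T = Y ∧ ∀ i ∈ T \ Y, y i = a i)) =
      one (R ∩ T = Y) * (1 / 2) ^ (T.card - Y.card) := by
    intro R
    have h2 := E_term (⟨T \ Y, a⟩ : Term n)
    rw [hc] at h2
    rw [← h2, ← E_smul]
    congr 1
    funext y
    rw [one_and]
    rfl
  unfold Er
  simp_rw [h1]
  have h3 : ∀ R : Finset (Fin n), p ^ R.card * (1 - p) ^ (n - R.card) *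
      (one (R ∩ T = Y) * (1 / 2) ^ (T.card - Y.card)) =
      (if R ∩ T = Y then p ^ R.card * (1 - p) ^ (n - R.card) else 0) *
        (1 / 2) ^ (T.card - Y.card) := by
    intro R
    unfold one
    split_ifs <;> ring
  simp_rw [h3]
  rw [← Finset.sum_mul, ← Finset.sum_filter]
  have h4 : ∑ R ∈ univ.filter (fun R : Finset (Fin n) => R ∩ T = Y),
      p ^ R.card * (1 - p) ^ (n - R.card) =
      ∑ t ∈ (Tᶜ).powerset, p ^ Y.card * (1 - p) ^ (T.card - Y.card) *
        (p ^ t.card * (1 - p) ^ ((Tᶜ).card - t.card)) := by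
    refine sum_nbij' (fun R => R \ T) (fun t => Y ∪ t) ?_ ?_ ?_ ?_ ?_
    · intro R _
      rw [mem_powerset]
      intro i hi
      rw [mem_compl]
      exact (mem_sdiff.1 hi).2
    · intro t ht
      rw [mem_powerset] at ht
      rw [mem_filter]
      refine ⟨mem_univ _, ?_⟩
      ext i
      simp only [mem_inter, mem_union]
      constructor
      · rintro ⟨h | h, hT⟩
        · exact h
        · exact absurd hT (mem_compl.1 (ht h))
      · intro h
        exact ⟨Or.inl h, hY h⟩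
    · intro R hR
      have hR := (mem_filter.1 hR).2
      ext i
      simp only [mem_union, mem_sdiff, ← hR, mem_inter]
      tauto
    · intro t ht
      rw [mem_powerset] at ht
      ext i
      simp only [mem_union, mem_sdiff]
      constructor
      · rintro ⟨h | h, hT⟩
        · exact absurd (hY h) hT
        · exact h
      · intro h
        exact ⟨Or.inr h, mem_compl.1 (ht h)⟩
    · intro R hR
      have hR := (mem_filter.1 hR).2
      have e1 : R.card = Y.card + (R \ T).card := by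
        rw [← hR]
        exact (card_inter_add_card_sdiff R T).symm
      have e2 : (Tᶜ).card = n - T.card := by rw [card_compl, Fintype.card_fin]
      have e3 : (R \ T).card ≤ (Tᶜ).card := card_le_card fun i hi =>
        mem_compl.2 (mem_sdiff.1 hi).2
      have e4 : Y.card ≤ T.card := card_le_card hY
      have e5 : T.card ≤ n := by simpa using card_le_univ T
      have e6 : n - R.card = (T.card - Y.card) + ((Tᶜ).card - (R \ T).card) := by omega
      rw [e6, pow_add, e1, pow_add]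
      ring
  rw [h4, ← Finset.mul_sum, Finset.sum_pow_mul_eq_add_pow]
  have h5 : p + (1 - p) = 1 := by ring
  rw [h5, one_pow, mul_one, mul_assoc, ← mul_pow]
  congr 2
  ring

theorem exp_num : Real.exp (7 / 20) ≤ 1.42 := by
  have h1 : Real.exp (7 / 20) ^ 20 ≤ (1.42 : ℝ) ^ 20 := by
    rw [← Real.exp_nat_mul]
    have h2 : ((20 : ℕ) : ℝ) * (7 / 20) = ((7 : ℕ) : ℝ) * 1 := by norm_num
    rw [h2, Real.exp_nat_mul]
    calc Real.exp 1 ^ 7 ≤ (2.7182818286 : ℝ) ^ 7 :=
          pow_le_pow_left₀ (Real.exp_pos 1).le Real.exp_one_lt_d9.le 7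
      _ ≤ (1.42 : ℝ) ^ 20 := by norm_num
  exact le_of_pow_le_pow_left₀ (by norm_num) (by norm_num) h1

theorem numeric (w : ℕ) (p : ℝ) (hp : 0 ≤ p) (hpw : 20 * w * p ≤ 1) (hp1 : p ≤ 1)
    (T : Finset (Fin n)) (hT : T.card ≤ w) :
    ∑ Y ∈ T.powerset.erase ∅, p ^ Y.card * ((1 - p) / 2) ^ (T.card - Y.card) *
      (2 ^ Y.card * (1 + 2 ^ Y.card)) ≤ (1 / 2) ^ T.card := by
  have hq : 0 ≤ 1 - p := by linarith
  have hk : (T.card : ℝ) * p ≤ 1 / 20 := by
    have h1 : (T.card : ℝ) ≤ w := by exact_mod_cast hT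
    nlinarith
  have h1 : ∀ Y ∈ T.powerset.erase ∅, p ^ Y.card * ((1 - p) / 2) ^ (T.card - Y.card) *
      (2 ^ Y.card * (1 + 2 ^ Y.card)) ≤
      2 * (1 / 2) ^ T.card * ((8 * p) ^ Y.card * (1 - p) ^ (T.card - Y.card)) := by
    intro Y hY
    have hYT : Y.card ≤ T.card := card_le_card (mem_powerset.1 (mem_of_mem_erase hY))
    have e1 : (1 : ℝ) ≤ 2 ^ Y.card := one_le_pow₀ (by norm_num)
    have e2 : ((1 : ℝ) / 2) ^ T.card = (1 / 2) ^ Y.card * (1 / 2) ^ (T.card - Y.card) := by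
      rw [← pow_add, Nat.add_sub_cancel' hYT]
    have e3 : (8 * p) ^ Y.card = (2 : ℝ) ^ Y.card * (2 ^ Y.card * 2 ^ Y.card) * p ^ Y.card := by
      rw [← mul_pow, ← mul_pow, ← mul_pow]
      congr 1
      ring
    have e4 : ((1 - p) / 2) ^ (T.card - Y.card) =
        (1 - p) ^ (T.card - Y.card) * (1 / 2) ^ (T.card - Y.card) := by
      rw [← mul_pow]
      congr 1
      ring
    have e5 : ((1 : ℝ) / 2) ^ Y.card * 2 ^ Y.card = 1 := by
      rw [← mul_pow]
      norm_num
    have e6 : 2 * (1 / 2) ^ T.card * ((8 * p) ^ Y.card * (1 - p) ^ (T.card - Y.card)) =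
        p ^ Y.card * ((1 - p) ^ (T.card - Y.card) * (1 / 2) ^ (T.card - Y.card)) *
          (2 ^ Y.card * (2 * 2 ^ Y.card)) := by
      rw [e2, e3]
      calc _ = ((1 / 2) ^ Y.card * 2 ^ Y.card) * (p ^ Y.card * ((1 - p) ^ (T.card - Y.card) *
            (1 / 2) ^ (T.card - Y.card)) * (2 ^ Y.card * (2 * 2 ^ Y.card))) := by ring
        _ = _ := by rw [e5, one_mul]
    rw [e6, e4]
    refine mul_le_mul_of_nonneg_left ?_ (by positivity)
    refine mul_le_mul_of_nonneg_left ?_ (by positivity)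
    linarith
  refine (sum_le_sum h1).trans ?_
  rw [← Finset.mul_sum]
  have h2 : ∑ Y ∈ T.powerset.erase ∅, (8 * p) ^ Y.card * (1 - p) ^ (T.card - Y.card) =
      (1 + 7 * p) ^ T.card - (1 - p) ^ T.card := by
    have h3 := Finset.sum_pow_mul_eq_add_pow (8 * p) (1 - p) T
    rw [← Finset.sum_erase_add _ _ (mem_powerset.2 (empty_subset T))] at h3
    rw [card_empty, pow_zero, one_mul, Nat.sub_zero] at h3
    have h4 : 8 * p + (1 - p) = 1 + 7 * p := by ring
    rw [h4] at h3
    linarith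
  rw [h2]
  have h5 : (1 + 7 * p) ^ T.card ≤ 1.42 := by
    refine le_trans ?_ exp_num
    calc (1 + 7 * p) ^ T.card ≤ Real.exp (7 * p) ^ T.card := by
          refine pow_le_pow_left₀ (by linarith) ?_ _
          linarith [Real.add_one_le_exp (7 * p)]
      _ = Real.exp (T.card * (7 * p)) := (Real.exp_nat_mul _ _).symm
      _ ≤ Real.exp (7 / 20) := Real.exp_le_exp.2 (by nlinarith)
  have h6 : 19 / 20 ≤ (1 - p) ^ T.card := by
    have h7 := one_add_mul_le_pow (a := -p) (by linarith) T.card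
    have h8 : 1 + -p = 1 - p := by ring
    rw [h8] at h7
    linarith
  have h9 : (0 : ℝ) < (1 / 2) ^ T.card := by positivity
  nlinarith

end Pool.Agent.MP_ca1109_lc.Dnf
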