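import Pool.Agent.MP_ca1109_lc.Dnf.C1a

/-!
# Read-bounded DNFs: the switching lemma in generating form
-/

namespace Pool.Agent.MP_ca1109_lc.Dnf

open Finset

variable {n N : ℕ}

/-- The predicate is preserved if more bits are fixed. -/
def Mon (φ : Part n → Prop) : Prop :=
  ∀ ρ ρ' : Part n, (∀ i, ρ i ≠ none → ρ' i = ρ i) → φ ρ → φ ρ'

theorem ovr_none {ρ c : Part n} {i : Fin n} (h : c i = none) : ovr ρ c i = ρ i := by
  simp [ovr, h]

theorem ovr_some {ρ c : Part n} {i : Fin n} {b : Bool} (h : c i = some b) : ovr ρ c i = some b := by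
  simp [ovr, h]

theorem res_mem {R : Finset (Fin n)} {y : Cube n} {i : Fin n} (h : i ∈ R) : res R y i = none := by
  simp [res, h]

theorem res_not_mem {R : Finset (Fin n)} {y : Cube n} {i : Fin n} (h : i ∉ R) :
    res R y i = some (y i) := by
  simp [res, h]

theorem Er_E (p : ℝ) (h : Cube n → ℝ) : Er p (fun _ y => h y) = E h := by
  have h1 := Er_const (n := n) p 1
  unfold Er at h1 ⊢
  simp only [E_const, mul_one] at h1
  rw [← Finset.sum_mul, h1, one_mul]

theorem ovr_congr {R R' T : Finset (Fin n)} {y y' : Cube n} {X : Part n} (hX : ∀ i ∈ T, X i ≠ none)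
    (hR : R ∩ Tᶜ = R' ∩ Tᶜ) (hy : ∀ i ∈ Tᶜ, y i = y' i) : ovr (res R y) X = ovr (res R' y') X := by
  funext i
  cases hXi : X i with
  | some b => rw [ovr_some hXi, ovr_some hXi]
  | none =>
    rw [ovr_none hXi, ovr_none hXi]
    have hi : i ∈ Tᶜ := Finset.mem_compl.2 fun h => hX i h hXi
    have hiff : i ∈ R ↔ i ∈ R' := by
      have h1 : i ∈ R ∩ Tᶜ ↔ i ∈ R' ∩ Tᶜ := by rw [hR]
      simpa [Finset.mem_inter, hi] using h1
    by_cases h : i ∈ R
    · rw [res_mem h, res_mem (hiff.1 h)]
    · rw [res_not_mem h, res_not_mem (fun h' => h (hiff.2 h')), hy i hi]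

theorem pow_sup_le (Y : Finset (Fin n)) (D : Part n → ℕ) :
    (2 : ℝ) ^ (univ.sup fun b : Cube n => D fun i => if i ∈ Y then some (b i) else none) ≤
      1 + ∑ B ∈ Y.powerset, ((2 : ℝ) ^ (D fun i => if i ∈ Y then some (decide (i ∈ B)) else none) - 1) := by
  obtain ⟨b, -, hb⟩ := Finset.exists_mem_eq_sup (univ : Finset (Cube n)) univ_nonempty
    (fun b : Cube n => D fun i => if i ∈ Y then some (b i) else none)
  rw [hb]
  have hB : Y.filter (fun i => b i = true) ∈ Y.powerset := Finset.mem_powerset.2 (filter_subset _ _)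
  have heq : (fun i => if i ∈ Y then some (b i) else none : Part n) =
      fun i => if i ∈ Y then some (decide (i ∈ Y.filter (fun i => b i = true))) else none := by
    funext i
    by_cases hi : i ∈ Y
    · simp [hi]
    · simp [hi]
  have h1 : (2 : ℝ) ^ (D fun i => if i ∈ Y then some (b i) else none) - 1 ≤
      ∑ B ∈ Y.powerset, ((2 : ℝ) ^ (D fun i => if i ∈ Y then some (decide (i ∈ B)) else none) - 1) := by
    rw [heq]
    exact Finset.single_le_sum
      (f := fun B => (2 : ℝ) ^ (D fun i => if i ∈ Y then some (decide (i ∈ B)) else none) - 1)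
      (fun B _ => sub_nonneg.2 (one_le_pow₀ one_le_two)) hB
  linarith

/-- The step of the induction: one term. -/
theorem switch_pt (t : Term n) (F : List (Term n)) (φ : Part n → Prop) (hφ : Mon φ) (c : Part n)
    (R : Finset (Fin n)) (y : Cube n) :
    one (φ (res R y)) * ((2 : ℝ) ^ dep (t :: F) (ovr (res R y) c) - 1) ≤
      one (φ (res R y) ∧ t.Fals (ovr (res R y) c)) * ((2 : ℝ) ^ dep F (ovr (res R y) c) - 1) +
      ∑ Y ∈ (t.fr c).powerset.erase ∅, one (R ∩ t.fr c = Y ∧ ∀ i ∈ t.fr c \ Y, y i = t.a i) *
        (one (φ (ovr (res R y) fun i => if i ∈ t.fr c then some (t.a i) else none)) *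
          (2 ^ Y.card * (1 + ∑ B ∈ Y.powerset, ((2 : ℝ) ^ dep F (ovr (res R y) fun i =>
            if i ∈ Y then some (decide (i ∈ B)) else if i ∈ t.fr c then some (t.a i) else c i) - 1)))) := by
  classical
  have hp : ∀ m : ℕ, (0 : ℝ) ≤ 2 ^ m - 1 := fun m => sub_nonneg.2 (one_le_pow₀ one_le_two)
  have hG : ∀ Y : Finset (Fin n), 0 ≤ one (R ∩ t.fr c = Y ∧ ∀ i ∈ t.fr c \ Y, y i = t.a i) *
        (one (φ (ovr (res R y) fun i => if i ∈ t.fr c then some (t.a i) else none)) *
          (2 ^ Y.card * (1 + ∑ B ∈ Y.powerset, ((2 : ℝ) ^ dep F (ovr (res R y) fun i =>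
            if i ∈ Y then some (decide (i ∈ B)) else if i ∈ t.fr c then some (t.a i) else c i) - 1)))) := by
    intro Y
    refine mul_nonneg (one_nonneg _) (mul_nonneg (one_nonneg _) (mul_nonneg (by positivity) ?_))
    exact add_nonneg zero_le_one (Finset.sum_nonneg fun B _ => hp _)
  have hsum := Finset.sum_nonneg (s := (t.fr c).powerset.erase ∅) fun Y _ => hG Y
  have hfirst : 0 ≤ one (φ (res R y) ∧ t.Fals (ovr (res R y) c)) *
      ((2 : ℝ) ^ dep F (ovr (res R y) c) - 1) := mul_nonneg (one_nonneg _) (hp _)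
  by_cases hφρ : φ (res R y)
  swap
  · rw [one_false hφρ, zero_mul]
    linarith
  rw [one_true hφρ, one_mul]
  by_cases hfals : t.Fals (ovr (res R y) c)
  · have hdep : dep (t :: F) (ovr (res R y) c) = dep F (ovr (res R y) c) := by
      rw [dep, if_pos hfals]
    rw [hdep, one_true ⟨hφρ, hfals⟩, one_mul]
    linarith
  have hfr : t.fr (ovr (res R y) c) = R ∩ t.fr c := by
    ext i
    simp only [Term.fr, Finset.mem_filter, Finset.mem_inter]
    cases hci : c i with
    | some b => simp [ovr_some hci]
    | none =>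
      rw [ovr_none hci]
      by_cases hi : i ∈ R
      · simp [res_mem hi, hi]
      · simp [res_not_mem hi, hi]
  by_cases hY : t.fr (ovr (res R y) c) = ∅
  · have hdep : dep (t :: F) (ovr (res R y) c) = 0 := by
      rw [dep, if_neg hfals, if_pos hY]
    rw [hdep, pow_zero, sub_self]
    linarith
  have hYne : R ∩ t.fr c ≠ ∅ := by rwa [hfr] at hY
  have hmem : R ∩ t.fr c ∈ (t.fr c).powerset.erase ∅ :=
    Finset.mem_erase.2 ⟨hYne, Finset.mem_powerset.2 Finset.inter_subset_right⟩
  have hagree : ∀ i ∈ t.fr c \ (R ∩ t.fr c), y i = t.a i := by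
    intro i hi
    rw [Finset.mem_sdiff, Finset.mem_inter] at hi
    obtain ⟨h1, h2⟩ := hi
    have hiR : i ∉ R := fun h => h2 ⟨h, h1⟩
    have hi1 := Finset.mem_filter.1 h1
    by_contra hne
    refine hfals ⟨i, hi1.1, ?_⟩
    rw [ovr_none hi1.2, res_not_mem hiR]
    cases hy : y i <;> cases ha : t.a i <;> simp_all
  have hterm := Finset.single_le_sum (f := fun Y =>
      one (R ∩ t.fr c = Y ∧ ∀ i ∈ t.fr c \ Y, y i = t.a i) *
        (one (φ (ovr (res R y) fun i => if i ∈ t.fr c then some (t.a i) else none)) *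
          (2 ^ Y.card * (1 + ∑ B ∈ Y.powerset, ((2 : ℝ) ^ dep F (ovr (res R y) fun i =>
            if i ∈ Y then some (decide (i ∈ B)) else if i ∈ t.fr c then some (t.a i) else c i) - 1)))))
    (fun Y _ => hG Y) hmem
  refine le_trans ?_ (le_add_of_nonneg_left hfirst |>.trans (add_le_add_right hterm _))
  have hφt : φ (ovr (res R y) fun i => if i ∈ t.fr c then some (t.a i) else none) := by
    refine hφ _ _ (fun i hi => ?_) hφρ
    have hiR : i ∉ R := fun h => hi (res_mem h)
    by_cases hiT : i ∈ t.fr c
    · have h1 : (fun i => if i ∈ t.fr c then some (t.a i) else none : Part n) i = some (t.a i) := by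
        simp [hiT]
      rw [ovr_some h1, res_not_mem hiR, hagree i (by
        rw [Finset.mem_sdiff, Finset.mem_inter]
        exact ⟨hiT, fun h => hiR h.1⟩)]
    · have h1 : (fun i => if i ∈ t.fr c then some (t.a i) else none : Part n) i = none := by
        simp [hiT]
      rw [ovr_none h1]
  have hone : one (R ∩ t.fr c = R ∩ t.fr c ∧ ∀ i ∈ t.fr c \ (R ∩ t.fr c), y i = t.a i) = 1 :=
    one_true ⟨rfl, hagree⟩
  rw [hone, one_true hφt, one_mul, one_mul]
  have hdep : dep (t :: F) (ovr (res R y) c) = (R ∩ t.fr c).card +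
      univ.sup fun b : Cube n => dep F (ovr (ovr (res R y) c)
        fun i => if i ∈ R ∩ t.fr c then some (b i) else none) := by
    rw [dep, if_neg hfals, if_neg hY]
    simp only [hfr]
  rw [hdep, pow_add]
  have hsup := pow_sup_le (R ∩ t.fr c) (fun b => dep F (ovr (ovr (res R y) c) b))
  have hctx : ∀ B : Finset (Fin n), ovr (ovr (res R y) c)
      (fun i => if i ∈ R ∩ t.fr c then some (decide (i ∈ B)) else none) =
      ovr (res R y) fun i => if i ∈ R ∩ t.fr c then some (decide (i ∈ B)) else
        if i ∈ t.fr c then some (t.a i) else c i := by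
    intro B
    funext i
    by_cases hiY : i ∈ R ∩ t.fr c
    · rw [ovr_some (b := decide (i ∈ B)) (by simp only [hiY, if_true]),
        ovr_some (b := decide (i ∈ B)) (by simp only [hiY, if_true])]
    · rw [ovr_none (c := fun i => if i ∈ R ∩ t.fr c then some (decide (i ∈ B)) else none)
        (by simp only [hiY, if_false])]
      by_cases hiT : i ∈ t.fr c
      · have hiR : i ∉ R := fun h => hiY (Finset.mem_inter.2 ⟨h, hiT⟩)
        rw [ovr_none (Finset.mem_filter.1 hiT).2, res_not_mem hiR,
          ovr_some (b := t.a i) (by simp only [hiY, hiT, if_true, if_false]),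
          hagree i (Finset.mem_sdiff.2 ⟨hiT, hiY⟩)]
      · cases hci : c i with
        | some b =>
          rw [ovr_some hci, ovr_some (b := b) (by simp only [hiY, hiT, if_false, hci])]
        | none =>
          rw [ovr_none hci, ovr_none (by simp only [hiY, hiT, if_false, hci])]
  simp only [hctx] at hsup
  have h2 : (1 : ℝ) ≤ 2 ^ (R ∩ t.fr c).card := one_le_pow₀ one_le_two
  have h3 := mul_le_mul_of_nonneg_left hsup (by positivity : (0 : ℝ) ≤ 2 ^ (R ∩ t.fr c).card)
  linarith

theorem switch (w : ℕ) (p : ℝ) (hp : 0 ≤ p) (hpw : 20 * w * p ≤ 1) (hp1 : p ≤ 1)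
    (F : List (Term n)) (hF : ∀ t ∈ F, t.S.card ≤ w) (φ : Part n → Prop) (hφ : Mon φ) (c : Part n) :
    Er p (fun R y => one (φ (res R y)) * (2 ^ dep F (ovr (res R y) c) - 1)) ≤
      E (fun y => one (φ (fun i => some (y i)) ∧ Or F (fil c y))) := by
  classical
  induction F generalizing φ c with
  | nil =>
    have h0 : (fun (R : Finset (Fin n)) (y : Cube n) => one (φ (res R y)) *
        ((2 : ℝ) ^ dep [] (ovr (res R y) c) - 1)) = fun _ _ => 0 := by
      funext R y
      simp [dep]
    rw [h0, Er_const]
    exact E_nonneg fun _ => one_nonneg _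
  | cons t F ih =>
    have ihF := ih (fun s hs => hF s (List.mem_cons_of_mem _ hs))
    have htw : t.S.card ≤ w := hF t List.mem_cons_self
    by_cases hc : t.Fals c
    · have hdep : ∀ ρ, dep (t :: F) (ovr ρ c) = dep F (ovr ρ c) := by
        intro ρ
        obtain ⟨i, hi, hci⟩ := hc
        have h1 : t.Fals (ovr ρ c) := ⟨i, hi, ovr_some hci⟩
        rw [dep, if_pos h1]
      simp only [hdep]
      refine (ihF φ hφ c).trans (E_mono fun y => one_mono ?_)
      rintro ⟨h1, s, hs, h2⟩
      exact ⟨h1, s, List.mem_cons_of_mem _ hs, h2⟩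
    -- the context does not falsify `t`
    obtain ⟨T, hT⟩ : ∃ T, T = t.fr c := ⟨_, rfl⟩
    have hTw : T.card ≤ w := by
      rw [hT]
      exact (Finset.card_le_card (Finset.filter_subset _ _)).trans htw
    obtain ⟨Ta, hTa⟩ : ∃ Ta : Part n, Ta = fun i => if i ∈ T then some (t.a i) else none := ⟨_, rfl⟩
    obtain ⟨φt, hφtdef⟩ : ∃ φt : Part n → Prop, φt = fun ρ => φ (ovr ρ Ta) := ⟨_, rfl⟩
    have hφt : Mon φt := by
      rw [hφtdef]
      intro ρ ρ' h h1
      refine hφ _ _ (fun i hi => ?_) h1
      cases hTi : Ta i with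
      | some b => rw [ovr_some hTi, ovr_some hTi]
      | none =>
        rw [ovr_none hTi] at hi
        rw [ovr_none hTi, ovr_none hTi]
        exact h i hi
    obtain ⟨q, hq⟩ : ∃ q : ℝ, q = E (fun y : Cube n => one (φt fun i => some (y i))) := ⟨_, rfl⟩
    have hq0 : 0 ≤ q := by
      rw [hq]
      exact E_nonneg fun _ => one_nonneg _
    obtain ⟨cc, hcc⟩ : ∃ cc : Finset (Fin n) → Finset (Fin n) → Part n, cc = fun Y B i =>
        if i ∈ Y then some (decide (i ∈ B)) else if i ∈ T then some (t.a i) else c i := ⟨_, rfl⟩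
    obtain ⟨G, hG⟩ : ∃ G : Finset (Fin n) → Finset (Fin n) → Cube n → ℝ, G = fun Y R y =>
        one (φt (res R y)) * (2 ^ Y.card *
          (1 + ∑ B ∈ Y.powerset, ((2 : ℝ) ^ dep F (ovr (res R y) (cc Y B)) - 1))) := ⟨_, rfl⟩
    have hpt : ∀ (R : Finset (Fin n)) (y : Cube n),
        one (φ (res R y)) * ((2 : ℝ) ^ dep (t :: F) (ovr (res R y) c) - 1) ≤
        one (φ (res R y) ∧ t.Fals (ovr (res R y) c)) * ((2 : ℝ) ^ dep F (ovr (res R y) c) - 1) +
        ∑ Y ∈ T.powerset.erase ∅, one (R ∩ T = Y ∧ ∀ i ∈ T \ Y, y i = t.a i) * G Y R y := by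
      intro R y
      have := switch_pt t F φ hφ c R y
      rw [hG, hφtdef, hTa, hcc, hT]
      exact this
    have hmono := Er_mono hp hp1 hpt
    rw [Er_add, Er_sum] at hmono
    refine hmono.trans ?_
    -- the first part
    have hA : Er p (fun R y => one (φ (res R y) ∧ t.Fals (ovr (res R y) c)) *
        ((2 : ℝ) ^ dep F (ovr (res R y) c) - 1)) ≤
        E (fun y => one ((φ (fun i => some (y i)) ∧ t.Fals (ovr (fun i => some (y i)) c)) ∧
          Or F (fil c y))) := by
      refine ihF (fun ρ => φ ρ ∧ t.Fals (ovr ρ c)) ?_ c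
      rintro ρ ρ' h ⟨h1, i, hi, h2⟩
      refine ⟨hφ ρ ρ' h h1, i, hi, ?_⟩
      cases hci : c i with
      | some b =>
        rw [ovr_some hci] at h2 ⊢
        exact h2
      | none =>
        rw [ovr_none hci] at h2 ⊢
        rw [h i (by rw [h2]; exact Option.some_ne_none _)]
        exact h2
    -- the second part
    have hEG : ∀ Y, Er p (G Y) ≤ q * (2 ^ Y.card * (1 + 2 ^ Y.card)) := by
      intro Y
      have h1 : (G Y) = fun R y => 2 ^ Y.card * (one (φt (res R y)) + ∑ B ∈ Y.powerset,
          one (φt (res R y)) * ((2 : ℝ) ^ dep F (ovr (res R y) (cc Y B)) - 1)) := by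
        rw [hG]
        funext R y
        rw [← Finset.mul_sum]
        ring
      rw [h1, Er_smul, Er_add, Er_sum]
      have h2 : Er p (fun R y => one (φt (res R y))) ≤ q := by
        rw [hq, ← Er_E p]
        refine Er_mono hp hp1 fun R y => one_mono fun h => hφt _ _ (fun i hi => ?_) h
        have hiR : i ∉ R := fun h' => hi (res_mem h')
        rw [res_not_mem hiR]
      have h3 : ∀ B ∈ Y.powerset, Er p (fun R y => one (φt (res R y)) *
          ((2 : ℝ) ^ dep F (ovr (res R y) (cc Y B)) - 1)) ≤ q := by
        intro B _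
        refine (ihF φt hφt (cc Y B)).trans ?_
        rw [hq]
        exact E_mono fun y => one_mono fun h => h.1
      have h4 := Finset.sum_le_sum h3
      rw [Finset.sum_const, Finset.card_powerset, nsmul_eq_mul] at h4
      push_cast at h4
      calc 2 ^ Y.card * (Er p (fun R y => one (φt (res R y))) + ∑ B ∈ Y.powerset,
            Er p (fun R y => one (φt (res R y)) * ((2 : ℝ) ^ dep F (ovr (res R y) (cc Y B)) - 1)))
          ≤ 2 ^ Y.card * (q + 2 ^ Y.card * q) :=
            mul_le_mul_of_nonneg_left (add_le_add h2 h4) (by positivity)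
        _ = q * (2 ^ Y.card * (1 + 2 ^ Y.card)) := by ring
    have hB : ∑ Y ∈ T.powerset.erase ∅, Er p (fun R y =>
        one (R ∩ T = Y ∧ ∀ i ∈ T \ Y, y i = t.a i) * G Y R y) ≤ q * (1 / 2) ^ T.card := by
      calc ∑ Y ∈ T.powerset.erase ∅, Er p (fun R y =>
            one (R ∩ T = Y ∧ ∀ i ∈ T \ Y, y i = t.a i) * G Y R y)
          ≤ ∑ Y ∈ T.powerset.erase ∅, q * (p ^ Y.card * ((1 - p) / 2) ^ (T.card - Y.card) *
              (2 ^ Y.card * (1 + 2 ^ Y.card))) := by
            refine Finset.sum_le_sum fun Y hY => ?_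
            have hYT : Y ⊆ T := Finset.mem_powerset.1 (Finset.mem_erase.1 hY).2
            have hon : OnR T (fun (R : Finset (Fin n)) (y : Cube n) =>
                one (R ∩ T = Y ∧ ∀ i ∈ T \ Y, y i = t.a i)) := by
              intro R R' y y' hR hy
              have h1 : (R ∩ T = Y ∧ ∀ i ∈ T \ Y, y i = t.a i) =
                  (R' ∩ T = Y ∧ ∀ i ∈ T \ Y, y' i = t.a i) := by
                rw [hR]
                refine propext (and_congr_right fun _ => forall₂_congr fun i hi => ?_)
                rw [hy i (Finset.mem_sdiff.1 hi).1]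
              simp only [h1]
            have honc : OnR Tᶜ (G Y) := by
              intro R R' y y' hR hy
              rw [hG, hφtdef]
              have h1 : ovr (res R y) Ta = ovr (res R' y') Ta := by
                refine ovr_congr (T := T) (fun i hi => ?_) hR hy
                rw [hTa]
                simp [hi]
              have h2 : ∀ B, ovr (res R y) (cc Y B) = ovr (res R' y') (cc Y B) := by
                intro B
                refine ovr_congr (T := T) (fun i hi => ?_) hR hy
                rw [hcc]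
                by_cases hiY : i ∈ Y
                · simp [hiY]
                · simp [hiY, hi]
              simp only [h1, h2]
            rw [Er_indep p T hon honc, Er_point p hYT]
            have hw : 0 ≤ p ^ Y.card * ((1 - p) / 2) ^ (T.card - Y.card) := by
              have : 0 ≤ (1 - p) / 2 := by linarith
              positivity
            calc p ^ Y.card * ((1 - p) / 2) ^ (T.card - Y.card) * Er p (G Y)
                ≤ p ^ Y.card * ((1 - p) / 2) ^ (T.card - Y.card) *
                  (q * (2 ^ Y.card * (1 + 2 ^ Y.card))) := mul_le_mul_of_nonneg_left (hEG Y) hw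
              _ = _ := by ring
        _ = q * ∑ Y ∈ T.powerset.erase ∅, p ^ Y.card * ((1 - p) / 2) ^ (T.card - Y.card) *
              (2 ^ Y.card * (1 + 2 ^ Y.card)) := by rw [Finset.mul_sum]
        _ ≤ q * (1 / 2) ^ T.card :=
            mul_le_mul_of_nonneg_left (numeric w p hp hpw hp1 T hTw) hq0
    have hcT : ∀ i ∈ t.S, i ∉ T → c i = some (t.a i) := by
      intro i hi hiT
      cases hci : c i with
      | none =>
        exfalso
        apply hiT
        rw [hT]
        exact Finset.mem_filter.2 ⟨hi, hci⟩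
      | some b =>
        have h1 : b ≠ !(t.a i) := fun h => hc ⟨i, hi, by rw [hci, h]⟩
        cases b <;> cases ha : t.a i <;> simp_all
    have hC : q * (1 / 2) ^ T.card ≤
        E (fun y => one (φ (fun i => some (y i)) ∧ t.Sat (fil c y))) := by
      have h1 := E_term (⟨T, t.a⟩ : Term n)
      have h2 := E_indep (A := T) (B := Tᶜ) disjoint_compl_right
        (f := (⟨T, t.a⟩ : Term n).f) (g := fun y : Cube n => one (φt fun i => some (y i)))
        (on_term (⟨T, t.a⟩ : Term n)) (by
          intro x y hxy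
          have h3 : ovr (fun i => some (x i)) Ta = ovr (fun i => some (y i)) Ta := by
            funext i
            cases hTi : Ta i with
            | some b => rw [ovr_some hTi, ovr_some hTi]
            | none =>
              rw [ovr_none hTi, ovr_none hTi]
              have hiT : i ∈ Tᶜ := by
                rw [Finset.mem_compl]
                intro h
                rw [hTa] at hTi
                simp [h] at hTi
              rw [hxy i hiT]
          simp only [hφtdef, h3])
      rw [h1, ← hq] at h2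
      rw [mul_comm]
      have h3 : (1 / 2 : ℝ) ^ T.card * q = (1 / 2 : ℝ) ^ (⟨T, t.a⟩ : Term n).S.card * q := rfl
      rw [h3, ← h2]
      refine E_mono fun y => ?_
      by_cases hs : (⟨T, t.a⟩ : Term n).Sat y
      · have h4 : (⟨T, t.a⟩ : Term n).f y = 1 := one_true hs
        rw [h4, one_mul]
        refine one_mono fun h => ?_
        have hs' : ∀ i ∈ T, y i = t.a i := hs
        rw [hφtdef] at h
        have h5 : ovr (fun i => some (y i)) Ta = fun i => some (y i) := by
          funext i
          cases hTi : Ta i with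
          | none => rw [ovr_none hTi]
          | some b =>
            rw [ovr_some hTi]
            rw [hTa] at hTi
            by_cases hiT : i ∈ T
            · simp only [hiT, if_true, Option.some.injEq] at hTi
              rw [hs' i hiT, hTi]
            · simp [hiT] at hTi
        refine ⟨by simpa only [h5] using h, fun i hi => ?_⟩
        by_cases hiT : i ∈ T
        · have hci : c i = none := by
            rw [hT] at hiT
            exact (Finset.mem_filter.1 hiT).2
          simp [fil, hci, hs' i hiT]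
        · simp [fil, hcT i hi hiT]
      · have h4 : (⟨T, t.a⟩ : Term n).f y = 0 := one_false hs
        rw [h4, zero_mul]
        exact one_nonneg _
    refine (add_le_add hA (hB.trans hC)).trans ?_
    rw [← E_add]
    refine E_mono fun y => ?_
    by_cases hs : t.Sat (fil c y)
    · have hnf : ¬ t.Fals (ovr (fun i => some (y i)) c) := by
        rintro ⟨i, hi, h⟩
        have h1 := hs i hi
        cases hci : c i with
        | some b =>
          rw [ovr_some hci] at h
          simp only [fil, hci, Option.getD_some] at h1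
          rw [h1] at h
          simp at h
        | none =>
          rw [ovr_none hci] at h
          simp only [fil, hci, Option.getD_none] at h1
          rw [h1] at h
          simp at h
      rw [one_false (fun h => hnf h.1.2), zero_add]
      exact one_mono fun h => ⟨h.1, t, List.mem_cons_self, h.2⟩
    · rw [one_false (p := φ (fun i => some (y i)) ∧ t.Sat (fil c y)) (fun h => hs h.2), add_zero]
      refine one_mono ?_
      rintro ⟨⟨h1, -⟩, s, hs1, h2⟩
      exact ⟨h1, s, List.mem_cons_of_mem _ hs1, h2⟩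

theorem switching (w : ℕ) (p : ℝ) (hp : 0 ≤ p) (hpw : 20 * w * p ≤ 1) (hp1 : p ≤ 1)
    (F : List (Term n)) (hF : ∀ t ∈ F, t.S.card ≤ w) :
    Er p (fun R y => (2 : ℝ) ^ dep F (res R y)) ≤ 2 := by
  have h1 := switch w p hp hpw hp1 F hF (fun _ => True) (fun _ _ _ _ => trivial) (fun _ => none)
  have hov : ∀ ρ : Part n, ovr ρ (fun _ => none) = ρ := fun ρ => by
    funext i
    exact ovr_none rfl
  simp only [hov, one_true trivial, one_mul] at h1
  have h2 : E (fun y : Cube n => one (True ∧ Or F (fil (fun _ => none) y))) ≤ 1 := by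
    rw [← E_const (n := n) 1]
    exact E_mono fun y => one_le _
  have h3 : Er p (fun R y => (2 : ℝ) ^ dep F (res R y)) =
      Er p (fun R y => ((2 : ℝ) ^ dep F (res R y) - 1) + 1) := by
    congr 1
    funext R y
    ring
  rw [h3, Er_add p (fun R y => (2 : ℝ) ^ dep F (res R y) - 1) (fun _ _ => 1), Er_const]
  linarith

end Pool.Agent.MP_ca1109_lc.Dnf
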