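import Pool.Agent.MP_ca1109_lc.Dnf.B3

/-!
# Read-bounded DNFs: the depth bounds the degree and the spectral norm
-/

namespace Pool.Agent.MP_ca1109_lc.Dnf

open Finset

variable {n N : ℕ}

/-- `f` has degree at most `d` and spectral norm at most `M`. -/
def Cls (d : ℕ) (M : ℝ) (f : Cube n → ℝ) : Prop := L1 f ≤ M ∧ ∀ S : Finset (Fin n), d < S.card → fc f S = 0

theorem Cls.mono {d d' : ℕ} {M M' : ℝ} {f : Cube n → ℝ} (h : Cls d M f) (hd : d ≤ d')
    (hM : M ≤ M') : Cls d' M' f := ⟨h.1.trans hM, fun S hS => h.2 S (by omega)⟩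

theorem Cls.one : Cls (n := n) 0 1 fun _ => (1 : ℝ) := by
  refine ⟨by rw [L1_const, abs_one], fun S hS => ?_⟩
  have h1 : (fun _ : Cube n => (1 : ℝ)) = ch ∅ := by
    funext x; rw [ch_empty]
  rw [h1, fc_ch, if_neg]
  rintro rfl
  simp at hS

theorem Cls.term (t : Term n) : Cls t.S.card 1 t.f := by
  refine ⟨L1_term t, fun S hS => ?_⟩
  have h1 : t.f = fun x => ∑ T ∈ t.S.powerset, ((1 / 2 : ℝ) ^ t.S.card * ch T t.a) * ch T x := by
    funext x; rw [term_expand]
  rw [h1, fc_sum]
  refine sum_eq_zero fun T hT => ?_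
  rw [fc_smul]
  have h2 : fc (fun x : Cube n => ch T x) S = 0 := by
    have h3 := fc_ch T S
    rw [if_neg] at h3
    · exact h3
    · rintro rfl
      exact absurd (card_le_card (mem_powerset.1 hT)) (by omega)
  rw [h2, mul_zero]

theorem Cls.sum {ι : Type*} (s : Finset ι) {d : ℕ} {M : ι → ℝ} {f : ι → Cube n → ℝ}
    (h : ∀ i ∈ s, Cls d (M i) (f i)) : Cls d (∑ i ∈ s, M i) fun x => ∑ i ∈ s, f i x := by
  refine ⟨(L1_sum s f).trans (sum_le_sum fun i hi => (h i hi).1), fun S hS => ?_⟩
  rw [fc_sum]
  exact sum_eq_zero fun i hi => (h i hi).2 S hS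

theorem symm_card (S T : Finset (Fin n)) : (symmDiff S T).card ≤ S.card + T.card := by
  refine (card_le_card (fun i hi => ?_ : symmDiff S T ⊆ S ∪ T)).trans (card_union_le S T)
  rw [mem_union]
  rcases Finset.mem_symmDiff.1 hi with h | h
  · exact Or.inl h.1
  · exact Or.inr h.1

theorem Cls.mul {d d' : ℕ} {M M' : ℝ} {f g : Cube n → ℝ} (hf : Cls d M f) (hg : Cls d' M' g) :
    Cls (d + d') (M * M') fun x => f x * g x := by
  have hM : 0 ≤ M := (L1_nonneg f).trans hf.1
  refine ⟨(L1_mul f g).trans (mul_le_mul hf.1 hg.1 (L1_nonneg g) hM), fun U hU => ?_⟩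
  have h1 : (fun x => f x * g x) = fun x => ∑ S : Finset (Fin n), ∑ T : Finset (Fin n),
      (fc f S * fc g T) * ch (symmDiff S T) x := by
    funext x
    conv_lhs => rw [inversion f x, inversion g x]
    rw [Finset.sum_mul_sum]
    refine sum_congr rfl fun S _ => sum_congr rfl fun T _ => ?_
    rw [← ch_mul]
    ring
  rw [h1, fc_sum]
  refine sum_eq_zero fun S _ => ?_
  rw [fc_sum]
  refine sum_eq_zero fun T _ => ?_
  rw [fc_smul]
  by_cases hS : d < S.card
  · rw [hf.2 S hS, zero_mul, zero_mul]
  by_cases hT : d' < T.card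
  · rw [hg.2 T hT, mul_zero, zero_mul]
  have h2 : fc (fun x : Cube n => ch (symmDiff S T) x) U = 0 := by
    have h3 := fc_ch (symmDiff S T) U
    rw [if_neg] at h3
    · exact h3
    · rintro rfl
      have := symm_card S T
      omega
  rw [h2, mul_zero]

/-- The assignment on `Y` given by the subset `s`. -/
def pat (Y s : Finset (Fin n)) : Part n := fun i => if i ∈ Y then some (decide (i ∈ s)) else none

theorem fil_ovr {ρ : Part n} {Y s : Finset (Fin n)} (hY : ∀ i ∈ Y, ρ i = none) {x : Cube n}
    (hx : ∀ i ∈ Y, x i = decide (i ∈ s)) : fil (ovr ρ (pat Y s)) x = fil ρ x := by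
  funext i
  unfold fil ovr pat
  by_cases hi : i ∈ Y
  · rw [if_pos hi, hY i hi, hx i hi]; rfl
  · rw [if_neg hi]; rfl

theorem fals_not {t : Term n} {ρ : Part n} (h : t.Fals ρ) (x : Cube n) : ¬ t.Sat (fil ρ x) := by
  obtain ⟨i, hi, h1⟩ := h
  intro h2
  have h3 := h2 i hi
  unfold fil at h3
  rw [h1] at h3
  simp at h3

theorem or_cons (t : Term n) (F : List (Term n)) (x : Cube n) :
    Or (t :: F) x ↔ t.Sat x ∨ Or F x := by
  unfold Or
  simp

theorem or_fals {t : Term n} {ρ : Part n} (h : t.Fals ρ) (F : List (Term n)) (x : Cube n) :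
    Or (t :: F) (fil ρ x) ↔ Or F (fil ρ x) := by
  rw [or_cons]
  exact ⟨fun h1 => h1.resolve_left (fals_not h x), Or.inr⟩

theorem dep_bound (F : List (Term n)) (ρ : Part n) :
    Cls (dep F ρ) (2 ^ dep F ρ) (fun x => one (Or F (fil ρ x))) := by
  classical
  induction F generalizing ρ with
  | nil =>
    have h1 : (fun x : Cube n => Dnf.one (Or [] (fil ρ x))) = fun _ => 0 := by
      funext x
      refine one_false ?_
      rintro ⟨s, hs, _⟩
      exact absurd hs List.not_mem_nil
    rw [h1]
    unfold dep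
    refine ⟨by rw [L1_const]; norm_num, fun S _ => ?_⟩
    have h2 := fc_smul (n := n) 0 (fun _ => 1) S
    simpa using h2
  | cons t F ih =>
    unfold dep
    by_cases hf : t.Fals ρ
    · rw [if_pos hf]
      have h1 : (fun x : Cube n => Dnf.one (Or (t :: F) (fil ρ x))) =
          fun x => Dnf.one (Or F (fil ρ x)) := by
        funext x
        rw [or_fals hf]
      rw [h1]
      exact ih ρ
    rw [if_neg hf]
    have hfix : ∀ i ∈ t.S, ρ i ≠ none → ρ i = some (t.a i) := by
      intro i hi h1
      obtain ⟨b, hb⟩ := Option.ne_none_iff_exists'.1 h1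
      rw [hb]
      congr 1
      by_contra h2
      refine hf ⟨i, hi, ?_⟩
      rw [hb]
      congr 1
      cases b <;> cases h3 : t.a i <;> simp_all
    by_cases hY : t.fr ρ = ∅
    · rw [if_pos hY]
      have h1 : (fun x : Cube n => Dnf.one (Or (t :: F) (fil ρ x))) = fun _ => 1 := by
        funext x
        refine one_true ((or_cons _ _ _).2 (Or.inl fun i hi => ?_))
        have h2 : ρ i ≠ none := by
          intro h3
          have h4 : i ∈ t.fr ρ := mem_filter.2 ⟨hi, h3⟩
          rw [hY] at h4
          simp at h4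
        unfold fil
        rw [hfix i hi h2]; rfl
      rw [h1, pow_zero]
      exact Cls.one
    rw [if_neg hY]
    obtain ⟨Y, hYd⟩ : ∃ Y, Y = t.fr ρ := ⟨_, rfl⟩
    rw [← hYd]
    have hYn : ∀ i ∈ Y, ρ i = none := fun i hi => by
      rw [hYd] at hi
      exact (mem_filter.1 hi).2
    have hYS : ∀ i ∈ Y, i ∈ t.S := fun i hi => by
      rw [hYd] at hi
      exact (mem_filter.1 hi).1
    obtain ⟨D, hD⟩ : ∃ D, D = univ.sup fun b : Cube n =>
          dep F (ovr ρ fun i => if i ∈ Y then some (b i) else none) := ⟨_, rfl⟩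
    rw [← hD]
    have hdep : ∀ s : Finset (Fin n), dep F (ovr ρ (pat Y s)) ≤ D := by
      intro s
      rw [hD]
      exact le_sup (f := fun b : Cube n =>
        dep F (ovr ρ fun i => if i ∈ Y then some (b i) else none)) (mem_univ fun i => decide (i ∈ s))
    -- the decomposition
    have h1 : (fun x : Cube n => Dnf.one (Or (t :: F) (fil ρ x))) = fun x =>
        ∑ s ∈ Y.powerset, (⟨Y, fun i => decide (i ∈ s)⟩ : Term n).f x *
          Dnf.one (Or (t :: F) (fil (ovr ρ (pat Y s)) x)) := by
      funext x
      have hs0 : Y.filter (fun i => x i = true) ∈ Y.powerset :=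
        mem_powerset.2 (filter_subset _ _)
      have hx0 : ∀ i ∈ Y, x i = decide (i ∈ Y.filter (fun i => x i = true)) := by
        intro i hi
        cases h : x i <;> simp [h, hi]
      rw [sum_eq_single_of_mem _ hs0]
      · have e1 : (⟨Y, fun i => decide (i ∈ Y.filter (fun i => x i = true))⟩ : Term n).f x = 1 :=
          one_true hx0
        rw [e1, one_mul, fil_ovr hYn hx0]
      · intro s hs hne
        have e1 : (⟨Y, fun i => decide (i ∈ s)⟩ : Term n).f x = 0 := by
          refine one_false fun h2 => hne ?_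
          have h2' : ∀ i ∈ Y, x i = decide (i ∈ s) := h2
          ext i
          rw [mem_filter]
          constructor
          · intro his
            have hiY := mem_powerset.1 hs his
            exact ⟨hiY, by rw [h2' i hiY]; simp [his]⟩
          · rintro ⟨hiY, hxi⟩
            rw [h2' i hiY] at hxi
            exact of_decide_eq_true hxi
        rw [e1, zero_mul]
    rw [h1]
    have h2 : ∀ s ∈ Y.powerset, Cls (Y.card + D) (2 ^ D) fun x =>
        (⟨Y, fun i => decide (i ∈ s)⟩ : Term n).f x *
          Dnf.one (Or (t :: F) (fil (ovr ρ (pat Y s)) x)) := by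
      intro s _
      have h3 : Cls D (2 ^ D) fun x : Cube n =>
          Dnf.one (Or (t :: F) (fil (ovr ρ (pat Y s)) x)) := by
        by_cases ha : ∀ i ∈ Y, decide (i ∈ s) = t.a i
        · have h4 : (fun x : Cube n => Dnf.one (Or (t :: F) (fil (ovr ρ (pat Y s)) x))) =
              fun _ => 1 := by
            funext x
            refine one_true ((or_cons _ _ _).2 (Or.inl fun i hi => ?_))
            unfold fil ovr pat
            by_cases hiY : i ∈ Y
            · rw [if_pos hiY, ha i hiY]; rfl
            · rw [if_neg hiY]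
              have h5 : ρ i ≠ none := fun h6 => hiY (by
                rw [hYd]
                exact mem_filter.2 ⟨hi, h6⟩)
              rw [hfix i hi h5]; rfl
          rw [h4]
          exact Cls.one.mono (by omega) (one_le_pow₀ (by norm_num))
        · have hfs : t.Fals (ovr ρ (pat Y s)) := by
            push Not at ha
            obtain ⟨i, hiY, hne⟩ := ha
            refine ⟨i, hYS i hiY, ?_⟩
            unfold ovr pat
            rw [if_pos hiY]
            show some (decide (i ∈ s)) = _
            congr 1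
            cases h6 : decide (i ∈ s) <;> cases h7 : t.a i <;> simp_all
          have h4 : (fun x : Cube n => Dnf.one (Or (t :: F) (fil (ovr ρ (pat Y s)) x))) =
              fun x => Dnf.one (Or F (fil (ovr ρ (pat Y s)) x)) := by
            funext x
            rw [or_fals hfs]
          rw [h4]
          exact (ih (ovr ρ (pat Y s))).mono (hdep s)
            (pow_le_pow_right₀ (by norm_num) (hdep s))
      have h8 := (Cls.term (⟨Y, fun i => decide (i ∈ s)⟩ : Term n)).mul h3
      rw [one_mul] at h8
      exact h8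
    have h3 := Cls.sum Y.powerset h2
    rw [sum_const, card_powerset, nsmul_eq_mul] at h3
    refine h3.mono le_rfl (le_of_eq ?_)
    push_cast
    rw [pow_add]

end Pool.Agent.MP_ca1109_lc.Dnf
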