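import Pool.Agent.MP_ca1109_lc.Dnf.B3

/-!
# Read-bounded DNFs: Walsh coefficients and random restrictions
-/

namespace Pool.Agent.MP_ca1109_lc.Dnf

open Finset

variable {n N : ℕ}

/- ROW C3.  `f_{R,y} x = f (mix R x y)`. -/

theorem c3_weight (p : ℝ) (T : Finset (Fin n)) :
    ∑ R : Finset (Fin n), p ^ R.card * (1 - p) ^ (n - R.card) * (2 : ℝ) ^ (T ∩ R).card =
      (1 + p) ^ T.card := by
  have h := Finset.prod_add (fun i : Fin n => p * (if i ∈ T then (2 : ℝ) else 1))
    (fun _ : Fin n => 1 - p) univ
  have h1 : ∏ i : Fin n, (p * (if i ∈ T then (2 : ℝ) else 1) + (1 - p)) = (1 + p) ^ T.card := by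
    rw [← Finset.prod_subset (Finset.subset_univ T) (f := fun i => p * (if i ∈ T then (2 : ℝ) else 1) + (1 - p))]
    · rw [Finset.prod_congr rfl (g := fun _ => 1 + p), Finset.prod_const]
      intro i hi
      rw [if_pos hi]
      ring
    · intro i _ hi
      rw [if_neg hi]
      ring
  rw [h1] at h
  rw [h, Finset.powerset_univ]
  refine Finset.sum_congr rfl fun R _ => ?_
  rw [Finset.prod_mul_distrib, Finset.prod_const, Finset.prod_const, Finset.card_sdiff_of_subset (Finset.subset_univ R),
    Finset.card_univ, Fintype.card_fin, Finset.prod_ite, Finset.prod_const_one, mul_one,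
    Finset.prod_const, Finset.filter_mem_eq_inter, Finset.inter_comm T R]
  ring

theorem c3_weight1 (p : ℝ) (S : Finset (Fin n)) :
    ∑ R : Finset (Fin n), p ^ R.card * (1 - p) ^ (n - R.card) * (if S ⊆ R then (1 : ℝ) else 0) =
      p ^ S.card := by
  have h := Finset.prod_add (fun _ : Fin n => p)
    (fun i : Fin n => if i ∈ S then (0 : ℝ) else 1 - p) univ
  have h1 : ∏ i : Fin n, (p + if i ∈ S then (0 : ℝ) else 1 - p) = p ^ S.card := by
    rw [← Finset.prod_subset (Finset.subset_univ S) (f := fun i => p + if i ∈ S then (0 : ℝ) else 1 - p)]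
    · rw [Finset.prod_congr rfl (g := fun _ => p), Finset.prod_const]
      intro i hi
      rw [if_pos hi]
      ring
    · intro i _ hi
      rw [if_neg hi]
      ring
  rw [h1] at h
  rw [h, Finset.powerset_univ]
  refine Finset.sum_congr rfl fun R _ => ?_
  rw [Finset.prod_const]
  by_cases hSR : S ⊆ R
  · rw [if_pos hSR, mul_one]
    congr 1
    rw [Finset.prod_congr rfl (g := fun _ => 1 - p), Finset.prod_const,
      Finset.card_sdiff_of_subset (Finset.subset_univ R), Finset.card_univ, Fintype.card_fin]
    intro i hi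
    rw [if_neg]
    intro hiS
    exact (Finset.mem_sdiff.1 hi).2 (hSR hiS)
  · rw [if_neg hSR, mul_zero]
    obtain ⟨i, hiS, hiR⟩ := Finset.not_subset.1 hSR
    rw [Finset.prod_eq_zero (i := i)]
    · rw [mul_zero]
    · exact Finset.mem_sdiff.2 ⟨Finset.mem_univ i, hiR⟩
    · rw [if_pos hiS]

theorem c3_ch_mix (T R : Finset (Fin n)) (x y : Cube n) :
    ch T (mix R x y) = ch (T ∩ R) x * ch (T \ R) y := by
  unfold ch mix
  rw [← Finset.prod_filter_mul_prod_filter_not T (fun i => i ∈ R), Finset.filter_mem_eq_inter,
    Finset.filter_notMem_eq_sdiff]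
  congr 1
  · refine Finset.prod_congr rfl fun i hi => ?_
    rw [if_pos (Finset.mem_inter.1 hi).2]
  · refine Finset.prod_congr rfl fun i hi => ?_
    rw [if_neg (Finset.mem_sdiff.1 hi).2]

theorem c3_fc (f : Cube n → ℝ) (R S : Finset (Fin n)) (y : Cube n) :
    fc (fun x => f (mix R x y)) S =
      ∑ T : Finset (Fin n), (if T ∩ R = S then fc f T else 0) * ch (T \ R) y := by
  have h : (fun x => f (mix R x y)) =
      fun x => ∑ T : Finset (Fin n), (fc f T * ch (T \ R) y) * ch (T ∩ R) x := by
    funext x
    rw [inversion f (mix R x y)]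
    refine Finset.sum_congr rfl fun T _ => ?_
    rw [c3_ch_mix]
    ring
  rw [h, fc_sum]
  refine Finset.sum_congr rfl fun T _ => ?_
  rw [fc_smul]
  have h2 : fc (fun x : Cube n => ch (T ∩ R) x) S = fc (ch (T ∩ R)) S := rfl
  rw [h2, fc_ch]
  split_ifs <;> ring

theorem c3_avg (f : Cube n → ℝ) (R S : Finset (Fin n)) :
    E (fun y => fc (fun x => f (mix R x y)) S) = if S ⊆ R then fc f S else 0 := by
  simp_rw [c3_fc]
  rw [E_sum]
  have h : ∀ T : Finset (Fin n), E (fun y => (if T ∩ R = S then fc f T else 0) * ch (T \ R) y) =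
      if T = S then (if S ⊆ R then fc f S else 0) else 0 := by
    intro T
    rw [E_smul]
    have h2 : E (fun y : Cube n => ch (T \ R) y) = E (ch (T \ R)) := rfl
    rw [h2, E_ch]
    by_cases h3 : T \ R = ∅
    · have h4 : T ⊆ R := Finset.sdiff_eq_empty_iff_subset.1 h3
      rw [if_pos h3, mul_one, Finset.inter_eq_left.2 h4]
      by_cases h5 : T = S
      · subst h5
        rw [if_pos rfl, if_pos rfl, if_pos h4]
      · rw [if_neg h5, if_neg h5]
    · rw [if_neg h3, mul_zero]
      by_cases h5 : T = S
      · subst h5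
        rw [if_pos rfl, if_neg]
        intro h6
        exact h3 (Finset.sdiff_eq_empty_iff_subset.2 h6)
      · rw [if_neg h5]
  rw [Finset.sum_congr rfl fun T _ => h T, Finset.sum_ite_eq' univ S, if_pos (Finset.mem_univ S)]

theorem c3_sq (f : Cube n → ℝ) (R S : Finset (Fin n)) :
    E (fun y => fc (fun x => f (mix R x y)) S ^ 2) =
      ∑ T : Finset (Fin n), if T ∩ R = S then fc f T ^ 2 else 0 := by
  simp_rw [c3_fc]
  have h : ∀ y : Cube n, (∑ T : Finset (Fin n), (if T ∩ R = S then fc f T else 0) * ch (T \ R) y) ^ 2 =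
      ∑ T : Finset (Fin n), ∑ U : Finset (Fin n),
        ((if T ∩ R = S then fc f T else 0) * (if U ∩ R = S then fc f U else 0)) *
          ch (symmDiff (T \ R) (U \ R)) y := by
    intro y
    rw [pow_two, Finset.sum_mul_sum]
    refine Finset.sum_congr rfl fun T _ => Finset.sum_congr rfl fun U _ => ?_
    rw [← ch_mul]
    ring
  simp_rw [h]
  rw [E_sum]
  refine Finset.sum_congr rfl fun T _ => ?_
  rw [E_sum, Finset.sum_eq_single T]
  · rw [E_smul, symmDiff_self]
    have h2 : E (fun y : Cube n => ch (⊥ : Finset (Fin n)) y) = E (ch ∅) := rfl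
    rw [h2, E_ch, if_pos rfl]
    split_ifs <;> ring
  · intro U _ hU
    rw [E_smul]
    by_cases h1 : T ∩ R = S
    · by_cases h2 : U ∩ R = S
      · have h3 : E (fun y : Cube n => ch (symmDiff (T \ R) (U \ R)) y) =
            E (ch (symmDiff (T \ R) (U \ R))) := rfl
        have h4 : ¬ symmDiff (T \ R) (U \ R) = ∅ := by
          intro h4
          have h5 : T \ R = U \ R := symmDiff_eq_bot.1 h4
          apply hU
          rw [← Finset.sdiff_union_inter U R, ← Finset.sdiff_union_inter T R, h5, h1, h2]
        rw [h3, E_ch, if_neg h4, mul_zero]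
      · rw [if_neg h2]
        ring
    · rw [if_neg h1]
      ring
  · intro h
    exact absurd (Finset.mem_univ T) h

theorem four (p : ℝ) (hp : 0 < p) (hp1 : p ≤ 1) (f : Cube n → ℝ) (hf : ∀ x, |f x| ≤ 1)
    (d : Finset (Fin n) → Cube n → ℕ) (hL : ∀ R y, L1 (fun x => f (mix R x y)) ≤ 2 ^ d R y)
    (hd : ∀ R y (S : Finset (Fin n)), d R y < S.card → fc (fun x => f (mix R x y)) S = 0)
    (hE : Er p (fun R y => (2 : ℝ) ^ d R y) ≤ 2) :
    ∑ S : Finset (Fin n), p ^ S.card * |fc f S| ≤ 2 ∧
      ∑ S : Finset (Fin n), (1 + p) ^ S.card * fc f S ^ 2 ≤ 2 := by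
  have hw : ∀ R : Finset (Fin n), 0 ≤ p ^ R.card * (1 - p) ^ (n - R.card) := fun R =>
    mul_nonneg (pow_nonneg hp.le _) (pow_nonneg (by linarith) _)
  constructor
  · refine le_trans ?_ hE
    calc ∑ S : Finset (Fin n), p ^ S.card * |fc f S|
        ≤ ∑ S : Finset (Fin n), ∑ R : Finset (Fin n), p ^ R.card * (1 - p) ^ (n - R.card) *
            E (fun y => |fc (fun x => f (mix R x y)) S|) := by
          refine Finset.sum_le_sum fun S _ => ?_
          rw [← c3_weight1 p S, Finset.sum_mul]
          refine Finset.sum_le_sum fun R _ => ?_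
          rw [mul_assoc]
          refine mul_le_mul_of_nonneg_left ?_ (hw R)
          by_cases hS : S ⊆ R
          · rw [if_pos hS, one_mul]
            have h1 := c3_avg f R S
            rw [if_pos hS] at h1
            rw [← h1, abs_le]
            constructor
            · have h2 : E (fun y => -|fc (fun x => f (mix R x y)) S|) ≤
                  E (fun y => fc (fun x => f (mix R x y)) S) := E_mono fun y => neg_abs_le _
              have h3 : E (fun y => -|fc (fun x => f (mix R x y)) S|) =
                  -E (fun y => |fc (fun x => f (mix R x y)) S|) := by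
                have h4 := E_smul (-1) (fun y => |fc (fun x => f (mix R x y)) S|)
                simpa using h4
              rw [h3] at h2
              exact h2
            · exact E_mono fun y => le_abs_self _
          · rw [if_neg hS, zero_mul]
            exact E_nonneg fun y => abs_nonneg _
      _ = ∑ R : Finset (Fin n), p ^ R.card * (1 - p) ^ (n - R.card) *
            E (fun y => L1 (fun x => f (mix R x y))) := by
          rw [Finset.sum_comm]
          refine Finset.sum_congr rfl fun R _ => ?_
          rw [← Finset.mul_sum, ← E_sum]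
          rfl
      _ ≤ Er p (fun R y => (2 : ℝ) ^ d R y) := by
          unfold Er
          refine Finset.sum_le_sum fun R _ => ?_
          exact mul_le_mul_of_nonneg_left (E_mono fun y => hL R y) (hw R)
  · refine le_trans ?_ hE
    calc ∑ S : Finset (Fin n), (1 + p) ^ S.card * fc f S ^ 2
        = ∑ R : Finset (Fin n), p ^ R.card * (1 - p) ^ (n - R.card) *
            ∑ T : Finset (Fin n), 2 ^ (T ∩ R).card * fc f T ^ 2 := by
          have h1 : ∀ S : Finset (Fin n), (1 + p) ^ S.card * fc f S ^ 2 =
              ∑ R : Finset (Fin n), p ^ R.card * (1 - p) ^ (n - R.card) *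
                (2 ^ (S ∩ R).card * fc f S ^ 2) := by
            intro S
            rw [← c3_weight p S, Finset.sum_mul]
            refine Finset.sum_congr rfl fun R _ => ?_
            ring
          rw [Finset.sum_congr rfl fun S _ => h1 S, Finset.sum_comm]
          refine Finset.sum_congr rfl fun R _ => ?_
          rw [Finset.mul_sum]
      _ ≤ Er p (fun R y => (2 : ℝ) ^ d R y) := by
          unfold Er
          refine Finset.sum_le_sum fun R _ => ?_
          refine mul_le_mul_of_nonneg_left ?_ (hw R)
          have h1 : ∑ T : Finset (Fin n), (2 : ℝ) ^ (T ∩ R).card * fc f T ^ 2 =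
              E (fun y => ∑ S : Finset (Fin n), 2 ^ S.card * fc (fun x => f (mix R x y)) S ^ 2) := by
            rw [E_sum]
            have h2 : ∀ S : Finset (Fin n),
                E (fun y => (2 : ℝ) ^ S.card * fc (fun x => f (mix R x y)) S ^ 2) =
                  ∑ T : Finset (Fin n), if T ∩ R = S then (2 : ℝ) ^ (T ∩ R).card * fc f T ^ 2 else 0 := by
              intro S
              rw [E_smul, c3_sq, Finset.mul_sum]
              refine Finset.sum_congr rfl fun T _ => ?_
              split_ifs with h3
              · rw [h3]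
              · ring
            rw [Finset.sum_congr rfl fun S _ => h2 S, Finset.sum_comm]
            refine Finset.sum_congr rfl fun T _ => ?_
            rw [Finset.sum_ite_eq univ (T ∩ R), if_pos (Finset.mem_univ _)]
          rw [h1]
          refine E_mono fun y => ?_
          calc ∑ S : Finset (Fin n), (2 : ℝ) ^ S.card * fc (fun x => f (mix R x y)) S ^ 2
              ≤ ∑ S : Finset (Fin n), (2 : ℝ) ^ d R y * fc (fun x => f (mix R x y)) S ^ 2 := by
                refine Finset.sum_le_sum fun S _ => ?_
                by_cases hS : d R y < S.card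
                · rw [hd R y S hS]
                  simp
                · refine mul_le_mul_of_nonneg_right ?_ (sq_nonneg _)
                  exact pow_le_pow_right₀ (by norm_num) (not_lt.1 hS)
            _ = 2 ^ d R y * E (fun x => f (mix R x y) ^ 2) := by
                rw [← Finset.mul_sum, parseval]
            _ ≤ 2 ^ d R y * 1 := by
                refine mul_le_mul_of_nonneg_left ?_ (by positivity)
                rw [← E_const (n := n) 1]
                refine E_mono fun x => ?_
                rw [sq_le_one_iff_abs_le_one]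
                exact hf _
            _ = 2 ^ d R y := mul_one _

/-- The part of degree at most `t`. -/
theorem trunc (p : ℝ) (hp : 0 < p) (hp1 : p ≤ 1) (f : Cube n → ℝ)
    (h1 : ∑ S : Finset (Fin n), p ^ S.card * |fc f S| ≤ 2)
    (h2 : ∑ S : Finset (Fin n), (1 + p) ^ S.card * fc f S ^ 2 ≤ 2) (t : ℕ) :
    ∃ g : Cube n → ℝ, E (fun x => (f x - g x) ^ 2) ≤ 2 / (1 + p) ^ t ∧ L1 g ≤ 2 / p ^ t := by
  refine ⟨fun x => ∑ T : Finset (Fin n), (if T.card ≤ t then fc f T else 0) * ch T x, ?_, ?_⟩
  · rw [parseval (fun x => f x - ∑ T : Finset (Fin n), (if T.card ≤ t then fc f T else 0) * ch T x)]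
    rw [le_div_iff₀ (by positivity), Finset.sum_mul]
    refine le_trans (Finset.sum_le_sum fun S _ => ?_) h2
    rw [fc_sub f (fun x => ∑ T : Finset (Fin n), (if T.card ≤ t then fc f T else 0) * ch T x),
      fc_poly (fun T => if T.card ≤ t then fc f T else 0)]
    split_ifs with h
    · rw [sub_self]
      have : 0 ≤ (1 + p) ^ S.card * fc f S ^ 2 := by positivity
      simpa using this
    · rw [sub_zero, mul_comm]
      refine mul_le_mul_of_nonneg_right ?_ (sq_nonneg _)
      exact pow_le_pow_right₀ (by linarith) (by omega)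
  · unfold L1
    rw [le_div_iff₀ (by positivity), Finset.sum_mul]
    refine le_trans (Finset.sum_le_sum fun S _ => ?_) h1
    rw [fc_poly (fun T => if T.card ≤ t then fc f T else 0)]
    split_ifs with h
    · rw [mul_comm]
      refine mul_le_mul_of_nonneg_right ?_ (abs_nonneg _)
      exact pow_le_pow_of_le_one hp.le hp1 h
    · rw [abs_zero, zero_mul]
      positivity

end Pool.Agent.MP_ca1109_lc.Dnf
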