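import Pool.Agent.MP_ca1109_lc.Dnf.C1b
import Pool.Agent.MP_ca1109_lc.Dnf.C2
import Pool.Agent.MP_ca1109_lc.Dnf.C3

/-!
# Read-bounded DNFs: small DNFs have sandwiches of small spectral norm
-/

namespace Pool.Agent.MP_ca1109_lc.Dnf

open Finset

variable {n N : ℕ}

theorem fil_res (R : Finset (Fin n)) (x y : Cube n) : fil (res R y) x = mix R x y := by
  funext i
  unfold fil res mix
  by_cases h : i ∈ R
  · rw [if_pos h, if_pos h]; rfl
  · rw [if_neg h, if_neg h]; rfl

theorem approx (w : ℕ) (hw : 1 ≤ w) (t : ℕ) (F : List (Term n)) (hF : ∀ A ∈ F, A.S.card ≤ w) :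
    ∃ g : Cube n → ℝ, E (fun x => (one (Or F x) - g x) ^ 2) ≤ 2 / (1 + 1 / (20 * w)) ^ t ∧
      L1 g ≤ 2 * (20 * w) ^ t := by
  have hw0 : (1 : ℝ) ≤ w := by exact_mod_cast hw
  obtain ⟨p, hp⟩ : ∃ p : ℝ, p = 1 / (20 * w) := ⟨_, rfl⟩
  have hp0 : 0 < p := by rw [hp]; positivity
  have hp1 : p ≤ 1 := by
    rw [hp, div_le_one (by positivity)]
    linarith
  have hpw : 20 * w * p ≤ 1 := by
    rw [hp, mul_one_div_cancel (by positivity)]
  have hf : ∀ x, |one (Or F x)| ≤ 1 := fun x => by
    rw [abs_of_nonneg (one_nonneg _)]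
    exact one_le _
  have h4 := four p hp0 hp1 (fun x => one (Or F x)) hf (fun R y => dep F (res R y))
    (fun R y => by
      have h := (dep_bound F (res R y)).1
      simp_rw [fil_res] at h
      exact h)
    (fun R y S hS => by
      have h := (dep_bound F (res R y)).2 S hS
      simp_rw [fil_res] at h
      exact h)
    (switching w p hp0.le hpw hp1 F hF)
  obtain ⟨g, hg1, hg2⟩ := trunc p hp0 hp1 (fun x => one (Or F x)) h4.1 h4.2 t
  refine ⟨g, ?_, ?_⟩
  · rw [← hp]
    exact hg1
  · refine hg2.trans (le_of_eq ?_)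
    rw [hp, one_div, inv_pow, div_inv_eq_mul]

/-- The `i`-th term of a list. -/
def tm (F : List (Term n)) (i : ℕ) : Term n := F.getD i ⟨∅, fun _ => false⟩

theorem tm_mem {F : List (Term n)} {i : ℕ} (hi : i < F.length) : tm F i ∈ F := by
  unfold tm
  rw [List.getD_eq_getElem _ _ hi]
  exact List.getElem_mem hi

theorem take_succ {F : List (Term n)} {i : ℕ} (hi : i < F.length) :
    F.take (i + 1) = F.take i ++ [tm F i] := by
  unfold tm
  rw [List.getD_eq_getElem _ _ hi, List.take_succ_eq_append_getElem hi]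

theorem or_append (F : List (Term n)) (t : Term n) (x : Cube n) :
    one (Or (F ++ [t]) x) = one (Or F x) + t.f x * (1 - one (Or F x)) := by
  have h1 : Or (F ++ [t]) x ↔ Or F x ∨ t.Sat x := by
    unfold Or
    constructor
    · rintro ⟨s, hs, h⟩
      rcases List.mem_append.1 hs with h2 | h2
      · exact Or.inl ⟨s, h2, h⟩
      · rw [List.mem_singleton.1 h2] at h
        exact Or.inr h
    · rintro (⟨s, hs, h⟩ | h)
      · exact ⟨s, List.mem_append_left _ hs, h⟩
      · exact ⟨t, List.mem_append_right _ (List.mem_singleton.2 rfl), h⟩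
  unfold Term.f
  by_cases a : Or F x
  · rw [one_true (h1.2 (Or.inl a)), one_true a]; ring
  · by_cases b : t.Sat x
    · rw [one_true (h1.2 (Or.inr b)), one_true b, one_false a]; ring
    · rw [one_false (fun c => (h1.1 c).elim a b), one_false b, one_false a]; ring

theorem or_take (F : List (Term n)) (x : Cube n) : ∀ k, k ≤ F.length →
    one (Or (F.take k) x) =
      ∑ i ∈ range k, (tm F i).f x * (1 - one (Or (F.take i) x)) := by
  intro k
  induction k with
  | zero =>
    intro _
    rw [List.take_zero, range_zero, sum_empty, one_false]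
    rintro ⟨s, hs, _⟩
    exact absurd hs List.not_mem_nil
  | succ k ih =>
    intro hk
    rw [take_succ (by omega), or_append, sum_range_succ, ← ih (by omega)]

theorem or_sum (F : List (Term n)) (x : Cube n) :
    one (Or F x) = ∑ i ∈ range F.length, (tm F i).f x * (1 - one (Or (F.take i) x)) := by
  rw [← or_take F x F.length le_rfl, List.take_length]

theorem tm_zero {F : List (Term n)} {x : Cube n} (h : ¬ Or F x) {i : ℕ} (hi : i < F.length) :
    (tm F i).f x = 0 := one_false fun h1 => h ⟨_, tm_mem hi, h1⟩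

theorem tf_nonneg (t : Term n) (x : Cube n) : 0 ≤ t.f x := one_nonneg _

theorem tf_le (t : Term n) (x : Cube n) : t.f x ≤ 1 := one_le _

theorem take_mem {F : List (Term n)} {i : ℕ} {w : ℕ} (hF : ∀ A ∈ F, A.S.card ≤ w) :
    ∀ A ∈ F.take i, A.S.card ≤ w := fun A hA => hF A (List.mem_of_mem_take hA)

theorem lower (w : ℕ) (hw : 1 ≤ w) (t s : ℕ) (F : List (Term n)) (hs : F.length ≤ s)
    (hF : ∀ A ∈ F, A.S.card ≤ w) :
    ∃ lo : Cube n → ℝ, (∀ x, lo x ≤ one (Or F x)) ∧
      E (fun x => one (Or F x) - lo x) ≤ s ^ 2 * (2 / (1 + 1 / (20 * w)) ^ t) ∧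
      L1 lo ≤ 1 + (1 + s * (1 + 2 * (20 * w) ^ t)) ^ 2 := by
  choose g hg1 hg2 using fun i : ℕ => approx w hw t (F.take i) (take_mem hF)
  have hs' : (F.length : ℝ) ≤ s := by exact_mod_cast hs
  have hη : (0 : ℝ) ≤ 2 / (1 + 1 / (20 * w)) ^ t := by positivity
  obtain ⟨G, hG⟩ : ∃ G : Cube n → ℝ, G = fun x =>
    ∑ i ∈ range F.length, (tm F i).f x * (1 - g i x) := ⟨_, rfl⟩
  have hG0 : ∀ x, ¬ Or F x → G x = 0 := by
    intro x hx
    rw [hG]
    refine sum_eq_zero fun i hi => ?_
    rw [tm_zero hx (mem_range.1 hi), zero_mul]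
  have hGL : L1 G ≤ s * (1 + 2 * (20 * w) ^ t) := by
    rw [hG]
    refine (L1_sum _ _).trans ?_
    calc ∑ i ∈ range F.length, L1 (fun x => (tm F i).f x * (1 - g i x))
        ≤ ∑ _i ∈ range F.length, (1 + 2 * (20 * w : ℝ) ^ t) := by
          refine sum_le_sum fun i _ => ?_
          refine (L1_mul _ _).trans ?_
          calc L1 (fun x => (tm F i).f x) * L1 (fun x => 1 - g i x)
              ≤ 1 * (1 + 2 * (20 * w : ℝ) ^ t) := by
                refine mul_le_mul (L1_term _) ?_ (L1_nonneg _) zero_le_one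
                refine (L1_sub _ _).trans (add_le_add ?_ (hg2 i))
                rw [L1_const, abs_one]
            _ = _ := one_mul _
      _ = F.length * (1 + 2 * (20 * w : ℝ) ^ t) := by
          rw [sum_const, card_range, nsmul_eq_mul]
      _ ≤ _ := by gcongr
  refine ⟨fun x => 1 - (1 - G x) ^ 2, fun x => ?_, ?_, ?_⟩
  · show 1 - (1 - G x) ^ 2 ≤ one (Or F x)
    by_cases h : Or F x
    · rw [one_true h]
      nlinarith [sq_nonneg (1 - G x)]
    · rw [one_false h, hG0 x h]
      norm_num
  · calc E (fun x => one (Or F x) - (1 - (1 - G x) ^ 2))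
        ≤ E (fun x => ∑ i ∈ range F.length,
          (F.length : ℝ) * (one (Or (F.take i) x) - g i x) ^ 2) := by
          refine E_mono fun x => ?_
          have h1 : one (Or F x) - (1 - (1 - G x) ^ 2) ≤ (one (Or F x) - G x) ^ 2 := by
            by_cases h : Or F x
            · rw [one_true h]
              linarith
            · rw [one_false h, hG0 x h]
              norm_num
          refine h1.trans ?_
          have h2 : one (Or F x) - G x =
              ∑ i ∈ range F.length, (tm F i).f x * (g i x - one (Or (F.take i) x)) := by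
            rw [or_sum F x, hG, ← sum_sub_distrib]
            refine sum_congr rfl fun i _ => ?_
            ring
          rw [h2, ← Finset.mul_sum]
          refine (sq_sum_le_card_mul_sum_sq).trans ?_
          rw [card_range]
          refine mul_le_mul_of_nonneg_left (sum_le_sum fun i _ => ?_) (by positivity)
          have h3 := tf_nonneg (tm F i) x
          have h4 := tf_le (tm F i) x
          rw [mul_pow]
          have h5 : (tm F i).f x ^ 2 ≤ 1 := pow_le_one₀ h3 h4
          nlinarith [sq_nonneg (g i x - one (Or (F.take i) x))]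
      _ = ∑ i ∈ range F.length, (F.length : ℝ) *
          E (fun x => (one (Or (F.take i) x) - g i x) ^ 2) := by
          rw [E_sum]
          refine sum_congr rfl fun i _ => ?_
          exact E_smul _ _
      _ ≤ ∑ _i ∈ range F.length, (F.length : ℝ) * (2 / (1 + 1 / (20 * w)) ^ t) := by
          refine sum_le_sum fun i _ => ?_
          exact mul_le_mul_of_nonneg_left (hg1 i) (by positivity)
      _ = (F.length : ℝ) ^ 2 * (2 / (1 + 1 / (20 * w)) ^ t) := by
          rw [sum_const, card_range, nsmul_eq_mul]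
          ring
      _ ≤ _ := by gcongr
  · refine (L1_sub _ _).trans (add_le_add ?_ ?_)
    · rw [L1_const, abs_one]
    · have h1 : (fun x => (1 - G x) ^ 2) = fun x => (1 - G x) * (1 - G x) := by
        funext x; ring
      rw [h1]
      refine (L1_mul _ _).trans ?_
      have h2 : L1 (fun x => 1 - G x) ≤ 1 + s * (1 + 2 * (20 * w : ℝ) ^ t) := by
        refine (L1_sub _ _).trans (add_le_add ?_ hGL)
        rw [L1_const, abs_one]
      rw [pow_two]
      exact mul_le_mul h2 h2 (L1_nonneg _) (by positivity)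

theorem small_dnf (s w t : ℕ) (hw : 1 ≤ w) :
    Small s w (4 * (s + 1) ^ 3 / (1 + 1 / (20 * w)) ^ t) ((8 * (s + 1) * (20 * w) ^ t) ^ 3) := by
  intro n F hs hF
  obtain ⟨lo, hlo1, hlo2, hlo3⟩ := lower w hw t s F hs hF
  choose l hl1 hl2 hl3 using fun i : ℕ => lower w hw t s (F.take i)
    ((List.length_take_le' _ _).trans hs) (take_mem hF)
  · have hw0 : (1 : ℝ) ≤ w := by exact_mod_cast hw
    have hs' : (F.length : ℝ) ≤ s := by exact_mod_cast hs
    have hs0 : (0 : ℝ) ≤ s := by positivity
    obtain ⟨η, hηd⟩ : ∃ η : ℝ, η = 2 / (1 + 1 / (20 * (w : ℝ))) ^ t := ⟨_, rfl⟩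
    obtain ⟨P, hPd⟩ : ∃ P : ℝ, P = (20 * (w : ℝ)) ^ t := ⟨_, rfl⟩
    have hη : 0 ≤ η := by rw [hηd]; positivity
    have hP : 1 ≤ P := by rw [hPd]; exact one_le_pow₀ (by linarith)
    rw [← hηd] at hlo2
    rw [← hPd] at hlo3
    simp_rw [← hηd] at hl2
    simp_rw [← hPd] at hl3
    rw [← hPd]
    have hη4 : 4 * ((s : ℝ) + 1) ^ 3 / (1 + 1 / (20 * (w : ℝ))) ^ t = 2 * (s + 1) ^ 3 * η := by
      rw [hηd]; ring
    rw [hη4]
    obtain ⟨X, hX⟩ : ∃ X : ℝ, X = (s + 1) * P := ⟨_, rfl⟩
    have hX1 : 1 ≤ X := by rw [hX]; nlinarith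
    have hXs : (s : ℝ) ≤ X := by rw [hX]; nlinarith
    have hL : (1 + (s : ℝ) * (1 + 2 * P)) ^ 2 ≤ 9 * X ^ 2 := by
      have h1 : 1 + (s : ℝ) * (1 + 2 * P) ≤ 3 * X := by rw [hX]; nlinarith
      have h2 : 0 ≤ 1 + (s : ℝ) * (1 + 2 * P) := by positivity
      calc (1 + (s : ℝ) * (1 + 2 * P)) ^ 2 ≤ (3 * X) ^ 2 := by gcongr
        _ = 9 * X ^ 2 := by ring
    have hM : (8 * ((s : ℝ) + 1) * P) ^ 3 = 512 * X ^ 3 := by rw [hX]; ring
    rw [hM]
    have hX2 : 1 ≤ X ^ 2 := one_le_pow₀ hX1
    have hX3 : X ^ 2 ≤ X ^ 3 := pow_le_pow_right₀ hX1 (by norm_num)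
    refine ⟨lo, fun x => ∑ i ∈ range F.length, (tm F i).f x * (1 - l i x),
      fun x => ⟨hlo1 x, ?_⟩, ?_, ?_, ?_⟩
    · show one (Or F x) ≤ ∑ i ∈ range F.length, (tm F i).f x * (1 - l i x)
      rw [or_sum F x]
      refine sum_le_sum fun i _ => ?_
      exact mul_le_mul_of_nonneg_left (by linarith [hl1 i x]) (tf_nonneg _ _)
    · have h1 : E (fun x => (∑ i ∈ range F.length, (tm F i).f x * (1 - l i x)) -
          one (Or F x)) ≤ s ^ 3 * η := by
        calc E (fun x => (∑ i ∈ range F.length, (tm F i).f x * (1 - l i x)) - one (Or F x))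
            ≤ E (fun x => ∑ i ∈ range F.length, (one (Or (F.take i) x) - l i x)) := by
              refine E_mono fun x => ?_
              rw [or_sum F x, ← sum_sub_distrib]
              refine sum_le_sum fun i _ => ?_
              have h2 := hl1 i x
              have h3 := tf_nonneg (tm F i) x
              have h4 := tf_le (tm F i) x
              nlinarith
          _ = ∑ i ∈ range F.length, E (fun x => one (Or (F.take i) x) - l i x) := E_sum _ _
          _ ≤ ∑ _i ∈ range F.length, s ^ 2 * η := sum_le_sum fun i _ => hl2 i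
          _ = F.length * (s ^ 2 * η) := by rw [sum_const, card_range, nsmul_eq_mul]
          _ ≤ s * (s ^ 2 * η) := by gcongr
          _ = s ^ 3 * η := by ring
      rw [E_sub] at h1 hlo2
      have h5 : (s : ℝ) ^ 3 * η + s ^ 2 * η ≤ 2 * (s + 1) ^ 3 * η := by
        rw [← add_mul]
        refine mul_le_mul_of_nonneg_right ?_ hη
        nlinarith [pow_nonneg hs0 3, pow_nonneg hs0 2]
      linarith
    · calc L1 lo ≤ 1 + 9 * X ^ 2 := hlo3.trans (by linarith)
        _ ≤ 512 * X ^ 3 := by linarith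
    · refine (L1_sum _ _).trans ?_
      calc ∑ i ∈ range F.length, L1 (fun x => (tm F i).f x * (1 - l i x))
          ≤ ∑ _i ∈ range F.length, (2 + 9 * X ^ 2) := by
            refine sum_le_sum fun i _ => ?_
            refine (L1_mul _ _).trans ?_
            calc L1 (fun x => (tm F i).f x) * L1 (fun x => 1 - l i x)
                ≤ 1 * (2 + 9 * X ^ 2) := by
                  refine mul_le_mul (L1_term _) ?_ (L1_nonneg _) zero_le_one
                  refine (L1_sub _ _).trans ?_
                  rw [L1_const, abs_one]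
                  linarith [hl3 i]
              _ = _ := one_mul _
        _ = F.length * (2 + 9 * X ^ 2) := by rw [sum_const, card_range, nsmul_eq_mul]
        _ ≤ X * (11 * X ^ 2) := by
            refine mul_le_mul (hs'.trans hXs) (by linarith) (by positivity) (by positivity)
        _ ≤ 512 * X ^ 3 := by nlinarith [pow_pos (lt_of_lt_of_le one_pos hX1) 3]

end Pool.Agent.MP_ca1109_lc.Dnf
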