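import Mathlib

/-!
# Read-bounded DNFs: definitions for the analytic part
-/

namespace Pool.Agent.MP_ca1109_lc.Dnf

open Finset

/-- The points of the cube. -/
abbrev Cube (n : ℕ) := Fin n → Bool

variable {n N : ℕ}

/-- The average for the uniform distribution. -/
noncomputable def E (f : Cube n → ℝ) : ℝ := (∑ x, f x) / 2 ^ n

/-- The sign of a bit. -/
def sg (b : Bool) : ℝ := if b then 1 else -1

/-- The Walsh functions. -/
noncomputable def ch (S : Finset (Fin n)) (x : Cube n) : ℝ := ∏ i ∈ S, sg (x i)

/-- The Walsh coefficients. -/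
noncomputable def fc (f : Cube n → ℝ) (S : Finset (Fin n)) : ℝ := E fun x => f x * ch S x

/-- The spectral norm. -/
noncomputable def L1 (f : Cube n → ℝ) : ℝ := ∑ S, |fc f S|

open Classical in
/-- The indicator of a property. -/
noncomputable def one (p : Prop) : ℝ := if p then 1 else 0

/-- The term (conjunction of literals) `⋀_{i ∈ S} (x i = a i)`. -/
structure Term (n : ℕ) where
  S : Finset (Fin n)
  a : Fin n → Bool

/-- The term is satisfied. -/
def Term.Sat (t : Term n) (x : Cube n) : Prop := ∀ i ∈ t.S, x i = t.a i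

/-- The indicator of a term. -/
noncomputable def Term.f (t : Term n) (x : Cube n) : ℝ := one (t.Sat x)

/-- Some term of the list is satisfied. -/
def Or (F : List (Term n)) (x : Cube n) : Prop := ∃ t ∈ F, t.Sat x

/-- `f` has sandwiching functions with error `ε` and spectral norms at most `M`. -/
def Sand (ε M : ℝ) (f : Cube n → ℝ) : Prop :=
  ∃ lo up : Cube n → ℝ, (∀ x, lo x ≤ f x ∧ f x ≤ up x) ∧ E up - E lo ≤ ε ∧ L1 lo ≤ M ∧ L1 up ≤ M

/-- `f` has a lower bound with average at least `1 - δ` and spectral norm at most `M`. -/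
def Big (δ M : ℝ) (f : Cube n → ℝ) : Prop :=
  ∃ lo : Cube n → ℝ, (∀ x, lo x ≤ f x) ∧ 1 - δ ≤ E lo ∧ L1 lo ≤ M

/-- `f` depends only on the bits in `A`. -/
def On {α : Type*} (A : Finset (Fin n)) (f : Cube n → α) : Prop :=
  ∀ x y : Cube n, (∀ i ∈ A, x i = y i) → f x = f y

/-- `x` on `A`, `y` outside. -/
def mix {α : Type*} (A : Finset (Fin n)) (x y : Fin n → α) : Fin n → α :=
  fun i => if i ∈ A then x i else y i

/-! ## Random restrictions and the canonical decision tree -/

/-- A partial assignment: `none` = free. -/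
abbrev Part (n : ℕ) := Fin n → Option Bool

/-- The variables outside `R` are fixed to the bits of `y`. -/
def res (R : Finset (Fin n)) (y : Cube n) : Part n := fun i => if i ∈ R then none else some (y i)

/-- The partial assignment `c` overrides `ρ`. -/
def ovr (ρ c : Part n) : Part n := fun i => (c i).orElse fun _ => ρ i

/-- `x` completed: the bits fixed by `ρ`, and `x` elsewhere. -/
def fil (ρ : Part n) (x : Cube n) : Cube n := fun i => (ρ i).getD (x i)

/-- `ρ` falsifies the term `t`. -/
def Term.Fals (t : Term n) (ρ : Part n) : Prop := ∃ i ∈ t.S, ρ i = some (!(t.a i))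

/-- The free variables of the term `t`. -/
def Term.fr (t : Term n) (ρ : Part n) : Finset (Fin n) := t.S.filter fun i => ρ i = none

open Classical in
/-- (A bound for) the depth of the canonical decision tree of the restricted DNF. -/
noncomputable def dep : List (Term n) → Part n → ℕ
  | [], _ => 0
  | t :: F, ρ => if t.Fals ρ then dep F ρ else
      if t.fr ρ = ∅ then 0 else
        (t.fr ρ).card + univ.sup fun b : Cube n =>
          dep F (ovr ρ fun i => if i ∈ t.fr ρ then some (b i) else none)

/-- The average over the random restrictions in which every variable is free with probability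
`p`. -/
noncomputable def Er (p : ℝ) (g : Finset (Fin n) → Cube n → ℝ) : ℝ :=
  ∑ R : Finset (Fin n), p ^ R.card * (1 - p) ^ (n - R.card) * E fun y => g R y

/-! ## The wide terms, ordered by their width -/

/-- The `i`-th and the `j`-th term, `i < j`, are heavy neighbours. -/
def Hv (τ : ℕ) (T : Fin N → Term n) (i j : Fin N) : Prop :=
  i < j ∧ ((T j).S \ (T i).S).card ≤ τ

/-- The `j`-th term is satisfied, and no earlier heavy neighbour. -/
def ZP (τ : ℕ) (T : Fin N → Term n) (j : Fin N) (x : Cube n) : Prop :=
  (T j).Sat x ∧ ∀ i, Hv τ T i j → ¬ (T i).Sat x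

/-- The indicator of `ZP`. -/
noncomputable def Z (τ : ℕ) (T : Fin N → Term n) (j : Fin N) (x : Cube n) : ℝ := one (ZP τ T j x)

open Classical in
/-- The variables of the `j`-th term and of its earlier heavy neighbours. -/
noncomputable def ball (τ : ℕ) (T : Fin N → Term n) (j : Fin N) : Finset (Fin n) :=
  (T j).S ∪ (univ.filter fun i => Hv τ T i j).biUnion fun i => (T i).S

/-- The balls meet. -/
def Near (τ : ℕ) (T : Fin N → Term n) (i j : Fin N) : Prop := ¬ Disjoint (ball τ T i) (ball τ T j)

/-- The probability that all terms in `J` are satisfied. -/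
noncomputable def pJ (T : Fin N → Term n) (J : Finset (Fin N)) : ℝ := E fun x => ∏ j ∈ J, (T j).f x

/-- No heavy pair in `J`. -/
def NoHv (τ : ℕ) (T : Fin N → Term n) (J : Finset (Fin N)) : Prop :=
  ∀ i ∈ J, ∀ j ∈ J, ¬ Hv τ T i j

/-- The balls of `J` are pairwise disjoint. -/
def Far (τ : ℕ) (T : Fin N → Term n) (J : Finset (Fin N)) : Prop :=
  ∀ i ∈ J, ∀ j ∈ J, i ≠ j → ¬ Near τ T i j

/-- The sum of the probabilities of the terms. -/
noncomputable def lam (T : Fin N → Term n) : ℝ := ∑ j, (1 / 2 : ℝ) ^ (T j).S.card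

/-- The sum of the probabilities of `ZP`. -/
noncomputable def mu (τ : ℕ) (T : Fin N → Term n) : ℝ := ∑ j, E (Z τ T j)

/-- Every variable occurs in at most `r` terms. -/
def Read (r : ℕ) (T : Fin N → Term n) : Prop := ∀ v : Fin n, (univ.filter fun j => v ∈ (T j).S).card ≤ r

/-- The standing assumptions on the wide terms. -/
structure Wide (r τ W : ℕ) (T : Fin N → Term n) : Prop where
  pos : 1 ≤ τ
  mono : Monotone fun j => (T j).S.card
  read : Read r T
  ge : ∀ j, 2 * τ ≤ (T j).S.card
  le : ∀ j, (T j).S.card ≤ W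

/-- The bound for the number of near neighbours. -/
def rh (r W : ℕ) : ℕ := W * r * (1 + 2 * r) ^ 2

/-- The bound for the near `m`-sets. -/
noncomputable def key (r τ W : ℕ) (l : ℝ) (m : ℕ) : ℝ :=
  l * rh r W * (1 / 2 : ℝ) ^ τ * (m * rh r W + l) ^ (m - 2)

/-- All DNFs with at most `s` terms of width at most `w` have sandwiches. -/
def Small (s w : ℕ) (η M : ℝ) : Prop :=
  ∀ (n : ℕ) (F : List (Term n)), F.length ≤ s → (∀ t ∈ F, t.S.card ≤ w) →
    Sand η M fun x => one (Or F x)

end Pool.Agent.MP_ca1109_lc.Dnf
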