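import Pool.Agent.MP_ca1109_lc.Dnf.M3

/-!
# Read-bounded DNFs: the product form
-/

namespace Pool.Agent.MP_ca1109_lc.Dnf

open Finset

variable {n N r τ W : ℕ} {T : Fin N → Term n}

/- ROW M6.  PROOF.  Let `t = ∏_{j ∈ J} t_j`; by `prod_term` it is 0 (then everything is 0: `Sand.of_L1`) or a term `t` with `t.S = ⋃ S_j`.
`(1 - one (Or Fn)) ∏_{j ∈ J} Z_j = t (1 - G)`, `G = one (Or (Fn and all `t_i`, `i` an earlier heavy neighbour of some `j ∈ J`))`.
Let `Ĝ x = G (x with the bits in t.S set to t.a)`: `t (1 - G) = t (1 - Ĝ)`.  `Ĝ = one (Or F')` where `F'` consists of the terms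
`⟨S' \ t.S, a'⟩` for the terms `⟨S', a'⟩` of the list which do not contradict `t` (agree with `t.a` on `S' ∩ t.S`).
The widths: `≤ w` for those of `Fn`, and `|S_i \ t.S| ≤ |S_i \ S_j| ≤ τ ≤ w` (`heavy_diff`).  Their number: `≤ s₀ + |J| * 2r` (`heavy_before`).
`Small` gives sandwiches of `Ĝ`; `Sand.proj` with `V = t.S` (`Ĝ` depends only on the bits outside `t.S`) makes them independent of `t`:
`lo, up`.  `t (1 - up) ≤ t (1 - Ĝ) ≤ t (1 - lo)`, `E t (up - lo) = E t * (E up - E lo) ≤ E t * η` (`E_indep`), `L1 (t (1 - lo)) ≤ 1 * (1 + M)`.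
(`0 ≤ η` follows from the sandwich.) -/

theorem Small.nonneg {s w : ℕ} {η M : ℝ} (hS : Small s w η M) : 0 ≤ η ∧ 0 ≤ M := by
  obtain ⟨lo, up, hs, he, hl, _⟩ := hS 0 [] (by simp) (by simp)
  refine ⟨?_, (L1_nonneg lo).trans hl⟩
  have : E lo ≤ E up := E_mono fun x => (hs x).1.trans (hs x).2
  linarith

/-- The term `t'` with the variables of `t` removed. -/
def cut (t t' : Term n) : Term n := ⟨t'.S \ t.S, t'.a⟩

open Classical in
/-- The DNF restricted by `t`. -/
noncomputable def cutL (t : Term n) (G : List (Term n)) : List (Term n) :=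
  (G.filter fun t' => decide (∀ i ∈ t'.S ∩ t.S, t'.a i = t.a i)).map (cut t)

theorem or_cutL {t : Term n} (G : List (Term n)) {x : Cube n} (hx : t.Sat x) :
    Or (cutL t G) x ↔ Or G x := by
  classical
  unfold Or cutL
  constructor
  · rintro ⟨s, hs, hsx⟩
    rw [List.mem_map] at hs
    obtain ⟨t', ht', rfl⟩ := hs
    rw [List.mem_filter] at ht'
    refine ⟨t', ht'.1, fun i hi => ?_⟩
    by_cases hit : i ∈ t.S
    · have := (of_decide_eq_true ht'.2) i (mem_inter.mpr ⟨hi, hit⟩)
      rw [this]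
      exact hx i hit
    · exact hsx i (mem_sdiff.mpr ⟨hi, hit⟩)
  · rintro ⟨t', ht', hsx⟩
    refine ⟨cut t t', List.mem_map.mpr ⟨t', List.mem_filter.mpr ⟨ht', decide_eq_true ?_⟩, rfl⟩,
      fun i hi => hsx i (mem_sdiff.mp hi).1⟩
    intro i hi
    rw [mem_inter] at hi
    rw [← hsx i hi.1, hx i hi.2]

theorem mem_cutL {t s : Term n} {G : List (Term n)} (hs : s ∈ cutL t G) :
    ∃ t' ∈ G, s = cut t t' := by
  classical
  unfold cutL at hs
  rw [List.mem_map] at hs
  obtain ⟨t', ht', rfl⟩ := hs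
  exact ⟨t', (List.mem_filter.mp ht').1, rfl⟩

theorem on_cutL (t : Term n) (G : List (Term n)) :
    On t.Sᶜ (fun x => one (Or (cutL t G) x)) := by
  classical
  have key : ∀ x y : Cube n, (∀ i ∈ t.Sᶜ, x i = y i) → Or (cutL t G) x → Or (cutL t G) y := by
    rintro x y hxy ⟨s, hs, hsx⟩
    refine ⟨s, hs, fun i hi => ?_⟩
    obtain ⟨t', _, rfl⟩ := mem_cutL hs
    rw [← hxy i (mem_compl.mpr (mem_sdiff.mp hi).2)]
    exact hsx i hi
  intro x y hxy
  have h : Or (cutL t G) x ↔ Or (cutL t G) y :=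
    ⟨key x y hxy, key y x fun i hi => (hxy i hi).symm⟩
  simp only [h]

theorem length_cutL (t : Term n) (G : List (Term n)) : (cutL t G).length ≤ G.length := by
  classical
  unfold cutL
  rw [List.length_map]
  exact List.length_filter_le _ _

theorem prod_one_eq {ι : Type*} (J : Finset ι) (p : ι → Prop) :
    ∏ j ∈ J, one (p j) = one (∀ j ∈ J, p j) := by
  by_cases h : ∀ j ∈ J, p j
  · rw [one_true h]
    exact prod_eq_one fun j hj => one_true (h j hj)
  · rw [one_false h]
    push Not at h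
    obtain ⟨j, hj, hn⟩ := h
    exact prod_eq_zero hj (one_false hn)

open Classical in
/-- The terms of `Fn` and the earlier heavy neighbours of the terms in `J`. -/
noncomputable def nb (τ : ℕ) (T : Fin N → Term n) (Fn : List (Term n)) (J : Finset (Fin N)) :
    List (Term n) :=
  Fn ++ (J.biUnion fun j => univ.filter fun i => Hv τ T i j).toList.map T

theorem or_nb (Fn : List (Term n)) (J : Finset (Fin N)) (x : Cube n) :
    Or (nb τ T Fn J) x ↔ Or Fn x ∨ ∃ j ∈ J, ∃ i, Hv τ T i j ∧ (T i).Sat x := by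
  classical
  unfold Or nb
  constructor
  · rintro ⟨t, ht, hx⟩
    rw [List.mem_append] at ht
    rcases ht with ht | ht
    · exact Or.inl ⟨t, ht, hx⟩
    · rw [List.mem_map] at ht
      obtain ⟨i, hi, rfl⟩ := ht
      rw [mem_toList, mem_biUnion] at hi
      obtain ⟨j, hj, hi⟩ := hi
      exact Or.inr ⟨j, hj, i, (mem_filter.mp hi).2, hx⟩
  · rintro (⟨t, ht, hx⟩ | ⟨j, hj, i, hi, hx⟩)
    · exact ⟨t, List.mem_append.mpr (Or.inl ht), hx⟩
    · refine ⟨T i, List.mem_append.mpr (Or.inr (List.mem_map.mpr ⟨i, ?_, rfl⟩)), hx⟩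
      rw [mem_toList, mem_biUnion]
      exact ⟨j, hj, mem_filter.mpr ⟨mem_univ _, hi⟩⟩

theorem length_nb (hT : Wide r τ W T) (Fn : List (Term n)) (J : Finset (Fin N)) :
    (nb τ T Fn J).length ≤ Fn.length + J.card * (2 * r) := by
  classical
  unfold nb
  rw [List.length_append, List.length_map, length_toList]
  exact Nat.add_le_add_left (card_biUnion_le_card_mul _ _ _ fun j _ => heavy_before hT j) _

theorem form_eq (Fn : List (Term n)) (J : Finset (Fin N)) (x : Cube n) :
    one (¬ Or Fn x) * ∏ j ∈ J, Z τ T j x =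
      (∏ j ∈ J, (T j).f x) * one (¬ Or (nb τ T Fn J) x) := by
  unfold Z Term.f
  rw [prod_one_eq, prod_one_eq, ← one_and, ← one_and]
  congr 1
  apply propext
  rw [or_nb]
  unfold ZP
  constructor
  · rintro ⟨h1, h2⟩
    refine ⟨fun j hj => (h2 j hj).1, ?_⟩
    rintro (h | ⟨j, hj, i, hi, hx⟩)
    · exact h1 h
    · exact (h2 j hj).2 i hi hx
  · rintro ⟨h1, h2⟩
    refine ⟨fun h => h2 (Or.inl h), fun j hj => ⟨h1 j hj, fun i hi hx => ?_⟩⟩
    exact h2 (Or.inr ⟨j, hj, i, hi, hx⟩)

theorem product_form (hT : Wide r τ W T) {s₀ w m : ℕ} {η M : ℝ} (hw : τ ≤ w)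
    (Fn : List (Term n)) (hlen : Fn.length ≤ s₀) (hwid : ∀ t ∈ Fn, t.S.card ≤ w)
    (hS : Small (s₀ + m * (2 * r)) w η M) (J : Finset (Fin N)) (hJ : J.card ≤ m) :
    Sand (η * pJ T J) (1 + M) (fun x => one (¬ Or Fn x) * ∏ j ∈ J, Z τ T j x) := by
  classical
  obtain ⟨hη, hM⟩ := hS.nonneg
  have hfun : (fun x => one (¬ Or Fn x) * ∏ j ∈ J, Z τ T j x) =
      fun x => (∏ j ∈ J, (T j).f x) * one (¬ Or (nb τ T Fn J) x) := by
    funext x
    exact form_eq Fn J x
  rw [hfun]
  rcases prod_term T J with h0 | ⟨t, htS, hta, ht⟩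
  · simp_rw [h0, zero_mul]
    refine (Sand.of_L1 (M := 0) ?_).mono (mul_nonneg hη (pJ_nonneg T J)) (by linarith)
    rw [L1_const, abs_zero]
  · have hpJ : pJ T J = E t.f := by
      unfold pJ
      exact congrArg E (funext ht)
    simp_rw [ht]
    set G := nb τ T Fn J with hG
    have hlenG : (cutL t G).length ≤ s₀ + m * (2 * r) :=
      (length_cutL t G).trans ((length_nb hT Fn J).trans
        (Nat.add_le_add hlen (Nat.mul_le_mul_right _ hJ)))
    have hwG : ∀ s ∈ cutL t G, s.S.card ≤ w := by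
      intro s hs
      obtain ⟨t', ht', rfl⟩ := mem_cutL hs
      rw [hG] at ht'
      unfold nb at ht'
      rw [List.mem_append] at ht'
      rcases ht' with ht' | ht'
      · exact (card_le_card sdiff_subset).trans (hwid t' ht')
      · rw [List.mem_map] at ht'
        obtain ⟨i, hi, rfl⟩ := ht'
        rw [mem_toList, mem_biUnion] at hi
        obtain ⟨j, hj, hi⟩ := hi
        have hh := heavy_diff hT (mem_filter.mp hi).2
        refine (card_le_card ?_).trans (hh.trans hw)
        refine sdiff_subset_sdiff (Subset.refl _) ?_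
        rw [htS]
        exact subset_biUnion_of_mem (fun j => (T j).S) hj
    obtain ⟨lo, up, hlo, hup, hs, he, hl, hu⟩ :=
      (hS n (cutL t G) hlenG hwG).proj (on_cutL t G)
    have hval : ∀ x, t.f x * one (¬ Or G x) = t.f x * (1 - one (Or (cutL t G) x)) := by
      intro x
      by_cases hx : t.Sat x
      · rw [one_not]
        simp only [or_cutL G hx]
      · have : t.f x = 0 := one_false hx
        rw [this, zero_mul, zero_mul]
    have hf0 : ∀ x, 0 ≤ t.f x := fun x => one_nonneg _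
    refine ⟨fun x => t.f x * (1 - up x), fun x => t.f x * (1 - lo x), fun x => ⟨?_, ?_⟩, ?_, ?_, ?_⟩
    · change t.f x * (1 - up x) ≤ t.f x * one (¬ Or G x)
      rw [hval]
      exact mul_le_mul_of_nonneg_left (by linarith [(hs x).2]) (hf0 x)
    · change t.f x * one (¬ Or G x) ≤ t.f x * (1 - lo x)
      rw [hval]
      exact mul_le_mul_of_nonneg_left (by linarith [(hs x).1]) (hf0 x)
    · rw [← E_sub]
      have h1 : (fun x => t.f x * (1 - lo x) - t.f x * (1 - up x)) =
          fun x => t.f x * (up x - lo x) := by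
        funext x
        ring
      have hon : On t.Sᶜ (fun x => up x - lo x) := by
        intro x y hxy
        simp only
        rw [hup x y hxy, hlo x y hxy]
      rw [h1, E_indep (disjoint_compl_right) (on_term t) hon, E_sub, hpJ, mul_comm η]
      exact mul_le_mul_of_nonneg_left he (E_nonneg hf0)
    · refine (L1_mul _ _).trans ?_
      have h2 : L1 (fun x => 1 - up x) ≤ 1 + M := by
        refine (L1_sub (fun _ => 1) up).trans ?_
        rw [L1_const, abs_one]
        linarith
      calc L1 t.f * L1 (fun x => 1 - up x) ≤ 1 * (1 + M) :=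
            mul_le_mul (L1_term t) h2 (L1_nonneg _) zero_le_one
        _ = 1 + M := one_mul _
    · refine (L1_mul _ _).trans ?_
      have h2 : L1 (fun x => 1 - lo x) ≤ 1 + M := by
        refine (L1_sub (fun _ => 1) lo).trans ?_
        rw [L1_const, abs_one]
        linarith
      calc L1 t.f * L1 (fun x => 1 - lo x) ≤ 1 * (1 + M) :=
            mul_le_mul (L1_term t) h2 (L1_nonneg _) zero_le_one
        _ = 1 + M := one_mul _

end Pool.Agent.MP_ca1109_lc.Dnf
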