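import Pool.Agent.MP_ca1109_lc.Dnf.P1

/-!
# Read-bounded DNFs: sandwiches of polynomial spectral norm
-/

namespace Pool.Agent.MP_ca1109_lc.Dnf

open Finset Filter

variable {n N : ℕ}

/-- Logarithms are smaller than powers. -/
theorem log_le (a b : ℝ) {c s : ℝ} (hs : 0 < s) (hc : 0 < c) :
    ∀ᶠ x : ℝ in atTop, a + b * Real.log x ≤ c * x ^ s := by
  have h1 : (fun x : ℝ => a + b * Real.log x) =o[atTop] fun x : ℝ => x ^ s :=
    (Asymptotics.isLittleO_const_left.2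
      (Or.inr (tendsto_norm_atTop_atTop.comp (tendsto_rpow_atTop hs)))).add
      ((isLittleO_log_rpow_atTop hs).const_mul_left b)
  filter_upwards [h1.def hc, eventually_ge_atTop 0] with x hx hx0
  rw [Real.norm_of_nonneg (Real.rpow_nonneg hx0 s)] at hx
  exact (le_abs_self _).trans hx

/-- The asymptotics. -/
theorem asym {θ : ℝ} (h0 : 0 < θ) (h1 : θ < 1 / 2) (C₀ L₀ : ℕ) : ∀ᶠ x : ℝ in atTop,
    1 ≤ x ∧ L₀ ≤ ⌈x ^ θ⌉₊ ∧ (⌈x ^ θ⌉₊ : ℝ) ≤ x ∧ 3 * x ≤ 4 ^ ⌈x ^ θ⌉₊ ∧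
      (C₀ * ⌈x ^ θ⌉₊ : ℝ) ^ (C₀ * ⌈x ^ θ⌉₊ ^ 2) ≤ 2 ^ x := by
  obtain ⟨D, hD⟩ : ∃ D : ℝ, D = C₀ + 1 := ⟨_, rfl⟩
  have hD1 : 1 ≤ D := by
    have : (0 : ℝ) ≤ C₀ := by positivity
    linarith
  have hl2 : 0 < Real.log 2 := Real.log_pos (by norm_num)
  have e1 := (tendsto_rpow_atTop h0).eventually (eventually_ge_atTop (L₀ : ℝ))
  have e2 := (tendsto_rpow_atTop (show 0 < 1 - θ by linarith)).eventually (eventually_ge_atTop 2)
  have e3 := log_le (Real.log 3) 1 h0 one_pos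
  have e4 := log_le (Real.log (2 * D)) θ (show 0 < 1 - 2 * θ by linarith)
    (show 0 < Real.log 2 / (4 * D) by positivity)
  filter_upwards [e1, e2, e3, e4, eventually_ge_atTop 1] with x h2 h3 h4 h5 hx
  have hx0 : 0 < x := by linarith
  have hxθ : 1 ≤ x ^ θ := Real.one_le_rpow hx h0.le
  obtain ⟨L, hL⟩ : ∃ L : ℕ, L = ⌈x ^ θ⌉₊ := ⟨_, rfl⟩
  rw [← hL]
  have hL1 : x ^ θ ≤ L := by rw [hL]; exact Nat.le_ceil _
  have hL2 : (L : ℝ) ≤ 2 * x ^ θ := by
    have := Nat.ceil_lt_add_one (show 0 ≤ x ^ θ by linarith)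
    rw [← hL] at this
    linarith
  have hL0 : (1 : ℝ) ≤ L := hxθ.trans hL1
  refine ⟨hx, ?_, ?_, ?_, ?_⟩
  · have : (L₀ : ℝ) ≤ L := h2.trans hL1
    exact_mod_cast this
  · calc (L : ℝ) ≤ 2 * x ^ θ := hL2
      _ ≤ x ^ (1 - θ) * x ^ θ := by gcongr
      _ = x := by rw [← Real.rpow_add hx0]; simp
  · have h6 : 3 * x ≤ Real.exp (x ^ θ) := by
      rw [← Real.log_le_iff_le_exp (by positivity), Real.log_mul (by norm_num) hx0.ne']
      linarith
    have h7 : Real.exp (x ^ θ) ≤ Real.exp L := Real.exp_le_exp.2 hL1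
    have h8 : Real.exp L ≤ 4 ^ L := by
      rw [← Real.exp_one_pow]
      gcongr
      linarith [Real.exp_one_lt_d9]
    exact h6.trans (h7.trans h8)
  · have h6 : (C₀ * L : ℝ) ^ (C₀ * L ^ 2) ≤ (D * L : ℝ) ^ (C₀ * L ^ 2) := by
      gcongr
      linarith
    have hDL : 1 ≤ D * L := by nlinarith
    have hu : D * L ≤ 2 * D * x ^ θ := by nlinarith
    have hu1 : 1 ≤ 2 * D * x ^ θ := hDL.trans hu
    have h7 : (D * L : ℝ) ^ (C₀ * L ^ 2) ≤ (2 * D * x ^ θ) ^ (C₀ * L ^ 2) := by gcongr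
    have h8 : (2 * D * x ^ θ) ^ (C₀ * L ^ 2) ≤ (2 * D * x ^ θ) ^ (D * (4 * x ^ (2 * θ))) := by
      rw [← Real.rpow_natCast]
      apply Real.rpow_le_rpow_of_exponent_le hu1
      push_cast
      have h9 : (L : ℝ) ^ 2 ≤ 4 * x ^ (2 * θ) := by
        calc (L : ℝ) ^ 2 ≤ (2 * x ^ θ) ^ 2 := by gcongr
          _ = 4 * x ^ (2 * θ) := by
              rw [mul_pow, ← Real.rpow_natCast (x ^ θ), ← Real.rpow_mul hx0.le]
              norm_num
              ring_nf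
      have h10 : (C₀ : ℝ) ≤ D := by linarith
      gcongr
    refine h6.trans (h7.trans (h8.trans ?_))
    rw [Real.rpow_def_of_pos (show (0 : ℝ) < 2 * D * x ^ θ by linarith),
      Real.rpow_def_of_pos (show (0 : ℝ) < 2 by norm_num)]
    apply Real.exp_le_exp.2
    rw [Real.log_mul (by positivity) (by positivity), Real.log_rpow hx0]
    calc (Real.log (2 * D) + θ * Real.log x) * (D * (4 * x ^ (2 * θ))) ≤
          (Real.log 2 / (4 * D) * x ^ (1 - 2 * θ)) * (D * (4 * x ^ (2 * θ))) := by gcongr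
      _ = Real.log 2 * (x ^ (1 - 2 * θ) * x ^ (2 * θ)) := by field_simp
      _ = Real.log 2 * x := by
          rw [← Real.rpow_add hx0]
          simp

/-- The number of nonempty terms. -/
theorem count_le (T : Fin N → Term n) {r : ℕ} (hr : Read r T) (h1 : ∀ j, 1 ≤ (T j).S.card) :
    N ≤ n * r := by
  classical
  have h2 : ∑ j : Fin N, (T j).S.card = ∑ v : Fin n, (univ.filter fun j => v ∈ (T j).S).card := by
    simp_rw [Finset.card_filter]
    rw [Finset.sum_comm]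
    exact Finset.sum_congr rfl fun j _ => by simp
  calc N = ∑ j : Fin N, 1 := by simp
    _ ≤ ∑ j : Fin N, (T j).S.card := Finset.sum_le_sum fun j _ => h1 j
    _ = ∑ v : Fin n, (univ.filter fun j => v ∈ (T j).S).card := h2
    _ ≤ ∑ v : Fin n, r := Finset.sum_le_sum fun v _ => hr v
    _ = n * r := by simp

/-- Without the terms of width more than `w`. -/
theorem p2_cut (T : Fin N → Term n) {r : ℕ} (hr : Read r T) (h1 : ∀ j, 1 ≤ (T j).S.card) (w : ℕ) :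
    ∃ (N₁ : ℕ) (T₁ : Fin N₁ → Term n), N₁ ≤ N ∧ Read r T₁ ∧ (∀ j, 1 ≤ (T₁ j).S.card) ∧
      (∀ j, (T₁ j).S.card ≤ w) ∧ ∀ ε M, Sand ε M (fun x => one (∃ j, (T₁ j).Sat x)) →
        Sand (ε + N * (1 / 2) ^ w) (M + N) (fun x => one (∃ j, (T j).Sat x)) := by
  classical
  obtain ⟨s, hs⟩ : ∃ s : Finset (Fin N), s = univ.filter fun j => (T j).S.card ≤ w := ⟨_, rfl⟩
  have hmem : ∀ j, j ∈ s ↔ (T j).S.card ≤ w := fun j => by simp [hs]
  let e : Fin s.card ≃ s := s.equivFin.symm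
  refine ⟨s.card, fun i => T (e i), ?_, ?_, fun i => h1 _, fun i => (hmem _).1 (e i).2, ?_⟩
  · simpa using Finset.card_le_univ s
  · intro v
    refine le_trans (Finset.card_le_card_of_injOn (fun i => (e i : Fin N)) ?_ ?_) (hr v)
    · intro i hi
      simp only [Finset.coe_filter, Finset.mem_univ, true_and, Set.mem_ofPred_eq] at hi ⊢
      exact hi
    · intro i _ i' _ h
      exact e.injective (Subtype.ext h)
  · rintro ε M ⟨lo, up, h, hE, hlo, hup⟩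
    have hM0 : 0 ≤ M := (L1_nonneg lo).trans hlo
    have hcard : (sᶜ.card : ℝ) ≤ N := by
      have := Finset.card_le_univ sᶜ
      rw [Fintype.card_fin] at this
      exact_mod_cast this
    refine ⟨lo, fun x => up x + ∑ j ∈ sᶜ, (T j).f x, fun x => ⟨?_, ?_⟩, ?_, ?_, ?_⟩
    · refine (h x).1.trans (one_mono ?_)
      rintro ⟨i, hi⟩
      exact ⟨_, hi⟩
    · by_cases hex : ∃ j, (T j).Sat x
      · obtain ⟨j, hj⟩ := hex
        have hnn : 0 ≤ ∑ j ∈ sᶜ, (T j).f x := Finset.sum_nonneg fun j _ => one_nonneg _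
        by_cases hjs : j ∈ s
        · have h2 : one (∃ i, (T (e i)).Sat x) = 1 :=
            one_true ⟨e.symm ⟨j, hjs⟩, by simpa using hj⟩
          have h3 := (h x).2
          simp only [h2] at h3
          have h4 := one_le (∃ j, (T j).Sat x)
          linarith
        · have h2 : (T j).f x ≤ ∑ j ∈ sᶜ, (T j).f x :=
            Finset.single_le_sum (f := fun j => (T j).f x) (fun j _ => one_nonneg _)
              (Finset.mem_compl.2 hjs)
          have h3 : (T j).f x = 1 := one_true hj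
          have h4 := one_le (∃ j, (T j).Sat x)
          have h5 : 0 ≤ up x := (one_nonneg _).trans (h x).2
          linarith
      · show one (∃ j, (T j).Sat x) ≤ up x + ∑ j ∈ sᶜ, (T j).f x
        rw [one_false hex]
        have h5 : 0 ≤ up x := (one_nonneg _).trans (h x).2
        have hnn : 0 ≤ ∑ j ∈ sᶜ, (T j).f x := Finset.sum_nonneg fun j _ => one_nonneg _
        linarith
    · rw [E_add, E_sum]
      have h2 : ∑ j ∈ sᶜ, E (fun x => (T j).f x) ≤ N * (1 / 2) ^ w := by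
        calc ∑ j ∈ sᶜ, E (fun x => (T j).f x) ≤ ∑ j ∈ sᶜ, (1 / 2 : ℝ) ^ w := by
              refine Finset.sum_le_sum fun j hj => ?_
              rw [show (fun x => (T j).f x) = (T j).f from rfl, E_term]
              rw [Finset.mem_compl, hmem] at hj
              exact pow_le_pow_of_le_one (by norm_num) (by norm_num) (by omega)
          _ = sᶜ.card * (1 / 2) ^ w := by rw [Finset.sum_const, nsmul_eq_mul]
          _ ≤ N * (1 / 2) ^ w := by gcongr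
      linarith
    · have : (0 : ℝ) ≤ N := by positivity
      linarith
    · refine (L1_add _ _).trans (add_le_add hup ?_)
      refine (L1_sum _ _).trans ?_
      calc ∑ j ∈ sᶜ, L1 (fun x => (T j).f x) ≤ ∑ j ∈ sᶜ, (1 : ℝ) :=
            Finset.sum_le_sum fun j _ => L1_term (T j)
        _ = sᶜ.card := by simp
        _ ≤ N := hcard

theorem dnf_sand (θ : ℝ) (hθ : θ < 1 / 2) (ε : ℝ) (hε : 0 < ε) :
    ∃ C : ℕ, ∀ᶠ n : ℕ in atTop, ∀ (N r : ℕ) (T : Fin N → Term n), Read r T →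
      (r : ℝ) ≤ 2 ^ (Real.logb 2 n ^ θ) → Sand ε ((n : ℝ) ^ C) (fun x => one (∃ j, (T j).Sat x)) := by
  obtain ⟨θ', hθ'0, hθ'1, hθθ'⟩ : ∃ θ' : ℝ, 0 < θ' ∧ θ' < 1 / 2 ∧ θ ≤ θ' :=
    ⟨max θ (1 / 4), lt_max_of_lt_right (by norm_num), max_lt hθ (by norm_num), le_max_left _ _⟩
  obtain ⟨C₀, L₀, hcore⟩ := core (ε / 2) (by positivity)
  refine ⟨3 * C₀ + 3, ?_⟩
  have hlim : Tendsto (fun n : ℕ => Real.logb 2 n) atTop atTop :=
    (Real.tendsto_logb_atTop (by norm_num)).comp tendsto_natCast_atTop_atTop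
  have hlarge : ∀ᶠ n : ℕ in atTop, 2 / ε ≤ (n : ℝ) :=
    tendsto_natCast_atTop_atTop.eventually (eventually_ge_atTop _)
  filter_upwards [hlim.eventually (asym hθ'0 hθ'1 C₀ L₀), hlarge, eventually_ge_atTop 2] with
    n hx hn1 hn2 N r T hr hrle
  obtain ⟨hx1, hxL, hxL2, hx3, hx4⟩ := hx
  obtain ⟨x, hxd⟩ : ∃ x : ℝ, x = Real.logb 2 n := ⟨_, rfl⟩
  rw [← hxd] at hx1 hxL hxL2 hx3 hx4 hrle
  obtain ⟨L, hL⟩ : ∃ L : ℕ, L = ⌈x ^ θ'⌉₊ := ⟨_, rfl⟩
  rw [← hL] at hxL hxL2 hx3 hx4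
  have hn2' : (2 : ℝ) ≤ n := by exact_mod_cast hn2
  have hn0 : (0 : ℝ) < n := by linarith
  have hnx : (2 : ℝ) ^ x = n := by rw [hxd, Real.rpow_logb (by norm_num) (by norm_num) hn0]
  rw [hnx] at hx4
  have h2L : (2 : ℝ) ^ L ≤ n := by
    rw [← hnx, ← Real.rpow_natCast]
    exact Real.rpow_le_rpow_of_exponent_le (by norm_num) hxL2
  have hrL : r ≤ 2 ^ L := by
    have h1 : (r : ℝ) ≤ 2 ^ (L : ℝ) := by
      refine hrle.trans (Real.rpow_le_rpow_of_exponent_le (by norm_num) ?_)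
      refine (Real.rpow_le_rpow_of_exponent_le hx1 hθθ').trans ?_
      rw [hL]
      exact Nat.le_ceil _
    rw [Real.rpow_natCast] at h1
    exact_mod_cast h1
  have hone : (1 : ℝ) ≤ (n : ℝ) ^ (3 * C₀ + 3) := one_le_pow₀ (by linarith)
  by_cases hemp : ∃ j, (T j).S = ∅
  · obtain ⟨j, hj⟩ := hemp
    have h1 : ∀ x, one (∃ j, (T j).Sat x) = 1 := fun x =>
      one_true ⟨j, fun i hi => by rw [hj] at hi; simp at hi⟩
    have h2 : Sand 0 1 (fun _ : Cube n => (1 : ℝ)) := Sand.of_L1 (by rw [L1_const]; simp)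
    exact (h2.mono hε.le hone).congr fun x => (h1 x).symm
  push Not at hemp
  have h1 : ∀ j, 1 ≤ (T j).S.card := fun j => Finset.card_pos.2 (hemp j)
  have hNr := count_le T hr h1
  have hN : (N : ℝ) ≤ n * n := by
    calc (N : ℝ) ≤ ((n * r : ℕ) : ℝ) := by exact_mod_cast hNr
      _ ≤ ((n * 2 ^ L : ℕ) : ℝ) := by exact_mod_cast Nat.mul_le_mul_left n hrL
      _ = n * 2 ^ L := by push_cast; ring
      _ ≤ n * n := by gcongr
  obtain ⟨N₁, T₁, hN₁, hr₁, h11, hw, hsand⟩ := p2_cut T hr h1 (4 ^ L)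
  have hc := hcore L hxL n N₁ T₁ (fun v => (hr₁ v).trans hrL) h11 hw
  refine (hsand _ _ hc).mono ?_ ?_
  · have h3 : (1 / 2 : ℝ) ^ (4 ^ L) ≤ 1 / (n : ℝ) ^ 3 := by
      have h4 : (n : ℝ) ^ 3 ≤ 2 ^ (4 ^ L) := by
        calc (n : ℝ) ^ 3 = (2 : ℝ) ^ (3 * x) := by
              rw [← hnx, ← Real.rpow_natCast, ← Real.rpow_mul (by norm_num)]
              congr 1
              push_cast
              ring
          _ ≤ (2 : ℝ) ^ (((4 ^ L : ℕ) : ℝ)) :=
              Real.rpow_le_rpow_of_exponent_le (by norm_num) (by push_cast; exact hx3)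
          _ = 2 ^ (4 ^ L) := Real.rpow_natCast _ _
      rw [one_div_pow]
      exact one_div_le_one_div_of_le (by positivity) h4
    have h5 : (N : ℝ) * (1 / 2) ^ (4 ^ L) ≤ ε / 2 := by
      calc (N : ℝ) * (1 / 2) ^ (4 ^ L) ≤ (n * n) * (1 / (n : ℝ) ^ 3) := by gcongr
        _ = 1 / (n : ℝ) := by field_simp
        _ ≤ ε / 2 := by
            rw [div_le_iff₀ hε] at hn1
            rw [div_le_iff₀ hn0]
            linarith
    linarith
  · have hN₁' : (N₁ : ℝ) ≤ n * n := le_trans (by exact_mod_cast hN₁) hN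
    have h6 : (N₁ : ℝ) + 1 ≤ (n : ℝ) ^ 3 := by nlinarith
    have h7 : ((N₁ : ℝ) + 1) ^ C₀ * (C₀ * L : ℝ) ^ (C₀ * L ^ 2) ≤ ((n : ℝ) ^ 3) ^ C₀ * n := by
      gcongr
    have h8 : ((n : ℝ) ^ 3) ^ C₀ * n = (n : ℝ) ^ (3 * C₀ + 1) := by
      rw [← pow_mul, pow_succ]
    have h9 : (n : ℝ) ^ (3 * C₀ + 1) ≤ (n : ℝ) ^ (3 * C₀ + 2) :=
      pow_le_pow_right₀ (by linarith) (by omega)
    have h10 : (n : ℝ) * n ≤ (n : ℝ) ^ (3 * C₀ + 2) := by
      calc (n : ℝ) * n = (n : ℝ) ^ 2 := by ring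
        _ ≤ _ := pow_le_pow_right₀ (by linarith) (by omega)
    have h11 : 2 * (n : ℝ) ^ (3 * C₀ + 2) ≤ (n : ℝ) ^ (3 * C₀ + 3) := by
      calc 2 * (n : ℝ) ^ (3 * C₀ + 2) ≤ n * (n : ℝ) ^ (3 * C₀ + 2) := by gcongr
        _ = (n : ℝ) ^ (3 * C₀ + 3) := by rw [← pow_succ']
    linarith

end Pool.Agent.MP_ca1109_lc.Dnf
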