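import Pool.Agent.MP_ca1109_lc.Dnf.B1
import Pool.Agent.MP_ca1109_lc.Hyb.E3
import Pool.Agent.MP_ca1109_lc.Hyb.E4
import Pool.Agent.MP_ca1109_lc.Mpg.G0

/-!
# Read-bounded DNFs: the generator
-/

namespace Pool.Agent.MP_ca1109_lc.Dnf

open Finset Filter Pool.Agent.H66 Pool.Agent.MP_ca1109_lc.Mpg Pool.Agent.MP_ca1109_lc.Agp
  Pool.Agent.MP_ca1109_lc.Hyb

variable {n N : ℕ}

theorem q1_avg (f : Cube n → ℝ) : avg f = E f := by
  unfold avg E
  rw [Fintype.card_fun, Fintype.card_bool, Fintype.card_fin]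
  push_cast
  rfl

theorem q1_ind (b : Bool) : ind b = one (b = true) := by
  unfold ind one
  cases b <;> simp

/-- The error of a generator of small bias for functions of small spectral norm. -/
theorem q1_fool {M : ℕ} (hM : 0 < M) (X : ℕ → Cube n) {β : ℝ} (hβ : 0 ≤ β)
    (h : ∀ S : Finset (Fin n), S ≠ ∅ → ‖na M (fun p => Agp.sgn S (X p))‖ ≤ β) (f : Cube n → ℝ) :
    |nr M (fun p => f (X p)) - E f| ≤ β * L1 f := by
  classical
  have h1 : nr M (fun p => f (X p)) = ∑ S, fc f S * nr M (fun p => Hyb.ch S (X p)) := by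
    rw [nr_congr (G := fun p => ∑ S, fc f S * Hyb.ch S (X p))
      (fun p _ => inversion f (X p)), nr_sum]
    exact Finset.sum_congr rfl (fun S _ => nr_mul_left _ _ _)
  have h2 : nr M (fun p => Hyb.ch ∅ (X p)) = 1 := by
    rw [← nr_const hM 1]
    apply nr_congr
    intro p _
    simp [Hyb.ch]
  have h3 : nr M (fun p => f (X p)) - E f =
      ∑ S ∈ univ.erase ∅, fc f S * nr M (fun p => Hyb.ch S (X p)) := by
    rw [h1, ← Finset.add_sum_erase _ _ (Finset.mem_univ (∅ : Finset (Fin n))), h2, fc_empty,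
      mul_one]
    ring
  rw [h3]
  calc |∑ S ∈ univ.erase ∅, fc f S * nr M (fun p => Hyb.ch S (X p))|
      ≤ ∑ S ∈ univ.erase ∅, |fc f S * nr M (fun p => Hyb.ch S (X p))| :=
        Finset.abs_sum_le_sum_abs _ _
    _ ≤ ∑ S ∈ univ.erase ∅, β * |fc f S| := by
        refine Finset.sum_le_sum fun S hS => ?_
        rw [abs_mul, mul_comm β]
        exact mul_le_mul_of_nonneg_left (e4_bias X S (h S (Finset.mem_erase.1 hS).1))
          (abs_nonneg _)
    _ ≤ ∑ S, β * |fc f S| := by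
        refine Finset.sum_le_sum_of_subset_of_nonneg (Finset.erase_subset _ _) ?_
        intro S _ _
        positivity
    _ = β * L1 f := by
        unfold L1
        rw [Finset.mul_sum]

theorem q1_nr_mono {M : ℕ} {F G : ℕ → ℝ} (h : ∀ p, F p ≤ G p) : nr M F ≤ nr M G := by
  unfold nr
  exact div_le_div_of_nonneg_right (Finset.sum_le_sum fun p _ => h p) (Nat.cast_nonneg _)

theorem gen_of_sand (𝒯 : ∀ n : ℕ, ((Fin n → Bool) → Bool) → Prop) (ε : ℝ) (C : ℕ)
    (h : ∀ᶠ n : ℕ in atTop, ∀ T, 𝒯 n T → Sand ε ((n : ℝ) ^ C) (fun x => one (T x = true)))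
    (ε' : ℝ) (hε : ε < ε') : LogGen 𝒯 ε' := by
  obtain ⟨n0, hn0⟩ := eventually_atTop.1 h
  obtain ⟨e, G, hG, H⟩ := small_bias_poly C (γ := ε' - ε) (by linarith)
  have key : LogGen (fun n T => 𝒯 n T ∧ n0 ≤ n) ε' := by
    refine logGen_of hG ?_
    rintro n T ⟨hT, hn⟩
    obtain ⟨lo, up, hs, hE, hlo, hup⟩ := hn0 n hn T hT
    have hβ : 0 ≤ (ε' - ε) / ((n : ℝ) + 1) ^ C := by
      apply div_nonneg (by linarith)
      positivity
    have hM : 0 < 2 ^ e n := by positivity
    have e1 := q1_fool hM (out G n) hβ (H n) lo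
    have e2 := q1_fool hM (out G n) hβ (H n) up
    have hb : ∀ M : ℝ, M ≤ (n : ℝ) ^ C → (ε' - ε) / ((n : ℝ) + 1) ^ C * M ≤ ε' - ε := by
      intro M hM
      have h1 : M ≤ ((n : ℝ) + 1) ^ C :=
        hM.trans (pow_le_pow_left₀ (Nat.cast_nonneg _) (by linarith) C)
      rw [div_mul_eq_mul_div, div_le_iff₀ (by positivity)]
      exact mul_le_mul_of_nonneg_left h1 (by linarith)
    have b1 := e1.trans (hb _ hlo)
    have b2 := e2.trans (hb _ hup)
    have e3 : prob T = E (fun x => one (T x = true)) := by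
      rw [prob_eq_avg, ← q1_avg]
      congr 1
      funext x
      exact q1_ind _
    have e4 : E lo ≤ E (fun x => one (T x = true)) := E_mono fun x => (hs x).1
    have e5 : E (fun x => one (T x = true)) ≤ E up := E_mono fun x => (hs x).2
    have e6 : nr (2 ^ e n) (fun p => lo (out G n p)) ≤
        nr (2 ^ e n) (fun p => ind (T (out G n p))) :=
      q1_nr_mono fun p => by
        rw [q1_ind]
        exact (hs _).1
    have e7 : nr (2 ^ e n) (fun p => ind (T (out G n p))) ≤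
        nr (2 ^ e n) (fun p => up (out G n p)) :=
      q1_nr_mono fun p => by
        rw [q1_ind]
        exact (hs _).2
    rw [e3, abs_le]
    rw [abs_le] at b1 b2
    constructor <;> linarith [b1.1, b1.2, b2.1, b2.2]
  obtain ⟨D, g, h1, h2, h3, c, hc⟩ := key
  refine ⟨D, g, h1, h2, h3, c, ?_⟩
  filter_upwards [hc, eventually_ge_atTop n0] with n hn hge
  exact ⟨hn.1, hn.2.1, fun T hT => hn.2.2 T ⟨hT, hge⟩⟩

end Pool.Agent.MP_ca1109_lc.Dnf
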