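import Pool.Agent.MP_ca1109_lc.Dnf.M4

/-!
# Read-bounded DNFs: the binomial moments
-/

namespace Pool.Agent.MP_ca1109_lc.Dnf

open Finset

variable {n N r τ W : ℕ} {T : Fin N → Term n}

theorem Z_nonneg (j : Fin N) (x : Cube n) : 0 ≤ Z τ T j x := one_nonneg _

theorem Z_le_one (j : Fin N) (x : Cube n) : Z τ T j x ≤ 1 := one_le _

theorem Z_le_term (j : Fin N) (x : Cube n) : Z τ T j x ≤ (T j).f x := one_mono fun h => h.1

theorem prod_Z_zero {J : Finset (Fin N)} (h : ¬ NoHv τ T J) (x : Cube n) : ∏ j ∈ J, Z τ T j x = 0 := by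
  unfold NoHv at h
  push Not at h
  obtain ⟨i, hi, j, hj, hij⟩ := h
  by_cases h1 : (T i).Sat x
  · exact Finset.prod_eq_zero hj (one_false fun h2 => h2.2 i hij h1)
  · exact Finset.prod_eq_zero hi (one_false fun h2 => h1 h2.1)

theorem pow_add_ge {S u : ℝ} (hS : 0 ≤ S) (hu : 0 ≤ u) (m : ℕ) :
    S ^ (m + 1) + (m + 1) * u * S ^ m ≤ (S + u) ^ (m + 1) := by
  induction m with
  | zero => simp
  | succ m ih =>
    have h1 : (S + u) * (S ^ (m + 1) + (m + 1) * u * S ^ m) ≤ (S + u) ^ (m + 1 + 1) := by
      rw [pow_succ' (S + u) (m + 1)]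
      exact mul_le_mul_of_nonneg_left ih (by linarith)
    refine le_trans ?_ h1
    have h2 : 0 ≤ (m + 1 : ℝ) * u * u * S ^ m := by positivity
    push_cast
    have e : (S + u) * (S ^ (m + 1) + (m + 1) * u * S ^ m) =
        S ^ (m + 1 + 1) + (m + 1 + 1) * u * S ^ (m + 1) + (m + 1) * u * u * S ^ m := by ring
    rw [e]
    linarith

theorem esymm_le {ι : Type*} (s : Finset ι) (u : ι → ℝ) (hu : ∀ i ∈ s, 0 ≤ u i) (m : ℕ) :
    ∑ J ∈ powersetCard m s, ∏ j ∈ J, u j ≤ (∑ i ∈ s, u i) ^ m / m.factorial := by
  classical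
  induction s using Finset.induction_on generalizing m with
  | empty =>
    cases m with
    | zero => simp
    | succ m =>
      rw [Finset.powersetCard_eq_empty.2 (by simp)]
      simp
  | insert a s ha ih =>
    have hu' : ∀ i ∈ s, 0 ≤ u i := fun i hi => hu i (Finset.mem_insert_of_mem hi)
    have hua : 0 ≤ u a := hu a (Finset.mem_insert_self _ _)
    have hS : 0 ≤ ∑ i ∈ s, u i := Finset.sum_nonneg hu'
    cases m with
    | zero => simp
    | succ m =>
      rw [Finset.powersetCard_succ_insert ha, Finset.sum_union, Finset.sum_image,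
        Finset.sum_insert ha]
      · have h1 := ih hu' (m + 1)
        have h2 := ih hu' m
        have h3 : ∑ J ∈ powersetCard m s, ∏ j ∈ insert a J, u j =
            u a * ∑ J ∈ powersetCard m s, ∏ j ∈ J, u j := by
          rw [Finset.mul_sum]
          refine Finset.sum_congr rfl fun J hJ => ?_
          rw [Finset.prod_insert fun h => ha ((Finset.mem_powersetCard.1 hJ).1 h)]
        rw [h3]
        have h4 := mul_le_mul_of_nonneg_left h2 hua
        have h5 := pow_add_ge hS hua m
        have hf : (0 : ℝ) < (m + 1).factorial := by exact_mod_cast Nat.factorial_pos _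
        have hf' : (0 : ℝ) < m.factorial := by exact_mod_cast Nat.factorial_pos _
        have h6 : u a * ((∑ i ∈ s, u i) ^ m / m.factorial) =
            ((m + 1) * u a * (∑ i ∈ s, u i) ^ m) / (m + 1).factorial := by
          rw [Nat.factorial_succ]
          push_cast
          field_simp
        rw [h6] at h4
        refine (add_le_add h1 h4).trans ?_
        rw [← add_div, add_comm (u a)]
        exact div_le_div_of_nonneg_right h5 hf.le
      · intro J hJ J' hJ' h
        have e1 := Finset.erase_insert fun h => ha ((Finset.mem_powersetCard.1 hJ).1 h)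
        have e2 := Finset.erase_insert fun h => ha ((Finset.mem_powersetCard.1 hJ').1 h)
        rw [← e1, ← e2, h]
      · rw [Finset.disjoint_left]
        intro J hJ hJ'
        obtain ⟨J', -, rfl⟩ := Finset.mem_image.1 hJ'
        exact ha ((Finset.mem_powersetCard.1 hJ).1 (Finset.mem_insert_self _ _))

theorem moment_bound (hT : Wide r τ W T) (m : ℕ) (hm : 2 ≤ m) :
    ∑ J ∈ powersetCard m (univ : Finset (Fin N)), E (fun x => ∏ j ∈ J, Z τ T j x) ≤
      mu τ T ^ m / m.factorial + key r τ W (lam T) m := by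
  classical
  have h1 : ∀ J ∈ powersetCard m (univ : Finset (Fin N)), E (fun x => ∏ j ∈ J, Z τ T j x) ≤
      ∏ j ∈ J, E (Z τ T j) + if NoHv τ T J ∧ ¬ Far τ T J then pJ T J else 0 := by
    intro J _
    have h0 : 0 ≤ ∏ j ∈ J, E (Z τ T j) :=
      Finset.prod_nonneg fun j _ => E_nonneg fun x => Z_nonneg j x
    by_cases hN : NoHv τ T J
    · by_cases hF : Far τ T J
      · rw [if_neg fun h => h.2 hF, add_zero]
        refine le_of_eq (E_prod J (ball τ T) (Z τ T) (fun i hi j hj hij => ?_) fun i _ => on_ball τ T i)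
        exact not_not.1 (hF i hi j hj hij)
      · rw [if_pos ⟨hN, hF⟩]
        have h2 : E (fun x => ∏ j ∈ J, Z τ T j x) ≤ pJ T J := by
          unfold pJ
          exact E_mono fun x => Finset.prod_le_prod (fun j _ => Z_nonneg j x) fun j _ => Z_le_term j x
        linarith
    · rw [if_neg fun h => hN h.1, add_zero]
      have h2 : (fun x : Cube n => ∏ j ∈ J, Z τ T j x) = fun _ => 0 := by
        funext x
        exact prod_Z_zero hN x
      rw [h2, E_const]
      exact h0
  refine (Finset.sum_le_sum h1).trans ?_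
  rw [Finset.sum_add_distrib, ← Finset.sum_filter]
  exact add_le_add (esymm_le univ _ (fun j _ => E_nonneg fun x => Z_nonneg j x) m)
    (key_bound hT m hm)

end Pool.Agent.MP_ca1109_lc.Dnf
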