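import Pool.Agent.MP_ca1109_lc.Dnf.B1

/-!
# Read-bounded DNFs: Bonferroni's inequalities
-/

namespace Pool.Agent.MP_ca1109_lc.Dnf

open Finset

theorem sum_prod_choose {ι : Type*} [Fintype ι] [DecidableEq ι] (u : ι → ℝ)
    (hu : ∀ i, u i = 0 ∨ u i = 1) (m : ℕ) :
    ∑ J ∈ powersetCard m (univ : Finset ι), ∏ j ∈ J, u j =
      ((univ.filter fun i => u i = 1).card.choose m : ℝ) := by
  classical
  have h1 : ∀ J : Finset ι, ∏ j ∈ J, u j = if J ⊆ univ.filter (fun i => u i = 1) then 1 else 0 := by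
    intro J
    split_ifs with h
    · exact Finset.prod_eq_one fun j hj => (Finset.mem_filter.1 (h hj)).2
    · obtain ⟨j, hj, hj'⟩ := Finset.not_subset.1 h
      apply Finset.prod_eq_zero hj
      rcases hu j with h0 | h0
      · exact h0
      · exact absurd (Finset.mem_filter.2 ⟨Finset.mem_univ j, h0⟩ :
          j ∈ univ.filter fun i => u i = 1) hj'
  simp only [h1]
  rw [← Finset.sum_filter, Finset.sum_const, nsmul_eq_mul, mul_one, ← Finset.card_powersetCard]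
  congr 2
  ext J
  simp only [Finset.mem_filter, Finset.mem_powersetCard, Finset.subset_univ, true_and]
  tauto

theorem alt_sum (a M : ℕ) : ∑ m ∈ range (M + 1), (-1 : ℝ) ^ m * ((a + 1).choose m : ℝ) =
    (-1) ^ M * (a.choose M : ℝ) := by
  induction M with
  | zero => simp
  | succ M ih =>
    rw [Finset.sum_range_succ, ih, Nat.choose_succ_succ]
    push_cast
    ring

theorem bonf_aux {ι : Type*} [Fintype ι] (u : ι → ℝ) (hu : ∀ i, u i = 0 ∨ u i = 1) (M : ℕ) :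
    ∃ c : ℝ, 0 ≤ c ∧ ∑ m ∈ range (M + 1), (-1 : ℝ) ^ m * ∑ J ∈ powersetCard m univ, ∏ j ∈ J, u j =
      one (∀ i, u i = 0) + (-1) ^ M * c := by
  classical
  simp only [sum_prod_choose u hu]
  by_cases h : ∀ i, u i = 0
  · have h0 : (univ.filter fun i => u i = 1) = ∅ := by
      apply Finset.filter_eq_empty_iff.2
      intro i _
      rw [h i]
      norm_num
    refine ⟨0, le_rfl, ?_⟩
    rw [one_true h, h0, Finset.card_empty, mul_zero, add_zero, Finset.sum_range_succ']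
    simp
  · obtain ⟨i, hi⟩ := not_forall.1 h
    have h1 : 0 < (univ.filter fun i => u i = 1).card :=
      Finset.card_pos.2 ⟨i, Finset.mem_filter.2 ⟨Finset.mem_univ _, (hu i).resolve_left hi⟩⟩
    obtain ⟨a, ha⟩ : ∃ a, (univ.filter fun i => u i = 1).card = a + 1 := ⟨_, (Nat.sub_add_cancel h1).symm⟩
    refine ⟨(a.choose M : ℝ), Nat.cast_nonneg _, ?_⟩
    rw [one_false h, ha, alt_sum, zero_add]

theorem bonf_up {ι : Type*} [Fintype ι] (u : ι → ℝ) (hu : ∀ i, u i = 0 ∨ u i = 1) (K : ℕ) :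
    one (∀ i, u i = 0) ≤ ∑ m ∈ range (2 * K + 1), (-1 : ℝ) ^ m * ∑ J ∈ powersetCard m univ, ∏ j ∈ J, u j := by
  obtain ⟨c, hc, h⟩ := bonf_aux u hu (2 * K)
  rw [h, pow_mul]
  norm_num
  exact hc

theorem bonf_lo {ι : Type*} [Fintype ι] (u : ι → ℝ) (hu : ∀ i, u i = 0 ∨ u i = 1) (K : ℕ) :
    ∑ m ∈ range (2 * K + 2), (-1 : ℝ) ^ m * ∑ J ∈ powersetCard m univ, ∏ j ∈ J, u j ≤ one (∀ i, u i = 0) := by
  obtain ⟨c, hc, h⟩ := bonf_aux u hu (2 * K + 1)
  rw [h, pow_succ, pow_mul]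
  norm_num
  exact hc

end Pool.Agent.MP_ca1109_lc.Dnf
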