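import Pool.Agent.MP_ca1109_lc.Dnf.M8a

/-!
# Read-bounded DNFs: the narrow terms
-/

namespace Pool.Agent.MP_ca1109_lc.Dnf

open Finset

variable {n N r τ W : ℕ} {T : Fin N → Term n}

/-- A maximal family of terms with pairwise disjoint sets of variables. -/
theorem exists_family (T : Fin N → Term n) (h1 : ∀ j, 1 ≤ (T j).S.card) :
    ∃ I : Finset (Fin N), (∀ i ∈ I, ∀ j ∈ I, i ≠ j → Disjoint (T i).S (T j).S) ∧
      ∀ j, ∃ i ∈ I, ¬ Disjoint (T i).S (T j).S := by
  classical
  obtain ⟨I, hI, hmax⟩ := Finset.exists_max_image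
    (univ.filter fun I : Finset (Fin N) => ∀ i ∈ I, ∀ j ∈ I, i ≠ j → Disjoint (T i).S (T j).S)
    (fun I => I.card) ⟨∅, by simp⟩
  have hI' := (mem_filter.1 hI).2
  refine ⟨I, hI', fun j => ?_⟩
  by_contra hc
  push Not at hc
  have hj : j ∉ I := by
    intro hj
    have h2 := hc j hj
    rw [disjoint_self] at h2
    have h3 := h1 j
    rw [show (T j).S = ∅ from h2] at h3
    simp at h3
  have h4 : insert j I ∈ univ.filter fun I : Finset (Fin N) =>
      ∀ i ∈ I, ∀ j ∈ I, i ≠ j → Disjoint (T i).S (T j).S := by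
    rw [mem_filter]
    refine ⟨mem_univ _, ?_⟩
    intro a ha b hb hab
    rw [mem_insert] at ha hb
    rcases ha with rfl | ha <;> rcases hb with rfl | hb
    · exact absurd rfl hab
    · exact (hc b hb).symm
    · exact hc a ha
    · exact hI' a ha b hb hab
  have h5 := hmax _ h4
  rw [card_insert_of_notMem hj] at h5
  omega

theorem narrow (T : Fin N → Term n) (hr : Read r T) {w : ℕ} (h1 : ∀ j, 1 ≤ (T j).S.card)
    (hw : ∀ j, (T j).S.card ≤ w) {Λ : ℝ} (hΛ : 0 < Λ) :
    Big (2 / Λ) (1 + (1 + N / Λ) ^ 2) (fun x => one (∃ j, (T j).Sat x)) ∨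
      (N : ℝ) ≤ r * w * (Λ * 2 ^ w) := by
  classical
  obtain ⟨I, hI, hmeet⟩ := exists_family T h1
  obtain ⟨μ, hμ⟩ : ∃ μ : ℝ, ∑ i ∈ I, (1 / 2 : ℝ) ^ (T i).S.card = μ := ⟨_, rfl⟩
  rcases le_or_gt Λ μ with hc | hc
  · left
    have hμ0 : 0 < μ := lt_of_lt_of_le hΛ hc
    have hsm := second_moment T I μ hμ0 hμ ?_
    · refine hsm.mono ?_ ?_
      · gcongr
      · gcongr
    · have h2 : ∑ i ∈ I, ∑ j ∈ I.erase i, E (fun x => (T i).f x * (T j).f x) ≤
          ∑ i ∈ I, ∑ j ∈ I, (1 / 2 : ℝ) ^ (T i).S.card * (1 / 2) ^ (T j).S.card := by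
        refine sum_le_sum fun i hi => ?_
        have h3 : ∑ j ∈ I.erase i, E (fun x => (T i).f x * (T j).f x) =
            ∑ j ∈ I.erase i, (1 / 2 : ℝ) ^ (T i).S.card * (1 / 2) ^ (T j).S.card := by
          refine sum_congr rfl fun j hj => ?_
          have hj' := mem_erase.1 hj
          rw [E_indep (hI i hi j hj'.2 (Ne.symm hj'.1)) (on_term (T i)) (on_term (T j))]
          have e1 := E_term (T i)
          have e2 := E_term (T j)
          rw [e1, e2]
        rw [h3]
        exact sum_le_sum_of_subset_of_nonneg (erase_subset _ _) fun _ _ _ => by positivity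
      have h4 : ∑ i ∈ I, ∑ j ∈ I, (1 / 2 : ℝ) ^ (T i).S.card * (1 / 2) ^ (T j).S.card = μ ^ 2 := by
        rw [← Finset.sum_mul_sum, hμ, pow_two]
      linarith
  · right
    -- the number of terms of the family
    have h2 : (I.card : ℝ) ≤ Λ * 2 ^ w := by
      have h3 : (I.card : ℝ) * (1 / 2) ^ w ≤ μ := by
        rw [← hμ, ← nsmul_eq_mul, ← sum_const]
        refine sum_le_sum fun i _ => ?_
        exact pow_le_pow_of_le_one (by norm_num) (by norm_num) (hw i)
      have h4 : (1 / 2 : ℝ) ^ w * 2 ^ w = 1 := by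
        rw [← mul_pow]; norm_num
      have h5 : (0 : ℝ) < 2 ^ w := by positivity
      calc (I.card : ℝ) = (I.card : ℝ) * (1 / 2) ^ w * 2 ^ w := by rw [mul_assoc, h4, mul_one]
        _ ≤ Λ * 2 ^ w := by gcongr; linarith
    -- every term meets the family
    have h3 : (univ : Finset (Fin N)) ⊆
        I.biUnion fun i => (T i).S.biUnion fun v => univ.filter fun j => v ∈ (T j).S := by
      intro j _
      obtain ⟨i, hi, hd⟩ := hmeet j
      rw [not_disjoint_iff] at hd
      obtain ⟨v, hv1, hv2⟩ := hd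
      rw [mem_biUnion]
      refine ⟨i, hi, ?_⟩
      rw [mem_biUnion]
      exact ⟨v, hv1, mem_filter.2 ⟨mem_univ _, hv2⟩⟩
    have h4 : N ≤ I.card * (w * r) := by
      have h5 := card_le_card h3
      rw [card_univ, Fintype.card_fin] at h5
      refine h5.trans ?_
      refine card_biUnion_le_card_mul _ _ _ fun i _ => ?_
      refine (card_biUnion_le_card_mul _ _ r fun v _ => hr v).trans ?_
      exact Nat.mul_le_mul_right r (hw i)
    calc (N : ℝ) ≤ ((I.card * (w * r) : ℕ) : ℝ) := by exact_mod_cast h4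
      _ = r * w * I.card := by push_cast; ring
      _ ≤ r * w * (Λ * 2 ^ w) := by gcongr

end Pool.Agent.MP_ca1109_lc.Dnf
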