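import Pool.Agent.MP_ca1109_lc.Dnf.B3

/-!
# Read-bounded DNFs: splitting and prefixes
-/

namespace Pool.Agent.MP_ca1109_lc.Dnf

open Finset

variable {n N r τ W : ℕ} {T : Fin N → Term n}

/-- Subfamilies. -/
theorem read_inj (T : Fin N → Term n) (hr : Read r T) {N' : ℕ} (g : Fin N' → Fin N)
    (hg : Function.Injective g) : Read r (fun i => T (g i)) := by
  classical
  intro v
  refine le_trans (Finset.card_le_card_of_injOn g ?_ (hg.injOn)) (hr v)
  intro i hi
  simp only [Finset.coe_filter, Finset.mem_univ, true_and, Set.mem_ofPred_eq] at hi ⊢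
  exact hi

theorem split (T : Fin N → Term n) (hτ : 1 ≤ τ) (hr : Read r T) (h1 : ∀ j, 1 ≤ (T j).S.card)
    (hW : ∀ j, (T j).S.card ≤ W) :
    ∃ (N₁ N₂ : ℕ) (T₁ : Fin N₁ → Term n) (T₂ : Fin N₂ → Term n), N₁ + N₂ ≤ N ∧
      (∀ x, (∃ j, (T j).Sat x) ↔ (∃ j, (T₁ j).Sat x) ∨ ∃ j, (T₂ j).Sat x) ∧
      Read r T₁ ∧ (∀ j, 1 ≤ (T₁ j).S.card) ∧ (∀ j, (T₁ j).S.card ≤ 2 * τ) ∧ Wide r τ W T₂ := by
  classical
  obtain ⟨s, hs⟩ : ∃ s : Finset (Fin N), s = univ.filter fun j => (T j).S.card < 2 * τ := ⟨_, rfl⟩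
  have hmem : ∀ j, j ∈ s ↔ (T j).S.card < 2 * τ := fun j => by simp [hs]
  let e₁ : Fin s.card ≃ s := s.equivFin.symm
  let e₂ : Fin sᶜ.card ≃ (sᶜ : Finset (Fin N)) := sᶜ.equivFin.symm
  let f : Fin sᶜ.card → ℕ := fun i => (T (e₂ i)).S.card
  let σ : Equiv.Perm (Fin sᶜ.card) := Tuple.sort f
  have hinj₁ : Function.Injective fun i : Fin s.card => (e₁ i : Fin N) := fun i i' h =>
    e₁.injective (Subtype.ext h)
  have hinj₂ : Function.Injective fun i : Fin sᶜ.card => (e₂ (σ i) : Fin N) := fun i i' h =>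
    σ.injective (e₂.injective (Subtype.ext h))
  refine ⟨s.card, sᶜ.card, fun i => T (e₁ i), fun i => T (e₂ (σ i)), ?_, fun x => ?_,
    read_inj T hr _ hinj₁, fun i => h1 _, fun i => ?_, ?_⟩
  · rw [Finset.card_add_card_compl, Fintype.card_fin]
  · constructor
    · rintro ⟨j, hj⟩
      by_cases hjs : j ∈ s
      · exact Or.inl ⟨e₁.symm ⟨j, hjs⟩, by simpa using hj⟩
      · exact Or.inr ⟨σ.symm (e₂.symm ⟨j, Finset.mem_compl.2 hjs⟩), by simpa using hj⟩
    · rintro (⟨i, hi⟩ | ⟨i, hi⟩)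
      · exact ⟨_, hi⟩
      · exact ⟨_, hi⟩
  · exact ((hmem _).1 (e₁ i).2).le
  · refine ⟨hτ, Tuple.monotone_sort f, read_inj T hr _ hinj₂, fun i => ?_, fun i => hW _⟩
    have h2 := (e₂ (σ i)).2
    rw [Finset.mem_compl, hmem] at h2
    exact not_lt.1 h2

theorem wide_prefix (hT : Wide r τ W T) {k : ℕ} (hk : k ≤ N) :
    Wide r τ W (fun j : Fin k => T (Fin.castLE hk j)) :=
  ⟨hT.pos, fun _ _ h => hT.mono ((Fin.strictMono_castLE hk).monotone h),
    read_inj T hT.read _ (Fin.castLE_injective hk), fun _ => hT.ge _, fun _ => hT.le _⟩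

theorem lam_prefix (T : Fin N → Term n) {k : ℕ} (hk : k ≤ N) :
    lam (fun j : Fin k => T (Fin.castLE hk j)) ≤ lam T := by
  classical
  unfold lam
  rw [← Finset.sum_image (s := (univ : Finset (Fin k))) (g := Fin.castLE hk)
    (f := fun j => (1 / 2 : ℝ) ^ (T j).S.card) (fun i _ i' _ h => Fin.castLE_injective hk h)]
  exact Finset.sum_le_sum_of_subset_of_nonneg (Finset.subset_univ _) fun j _ _ => by positivity

/-- The events of a prefix. -/
theorem Z_prefix (T : Fin N → Term n) {k : ℕ} (hk : k ≤ N) (j : Fin k) (x : Cube n) :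
    Z τ (fun j : Fin k => T (Fin.castLE hk j)) j x = Z τ T (Fin.castLE hk j) x := by
  have h : ZP τ (fun j : Fin k => T (Fin.castLE hk j)) j x ↔ ZP τ T (Fin.castLE hk j) x := by
    constructor
    · rintro ⟨h1, h2⟩
      refine ⟨h1, fun i hi => ?_⟩
      have hij : (i : ℕ) < j := hi.1
      have hik : (i : ℕ) < k := hij.trans j.2
      exact h2 ⟨i, hik⟩ ⟨hij, hi.2⟩
    · rintro ⟨h1, h2⟩
      refine ⟨h1, fun i hi => h2 (Fin.castLE hk i) ⟨hi.1, hi.2⟩⟩
  unfold Z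
  by_cases h' : ZP τ T (Fin.castLE hk j) x
  · rw [one_true h', one_true (h.2 h')]
  · rw [one_false h', one_false fun h'' => h' (h.1 h'')]

theorem exists_prefix (T : Fin N → Term n) {Λ : ℝ} (hΛ : 0 ≤ Λ) : ∃ (k : ℕ) (hk : k ≤ N),
    mu τ (fun j : Fin k => T (Fin.castLE hk j)) ≤ Λ + 1 ∧
      (k = N ∨ Λ ≤ mu τ (fun j : Fin k => T (Fin.castLE hk j))) := by
  classical
  obtain ⟨B, hB⟩ : ∃ B : ℕ → ℝ, B = fun i => if h : i < N then E (Z τ T ⟨i, h⟩) else 0 := ⟨_, rfl⟩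
  have hB1 : ∀ i, B i ≤ 1 := by
    intro i
    rw [hB]
    by_cases h : i < N
    · simp only [h, dite_true]
      calc E (Z τ T ⟨i, h⟩) ≤ E (fun _ : Cube n => (1 : ℝ)) := E_mono fun x => one_le _
        _ = 1 := E_const 1
    · simp only [h, dite_false]
      exact zero_le_one
  have hmu : ∀ (k : ℕ) (hk : k ≤ N), mu τ (fun j : Fin k => T (Fin.castLE hk j)) =
      ∑ i ∈ range k, B i := by
    intro k hk
    rw [← Fin.sum_univ_eq_sum_range]
    unfold mu
    refine Finset.sum_congr rfl fun j _ => ?_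
    have h1 : (j : ℕ) < N := lt_of_lt_of_le j.2 hk
    rw [hB]
    simp only [h1, dite_true]
    congr 1
    funext x
    exact Z_prefix T hk j x
  by_cases hex : ∃ k, k ≤ N ∧ Λ ≤ ∑ i ∈ range k, B i
  · obtain ⟨hk, hle⟩ := Nat.find_spec hex
    refine ⟨Nat.find hex, hk, ?_, Or.inr ?_⟩
    · rw [hmu]
      rcases Nat.eq_zero_or_pos (Nat.find hex) with h0 | h0
      · rw [h0]
        simp
        linarith
      · obtain ⟨k', hk'⟩ : ∃ k', Nat.find hex = k' + 1 := ⟨Nat.find hex - 1, by omega⟩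
        have hmin := Nat.find_min hex (m := k') (by omega)
        push Not at hmin
        have h2 := hmin (by omega)
        rw [hk', Finset.sum_range_succ]
        have := hB1 k'
        linarith
    · rw [hmu]
      exact hle
  · push Not at hex
    refine ⟨N, le_rfl, ?_, Or.inl rfl⟩
    rw [hmu]
    have := hex N le_rfl
    linarith

end Pool.Agent.MP_ca1109_lc.Dnf
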