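import Pool.Agent.MP_ca1109_lc.Dnf.M7b
import Pool.Agent.MP_ca1109_lc.Dnf.M8b
import Pool.Agent.MP_ca1109_lc.Dnf.M9

/-!
# Read-bounded DNFs: the theorem with parameters
-/

namespace Pool.Agent.MP_ca1109_lc.Dnf

open Finset

variable {n N r τ W : ℕ} {T : Fin N → Term n}

/-- If a subfamily is almost always satisfied. -/
theorem Big.sand {f g : Cube n → ℝ} {δ M : ℝ} (h : Big δ M f) (hf : ∀ x, f x ≤ g x)
    (hg : ∀ x, g x ≤ 1) (hM : 1 ≤ M) : Sand δ M g := by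
  obtain ⟨lo, h1, h2, h3⟩ := h
  refine ⟨lo, fun _ => 1, fun x => ⟨(h1 x).trans (hf x), hg x⟩, ?_, h3, ?_⟩
  · rw [E_const]; linarith
  · rw [L1_const]; simpa using hM

theorem key_mono {l l' : ℝ} (h0 : 0 ≤ l) (h : l ≤ l') (m : ℕ) : key r τ W l m ≤ key r τ W l' m := by
  unfold key
  have h1 : (0 : ℝ) ≤ m * rh r W + l := by positivity
  have h2 : 0 ≤ l' := h0.trans h
  have h3 : 0 ≤ l' * rh r W * (1 / 2 : ℝ) ^ τ := by positivity
  gcongr

theorem mu_nonneg (T : Fin N → Term n) : 0 ≤ mu τ T :=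
  Finset.sum_nonneg fun _ _ => E_nonneg fun _ => one_nonneg _

theorem key_nonneg {l : ℝ} (h0 : 0 ≤ l) (m : ℕ) : 0 ≤ key r τ W l m := by
  unfold key
  positivity

theorem norm_bound {N₁ N K : ℕ} {M Λ : ℝ} (h : N₁ ≤ N) (hΛ : 1 ≤ Λ) (hK : 1 ≤ K) (hM : 0 ≤ M) :
    1 + (1 + N₁ / Λ) ^ 2 ≤ (2 * K + 2) * ((N : ℝ) + 1) ^ (2 * K + 1) * (2 + M) := by
  have h0 : (N₁ : ℝ) / Λ ≤ N := by
    have h1 : (N₁ : ℝ) ≤ N := by exact_mod_cast h
    rw [div_le_iff₀ (by linarith)]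
    nlinarith [(Nat.cast_nonneg N : (0 : ℝ) ≤ N)]
  have h1 : (1 : ℝ) ≤ (N : ℝ) + 1 := by linarith [(Nat.cast_nonneg N : (0 : ℝ) ≤ N)]
  have h2 : ((N : ℝ) + 1) ^ 2 ≤ ((N : ℝ) + 1) ^ (2 * K + 1) := pow_le_pow_right₀ h1 (by omega)
  have h3 : (1 + (N₁ : ℝ) / Λ) ^ 2 ≤ ((N : ℝ) + 1) ^ 2 := by
    have : 0 ≤ (N₁ : ℝ) / Λ := by positivity
    apply pow_le_pow_left₀ (by linarith)
    linarith
  have h4 : (1 : ℝ) ≤ ((N : ℝ) + 1) ^ (2 * K + 1) := one_le_pow₀ h1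
  have h5 : (2 : ℝ) ≤ 2 * K + 2 := by
    have : (0 : ℝ) ≤ K := Nat.cast_nonneg K
    linarith
  calc 1 + (1 + (N₁ : ℝ) / Λ) ^ 2 ≤ 2 * ((N : ℝ) + 1) ^ (2 * K + 1) * 1 := by linarith
    _ ≤ (2 * K + 2) * ((N : ℝ) + 1) ^ (2 * K + 1) * (2 + M) := by gcongr; linarith

theorem finite {K s₀ : ℕ} {η M Λ ε : ℝ} (hτ : 1 ≤ τ) (hΛ : 1 ≤ Λ) (hε : 8 / Λ ≤ ε)
    (hA : 2 * (W * r : ℝ) * (1 / 2) ^ τ ≤ 1) (hK : 1 ≤ K) (hη : 0 ≤ η) (hM : 0 ≤ M)
    (h2 : 2 * key r τ W ((1 + 2 * r) * Λ) 2 ≤ 1) (h3 : key r τ W ((1 + 2 * r) * Λ) (2 * K + 1) ≤ ε / 8)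
    (h4 : (Λ + 1) ^ (2 * K + 1) / (2 * K + 1).factorial ≤ ε / 8)
    (hs₀ : r * (2 * τ) * (Λ * 2 ^ (2 * τ)) ≤ s₀)
    (h5 : 2 * η * ((2 * K + 2) * ((2 * K + 1) * rh r W + (1 + 2 * r) * Λ + 1) ^ (2 * K + 1)) ≤ ε / 8)
    (hS : Small (s₀ + (2 * K + 1) * (2 * r)) (2 * τ) η M)
    (T : Fin N → Term n) (hr : Read r T) (hlo : ∀ j, 1 ≤ (T j).S.card) (hW : ∀ j, (T j).S.card ≤ W) :
    Sand ε ((2 * K + 2) * (N + 1) ^ (2 * K + 1) * (2 + M)) (fun x => one (∃ j, (T j).Sat x)) := by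
  have hΛ0 : 0 < Λ := by linarith
  have hε0 : 0 < ε := lt_of_lt_of_le (by positivity) hε
  have hN1 : (1 : ℝ) ≤ (N : ℝ) + 1 := by linarith [(Nat.cast_nonneg N : (0 : ℝ) ≤ N)]
  have h2Λ : 2 / Λ ≤ ε := by
    refine le_trans ?_ hε
    gcongr
    norm_num
  have hone : 1 ≤ (2 * K + 2) * ((N : ℝ) + 1) ^ (2 * K + 1) * (2 + M) := by
    have := norm_bound (N₁ := 0) (N := N) (K := K) (M := M) (Λ := Λ) (by omega) hΛ hK hM
    have h0 : (0 : ℝ) ≤ (1 + ((0 : ℕ) : ℝ) / Λ) ^ 2 := by positivity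
    linarith
  obtain ⟨N₁, N₂, T₁, T₂, hN, hiff, hr1, hlo1, hw1, hT2⟩ := split (τ := τ) (W := W) T hτ hr hlo hW
  -- the narrow terms
  rcases narrow T₁ hr1 hlo1 hw1 hΛ0 with hbig | hcount
  · have h := hbig.sand (g := fun x => one (∃ j, (T j).Sat x))
      (fun x => one_mono fun hx => (hiff x).2 (Or.inl hx)) (fun x => one_le _) (by
        have : (0 : ℝ) ≤ (1 + (N₁ : ℝ) / Λ) ^ 2 := by positivity
        linarith)
    exact h.mono h2Λ (norm_bound (by omega) hΛ hK hM)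
  -- the wide terms
  by_cases hl : (1 + 2 * r) * Λ ≤ lam T₂
  · have h := (case_A hT2 hA hΛ0 hl).sand (g := fun x => one (∃ j, (T j).Sat x))
      (fun x => one_mono fun hx => (hiff x).2 (Or.inr hx)) (fun x => one_le _) (by
        have : (0 : ℝ) ≤ (1 + (N₂ : ℝ) / Λ) ^ 2 := by positivity
        linarith)
    exact h.mono h2Λ (norm_bound (by omega) hΛ hK hM)
  push Not at hl
  obtain ⟨k, hk, hmu, hor⟩ := exists_prefix (τ := τ) T₂ hΛ0.le
  set T' : Fin k → Term n := fun j => T₂ (Fin.castLE hk j) with hT'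
  have hwide : Wide r τ W T' := wide_prefix hT2 hk
  have hlam : lam T' ≤ (1 + 2 * r) * Λ := (lam_prefix T₂ hk).trans hl.le
  have hlam0 := lam_nonneg T'
  have hmu0 : 0 ≤ mu τ T' := mu_nonneg T'
  set Fn : List (Term n) := List.ofFn T₁ with hFn
  have hFnor : ∀ x, Or Fn x ↔ ∃ j, (T₁ j).Sat x := by
    intro x
    unfold Or
    constructor
    · rintro ⟨t, ht, hx⟩
      rw [hFn, List.mem_ofFn] at ht
      obtain ⟨j, rfl⟩ := ht
      exact ⟨j, hx⟩
    · rintro ⟨j, hx⟩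
      exact ⟨T₁ j, by rw [hFn, List.mem_ofFn]; exact ⟨j, rfl⟩, hx⟩
  have hlen : Fn.length ≤ s₀ := by
    rw [hFn, List.length_ofFn]
    have : (N₁ : ℝ) ≤ s₀ := by
      refine hcount.trans (le_trans (le_of_eq ?_) hs₀)
      push_cast
      ring
    exact_mod_cast this
  have hwid : ∀ t ∈ Fn, t.S.card ≤ 2 * τ := by
    intro t ht
    rw [hFn, List.mem_ofFn] at ht
    obtain ⟨j, rfl⟩ := ht
    exact hw1 j
  have hbon := bonferroni hwide (K := K) (w := 2 * τ) (by omega) hη hM hK Fn hlen hwid hS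
  -- the error of Bonferroni's inequalities
  have herr : mu τ T' ^ (2 * K + 1) / (2 * K + 1).factorial + key r τ W (lam T') (2 * K + 1) +
        2 * η * ((2 * K + 2) * ((2 * K + 1) * rh r W + lam T' + 1) ^ (2 * K + 1)) ≤ 3 * (ε / 8) := by
    have e1 : mu τ T' ^ (2 * K + 1) / (2 * K + 1).factorial ≤ ε / 8 := by
      refine le_trans ?_ h4
      gcongr
    have e2 := (key_mono (r := r) (τ := τ) (W := W) hlam0 hlam (2 * K + 1)).trans h3
    have e3 : 2 * η * ((2 * K + 2) * ((2 * K + 1) * rh r W + lam T' + 1) ^ (2 * K + 1)) ≤ ε / 8 := by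
      refine le_trans ?_ h5
      gcongr
    linarith
  have hbon := hbon.mono herr le_rfl
  obtain ⟨lo, up, hlu, hE, hlo', hup'⟩ := hbon
  have hkN : k ≤ N := by omega
  have hnorm : 1 + (2 * K + 2) * ((k : ℝ) + 1) ^ (2 * K + 1) * (1 + M) ≤
      (2 * K + 2) * ((N : ℝ) + 1) ^ (2 * K + 1) * (2 + M) := by
    have e1 : ((k : ℝ) + 1) ^ (2 * K + 1) ≤ ((N : ℝ) + 1) ^ (2 * K + 1) := by
      have : (k : ℝ) ≤ N := by exact_mod_cast hkN
      gcongr
    have e2 : (1 : ℝ) ≤ ((N : ℝ) + 1) ^ (2 * K + 1) := one_le_pow₀ hN1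
    have e3 : (1 : ℝ) ≤ 2 * K + 2 := by
      have : (0 : ℝ) ≤ K := Nat.cast_nonneg K
      linarith
    have e4 : (1 : ℝ) ≤ (2 * K + 2) * ((N : ℝ) + 1) ^ (2 * K + 1) := by nlinarith
    calc 1 + (2 * K + 2) * ((k : ℝ) + 1) ^ (2 * K + 1) * (1 + M)
        ≤ (2 * K + 2) * ((N : ℝ) + 1) ^ (2 * K + 1) + (2 * K + 2) * ((N : ℝ) + 1) ^ (2 * K + 1) * (1 + M) := by
          gcongr
      _ = _ := by ring
  have hnone : ∀ x, one (∃ j, (T j).Sat x) ≤ 1 - 0 := fun x => by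
    rw [sub_zero]; exact one_le _
  -- the negation is at most the function of Bonferroni
  have hge : ∀ x, 1 - one (¬ Or Fn x ∧ ∀ j, ¬ (T' j).Sat x) ≤ one (∃ j, (T j).Sat x) := by
    intro x
    rw [← one_not]
    apply one_mono
    intro h
    by_contra hcon
    apply h
    constructor
    · intro h'
      exact hcon ((hiff x).2 (Or.inl ((hFnor x).1 h')))
    · intro j hj
      exact hcon ((hiff x).2 (Or.inr ⟨_, hj⟩))
  have hup1 : L1 (fun x => 1 - up x) ≤ 1 + (2 * K + 2) * ((k : ℝ) + 1) ^ (2 * K + 1) * (1 + M) := by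
    refine (L1_sub _ _).trans ?_
    rw [L1_const, abs_one]
    linarith
  have hlo1' : L1 (fun x => 1 - lo x) ≤ 1 + (2 * K + 2) * ((k : ℝ) + 1) ^ (2 * K + 1) * (1 + M) := by
    refine (L1_sub _ _).trans ?_
    rw [L1_const, abs_one]
    linarith
  rcases hor with hkN2 | hmuΛ
  · -- all wide terms are in the prefix
    subst hkN2
    have heq : ∀ x, one (∃ j, (T j).Sat x) = 1 - one (¬ Or Fn x ∧ ∀ j, ¬ (T' j).Sat x) := by
      intro x
      refine le_antisymm ?_ (hge x)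
      rw [← one_not]
      apply one_mono
      rintro h ⟨h1, h2⟩
      rcases (hiff x).1 h with h' | ⟨j, hj⟩
      · exact h1 ((hFnor x).2 h')
      · exact h2 j hj
    refine ⟨fun x => 1 - up x, fun x => 1 - lo x, fun x => ?_, ?_, hup1.trans hnorm, hlo1'.trans hnorm⟩
    · simp only [heq]
      have := hlu x
      constructor <;> linarith [this.1, this.2]
    · rw [E_sub, E_sub]
      linarith
  · -- the mass of the prefix is large
    have hmu1 : 1 ≤ mu τ T' := hΛ.trans hmuΛ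
    have hnb := none_bound hwide (by linarith)
    have hbig : Big ε (1 + (2 * K + 2) * ((k : ℝ) + 1) ^ (2 * K + 1) * (1 + M))
        (fun x => one (∃ j, (T j).Sat x)) := by
      refine ⟨fun x => 1 - up x, fun x => ?_, ?_, hup1⟩
      · have h1 := hge x
        have h2 := (hlu x).2
        simp only at h2 ⊢
        linarith
      · rw [E_sub, E_const]
        have e1 : E lo ≤ E (fun x => one (∀ j, ¬ (T' j).Sat x)) := by
          apply E_mono
          intro x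
          refine (hlu x).1.trans (one_mono fun h => h.2)
        have e2 : (mu τ T' + 2 * key r τ W (lam T') 2) / mu τ T' ^ 2 ≤ 2 / Λ := by
          have e3 := (key_mono (r := r) (τ := τ) (W := W) hlam0 hlam 2)
          rw [div_le_div_iff₀ (by positivity) hΛ0]
          nlinarith
        have e4 : 2 / Λ ≤ ε / 4 := by
          have : 2 / Λ = (8 / Λ) / 4 := by ring
          rw [this]
          linarith
        linarith
    have h := hbig.sand (g := fun x => one (∃ j, (T j).Sat x)) (fun x => le_rfl) (fun x => one_le _) (by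
        have : (0 : ℝ) ≤ (2 * K + 2) * ((k : ℝ) + 1) ^ (2 * K + 1) * (1 + M) := by positivity
        linarith)
    exact h.mono le_rfl hnorm

end Pool.Agent.MP_ca1109_lc.Dnf
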