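import Pool.Agent.MP_ca1109_lc.Dnf.B3

/-!
# Read-bounded DNFs: heavy and near neighbours, greedy families
-/

namespace Pool.Agent.MP_ca1109_lc.Dnf

open Finset

variable {n N r τ W : ℕ} {T : Fin N → Term n}

theorem heavy_inter {i j : Fin N} (hT : Wide r τ W T) (h : Hv τ T i j) :
    (T j).S.card ≤ 2 * ((T i).S ∩ (T j).S).card := by
  have h1 := h.2
  have h2 := hT.ge j
  have h3 := card_sdiff_add_card_inter (T j).S (T i).S
  rw [inter_comm] at h3
  omega

theorem heavy_diff {i j : Fin N} (hT : Wide r τ W T) (h : Hv τ T i j) :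
    ((T i).S \ (T j).S).card ≤ τ := by
  have h1 := h.2
  have h2 : (T i).S.card ≤ (T j).S.card := hT.mono h.1.le
  have h3 := card_sdiff_add_card_inter (T j).S (T i).S
  have h4 := card_sdiff_add_card_inter (T i).S (T j).S
  rw [inter_comm] at h3
  omega

/-- Double counting: a set `A` meets the terms at most `r |A|` times. -/
theorem sum_inter_le (hr : Read r T) (A : Finset (Fin n)) (P : Finset (Fin N)) :
    ∑ i ∈ P, (A ∩ (T i).S).card ≤ r * A.card := by
  have h1 : ∀ i ∈ P, (A ∩ (T i).S).card = ∑ v ∈ A, if v ∈ (T i).S then 1 else 0 := by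
    intro i _
    rw [← card_filter, filter_mem_eq_inter]
  rw [sum_congr rfl h1, sum_comm]
  have h2 : ∀ v ∈ A, (∑ i ∈ P, if v ∈ (T i).S then 1 else 0) ≤ r := by
    intro v _
    rw [← card_filter]
    exact (card_le_card (filter_subset_filter _ (subset_univ P))).trans (hr v)
  calc ∑ v ∈ A, ∑ i ∈ P, (if v ∈ (T i).S then 1 else 0) ≤ ∑ _v ∈ A, r := sum_le_sum h2
    _ = r * A.card := by rw [sum_const, smul_eq_mul, mul_comm]

/-- Terms which meet half of `A`. -/
theorem half_le (hr : Read r T) (A : Finset (Fin n)) (hA : 0 < A.card) (P : Finset (Fin N))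
    (hP : ∀ i ∈ P, A.card ≤ 2 * (A ∩ (T i).S).card) : P.card ≤ 2 * r := by
  have h1 : ∑ _i ∈ P, A.card ≤ ∑ i ∈ P, 2 * (A ∩ (T i).S).card := sum_le_sum hP
  rw [sum_const, smul_eq_mul, ← mul_sum] at h1
  have h2 := sum_inter_le hr A P
  have h3 : P.card * A.card ≤ (2 * r) * A.card := by
    calc P.card * A.card ≤ 2 * ∑ i ∈ P, (A ∩ (T i).S).card := h1
      _ ≤ 2 * (r * A.card) := Nat.mul_le_mul_left 2 h2
      _ = (2 * r) * A.card := by ring
  exact Nat.le_of_mul_le_mul_right h3 hA

theorem S_pos (hT : Wide r τ W T) (j : Fin N) : 0 < (T j).S.card := by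
  have h1 := hT.ge j
  have h2 := hT.pos
  omega

open Classical in
theorem heavy_before (hT : Wide r τ W T) (j : Fin N) : (univ.filter fun i => Hv τ T i j).card ≤ 2 * r := by
  refine half_le hT.read (T j).S (S_pos hT j) _ fun i hi => ?_
  rw [inter_comm]
  exact heavy_inter hT (mem_filter.1 hi).2

open Classical in
theorem heavy_after (hT : Wide r τ W T) (i : Fin N) : (univ.filter fun j => Hv τ T i j).card ≤ 2 * r := by
  refine half_le hT.read (T i).S (S_pos hT i) _ fun j hj => ?_
  have h := (mem_filter.1 hj).2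
  exact (hT.mono h.1.le : (T i).S.card ≤ (T j).S.card).trans (heavy_inter hT h)

theorem ball_card (hT : Wide r τ W T) (j : Fin N) : (ball τ T j).card ≤ W * (1 + 2 * r) := by
  classical
  have h1 : ((univ.filter fun i => Hv τ T i j).biUnion fun i => (T i).S).card ≤ 2 * r * W := by
    refine card_biUnion_le.trans ?_
    calc ∑ i ∈ univ.filter (fun i => Hv τ T i j), (T i).S.card
        ≤ ∑ _i ∈ univ.filter (fun i => Hv τ T i j), W := sum_le_sum fun i _ => hT.le i
      _ = (univ.filter fun i => Hv τ T i j).card * W := by rw [sum_const, smul_eq_mul]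
      _ ≤ 2 * r * W := Nat.mul_le_mul_right W (heavy_before hT j)
  have h2 : (ball τ T j).card ≤ (T j).S.card +
      ((univ.filter fun i => Hv τ T i j).biUnion fun i => (T i).S).card := by
    unfold ball
    refine (card_union_le _ _).trans ?_
    apply le_of_eq
    congr!
  have h3 := hT.le j
  calc (ball τ T j).card ≤ W + 2 * r * W := by omega
    _ = W * (1 + 2 * r) := by ring

open Classical in
/-- A variable lies in few balls. -/
theorem var_balls (hT : Wide r τ W T) (v : Fin n) :
    (univ.filter fun j => v ∈ ball τ T j).card ≤ r * (1 + 2 * r) := by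
  have h1 : (univ.filter fun j => v ∈ ball τ T j) ⊆ (univ.filter fun j => v ∈ (T j).S) ∪
      (univ.filter fun k => v ∈ (T k).S).biUnion fun k => univ.filter fun j => Hv τ T k j := by
    intro j hj
    have hj' := (mem_filter.1 hj).2
    unfold ball at hj'
    rw [mem_union, mem_biUnion] at hj'
    rw [mem_union]
    rcases hj' with h | ⟨k, hk, hv⟩
    · exact Or.inl (mem_filter.2 ⟨mem_univ _, h⟩)
    · right
      rw [mem_biUnion]
      exact ⟨k, mem_filter.2 ⟨mem_univ _, hv⟩, mem_filter.2 ⟨mem_univ _, (mem_filter.1 hk).2⟩⟩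
  have h2 : ((univ.filter fun k => v ∈ (T k).S).biUnion
      fun k => univ.filter fun j => Hv τ T k j).card ≤ r * (2 * r) := by
    refine card_biUnion_le.trans ?_
    calc ∑ k ∈ univ.filter (fun k => v ∈ (T k).S), (univ.filter fun j => Hv τ T k j).card
        ≤ ∑ _k ∈ univ.filter (fun k => v ∈ (T k).S), 2 * r := sum_le_sum fun k _ => heavy_after hT k
      _ = (univ.filter fun k => v ∈ (T k).S).card * (2 * r) := by rw [sum_const, smul_eq_mul]
      _ ≤ r * (2 * r) := Nat.mul_le_mul_right _ (by convert hT.read v)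
  have h3 : (univ.filter fun j => v ∈ (T j).S).card ≤ r := by convert hT.read v
  calc _ ≤ _ := card_le_card h1
    _ ≤ _ := card_union_le _ _
    _ ≤ r + r * (2 * r) := Nat.add_le_add h3 h2
    _ = r * (1 + 2 * r) := by ring

open Classical in
theorem near_count (hT : Wide r τ W T) (i : Fin N) : (univ.filter fun j => Near τ T i j).card ≤ rh r W := by
  have h1 : (univ.filter fun j => Near τ T i j) ⊆
      (ball τ T i).biUnion fun v => univ.filter fun j => v ∈ ball τ T j := by
    intro j hj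
    have hj' : ¬ Disjoint (ball τ T i) (ball τ T j) := (mem_filter.1 hj).2
    rw [not_disjoint_iff] at hj'
    obtain ⟨v, hv1, hv2⟩ := hj'
    rw [mem_biUnion]
    exact ⟨v, hv1, mem_filter.2 ⟨mem_univ _, hv2⟩⟩
  calc (univ.filter fun j => Near τ T i j).card ≤ _ := card_le_card h1
    _ ≤ ∑ v ∈ ball τ T i, (univ.filter fun j => v ∈ ball τ T j).card := card_biUnion_le
    _ ≤ ∑ _v ∈ ball τ T i, r * (1 + 2 * r) := sum_le_sum fun v _ => var_balls hT v
    _ = (ball τ T i).card * (r * (1 + 2 * r)) := by rw [sum_const, smul_eq_mul]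
    _ ≤ (W * (1 + 2 * r)) * (r * (1 + 2 * r)) := Nat.mul_le_mul_right _ (ball_card hT i)
    _ = rh r W := by unfold rh; ring

theorem greedy_prefix (τ : ℕ) (T : Fin N → Term n) (k : ℕ) : ∃ I : Finset (Fin N), NoHv τ T I ∧
    (∀ i ∈ I, i.val < k) ∧ ∀ j : Fin N, j.val < k → j ∈ I ∨ ∃ i ∈ I, Hv τ T i j := by
  classical
  induction k with
  | zero => exact ⟨∅, by intro i hi; simp at hi, by simp, by simp⟩
  | succ k ih =>
    obtain ⟨I, h1, h2, h3⟩ := ih
    by_cases hk : k < N
    · by_cases hex : ∃ i ∈ I, Hv τ T i ⟨k, hk⟩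
      · refine ⟨I, h1, fun i hi => (h2 i hi).trans (Nat.lt_succ_self k), fun j hj => ?_⟩
        rcases Nat.lt_succ_iff_lt_or_eq.1 hj with h | h
        · exact h3 j h
        · right
          have : j = ⟨k, hk⟩ := Fin.ext h
          rw [this]
          exact hex
      · refine ⟨insert ⟨k, hk⟩ I, ?_, ?_, fun j hj => ?_⟩
        · intro i hi j hj h
          rcases mem_insert.1 hi with rfl | hi'
          · rcases mem_insert.1 hj with rfl | hj'
            · exact lt_irrefl _ h.1
            · have ha := h2 j hj'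
              have hb : k < j.val := h.1
              omega
          · rcases mem_insert.1 hj with rfl | hj'
            · exact hex ⟨i, hi', h⟩
            · exact h1 i hi' j hj' h
        · intro i hi
          rcases mem_insert.1 hi with rfl | hi'
          · exact Nat.lt_succ_self k
          · exact (h2 i hi').trans (Nat.lt_succ_self k)
        · rcases Nat.lt_succ_iff_lt_or_eq.1 hj with h | h
          · rcases h3 j h with h' | ⟨i, hi, h'⟩
            · exact Or.inl (mem_insert_of_mem h')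
            · exact Or.inr ⟨i, mem_insert_of_mem hi, h'⟩
          · left
            have : j = ⟨k, hk⟩ := Fin.ext h
            rw [this]
            exact mem_insert_self _ _
    · refine ⟨I, h1, fun i hi => (h2 i hi).trans (Nat.lt_succ_self k), fun j hj => ?_⟩
      exact h3 j (lt_of_lt_of_le j.isLt (not_lt.1 hk))

theorem greedy (hT : Wide r τ W T) : ∃ I : Finset (Fin N), NoHv τ T I ∧
    lam T ≤ (1 + 2 * r) * ∑ i ∈ I, (1 / 2 : ℝ) ^ (T i).S.card := by
  classical
  obtain ⟨I, h1, -, h3⟩ := greedy_prefix τ T N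
  refine ⟨I, h1, ?_⟩
  have hp : ∀ j : Fin N, (0 : ℝ) ≤ (1 / 2 : ℝ) ^ (T j).S.card := fun j => by positivity
  have ha : lam T = ∑ j ∈ I, (1 / 2 : ℝ) ^ (T j).S.card + ∑ j ∈ Iᶜ, (1 / 2 : ℝ) ^ (T j).S.card :=
    (sum_add_sum_compl I _).symm
  have hb : ∑ j ∈ Iᶜ, (1 / 2 : ℝ) ^ (T j).S.card ≤
      ∑ j ∈ Iᶜ, ∑ i ∈ I, if Hv τ T i j then (1 / 2 : ℝ) ^ (T i).S.card else 0 := by
    refine sum_le_sum fun j hj => ?_
    rcases h3 j j.isLt with h | ⟨i, hi, h⟩
    · exact absurd h (mem_compl.1 hj)
    · have hc : (1 / 2 : ℝ) ^ (T j).S.card ≤ (1 / 2 : ℝ) ^ (T i).S.card :=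
        pow_le_pow_of_le_one (by norm_num) (by norm_num) (hT.mono h.1.le)
      refine hc.trans ?_
      have hd := single_le_sum (f := fun i => if Hv τ T i j then (1 / 2 : ℝ) ^ (T i).S.card else 0)
        (fun i _ => by split_ifs; exacts [hp i, le_rfl]) hi
      simpa [h] using hd
  have hc : ∑ j ∈ Iᶜ, ∑ i ∈ I, (if Hv τ T i j then (1 / 2 : ℝ) ^ (T i).S.card else 0) ≤
      ∑ i ∈ I, (2 * r) * (1 / 2 : ℝ) ^ (T i).S.card := by
    rw [sum_comm]
    refine sum_le_sum fun i _ => ?_
    calc ∑ j ∈ Iᶜ, (if Hv τ T i j then (1 / 2 : ℝ) ^ (T i).S.card else 0)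
        ≤ ∑ j, (if Hv τ T i j then (1 / 2 : ℝ) ^ (T i).S.card else 0) :=
          sum_le_sum_of_subset_of_nonneg (subset_univ _) fun j _ _ => by
            split_ifs; exacts [hp i, le_rfl]
      _ = (univ.filter fun j => Hv τ T i j).card * (1 / 2 : ℝ) ^ (T i).S.card := by
          rw [← sum_filter, sum_const, nsmul_eq_mul]
      _ ≤ (2 * r) * (1 / 2 : ℝ) ^ (T i).S.card := by
          refine mul_le_mul_of_nonneg_right ?_ (hp i)
          exact_mod_cast heavy_after hT i
  rw [ha, add_mul, one_mul, mul_sum]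
  exact add_le_add le_rfl (hb.trans hc)

/-- The number of terms which meet a given one. -/
theorem meet_count (hT : Wide r τ W T) (i : Fin N) :
    (univ.filter fun j => ¬ Disjoint (T i).S (T j).S).card ≤ W * r := by
  have h1 : (univ.filter fun j => ¬ Disjoint (T i).S (T j).S) ⊆
      (T i).S.biUnion fun v => univ.filter fun j => v ∈ (T j).S := by
    intro j hj
    have hj' := (mem_filter.1 hj).2
    rw [not_disjoint_iff] at hj'
    obtain ⟨v, hv1, hv2⟩ := hj'
    rw [mem_biUnion]
    exact ⟨v, hv1, mem_filter.2 ⟨mem_univ _, hv2⟩⟩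
  calc (univ.filter fun j => ¬ Disjoint (T i).S (T j).S).card ≤ _ := card_le_card h1
    _ ≤ ∑ v ∈ (T i).S, (univ.filter fun j => v ∈ (T j).S).card := card_biUnion_le
    _ ≤ ∑ _v ∈ (T i).S, r := sum_le_sum fun v _ => hT.read v
    _ = (T i).S.card * r := by rw [sum_const, smul_eq_mul]
    _ ≤ W * r := Nat.mul_le_mul_right _ (hT.le i)

end Pool.Agent.MP_ca1109_lc.Dnf
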