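import Pool.Agent.MP_ca1109_lc.Dnf.M3

/-!
# Read-bounded DNFs: the sums over sets of terms
-/

namespace Pool.Agent.MP_ca1109_lc.Dnf

open Finset

variable {n N r τ W : ℕ} {T : Fin N → Term n}

/- ROW M4.  PROOF.
* `add_one`: `c` near some `j ∈ J` (at most `|J| * rh r W` such `c`): `pJ (insert c J) ≤ pJ J`; otherwise `S_c` is disjoint from all `S_j`, `j ∈ J`, and
  `pJ (insert c J) = pJ J * E t_c` (`E_indep`), and the sum of the `E t_c` is at most `lam T`.
* `sum_sets`: induction on `m`: a set of size `m + 1` is `insert c J`, `|J| = m`; `add_one`.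
* `two`: `|J| = 2`, no heavy pair, not far: `J = {a, b}`, `a < b` near, not heavy: `E (t_a t_b) ≤ (1/2)^(|S_a| + |S_b \ S_a|) ≤ (1/2)^|S_a| (1/2)^τ`
  (`E_two`); sum over the near `b`, then over `a`.
* `key_bound`: induction on `m ≥ 2`: a set of size `m + 1 ≥ 3` which is not far contains a near pair and a third element `c`; remove `c`; `add_one`. -/

theorem sum_le_of_cover {α β : Type*} (s : Finset β) (t : Finset α) (g : α → β) (f : β → ℝ)
    (hf : ∀ b, 0 ≤ f b) (h : ∀ b ∈ s, ∃ a ∈ t, g a = b) : ∑ b ∈ s, f b ≤ ∑ a ∈ t, f (g a) := by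
  classical
  have h1 : s ⊆ t.image g := fun b hb => by
    obtain ⟨a, ha, hab⟩ := h b hb
    exact mem_image.mpr ⟨a, ha, hab⟩
  refine (sum_le_sum_of_subset_of_nonneg h1 fun b _ _ => hf b).trans ?_
  have h2 := sum_fiberwise_of_maps_to (s := t) (t := t.image g) (g := g)
    (fun a ha => mem_image_of_mem g ha) (fun a => f (g a))
  rw [← h2]
  refine sum_le_sum fun b hb => ?_
  obtain ⟨a, ha, rfl⟩ := mem_image.mp hb
  exact single_le_sum (f := fun a => f (g a)) (fun _ _ => hf _) (mem_filter.mpr ⟨ha, rfl⟩)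

theorem Near.symm {i j : Fin N} (h : Near τ T i j) : Near τ T j i := fun hd => h hd.symm

theorem subset_ball (j : Fin N) : (T j).S ⊆ ball τ T j := by
  classical
  unfold ball
  exact subset_union_left

theorem disjoint_of_not_near {i j : Fin N} (h : ¬ Near τ T i j) : Disjoint (T i).S (T j).S :=
  (not_not.mp h).mono (subset_ball i) (subset_ball j)

open Classical in
theorem pJ_insert {J : Finset (Fin N)} {c : Fin N} (hc : c ∉ J)
    (h : ∀ j ∈ J, Disjoint (T j).S (T c).S) :
    pJ T (insert c J) = pJ T J * (1 / 2 : ℝ) ^ (T c).S.card := by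
  have h1 : (fun x => ∏ j ∈ insert c J, (T j).f x) =
      fun x => (∏ j ∈ J, (T j).f x) * (T c).f x := by
    funext x
    rw [prod_insert hc, mul_comm]
  have hon : On (J.biUnion fun j => (T j).S) (fun x => ∏ j ∈ J, (T j).f x) := by
    intro x y hxy
    refine prod_congr rfl fun j hj => ?_
    exact on_term (T j) x y fun i hi => hxy i (mem_biUnion.mpr ⟨j, hj, hi⟩)
  have hdis : Disjoint (J.biUnion fun j => (T j).S) (T c).S := by
    rw [disjoint_biUnion_left]
    exact h
  unfold pJ
  rw [h1, E_indep hdis hon (on_term (T c)), E_term]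

open Classical in
theorem add_one (hT : Wide r τ W T) (J : Finset (Fin N)) :
    ∑ c ∈ univ \ J, pJ T (insert c J) ≤ pJ T J * (J.card * rh r W + lam T) := by
  have hp := pJ_nonneg T J
  have h1 : ∀ c ∈ univ \ J, pJ T (insert c J) ≤
      pJ T J * ((∑ j ∈ J, if Near τ T j c then (1 : ℝ) else 0) + (1 / 2 : ℝ) ^ (T c).S.card) := by
    intro c hc
    have hcJ : c ∉ J := (mem_sdiff.mp hc).2
    by_cases h : ∃ j ∈ J, Near τ T j c
    · obtain ⟨j, hj, hn⟩ := h
      have h2 : (1 : ℝ) ≤ ∑ j ∈ J, if Near τ T j c then (1 : ℝ) else 0 := by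
        have := single_le_sum (f := fun j => if Near τ T j c then (1 : ℝ) else 0)
          (fun i _ => by positivity) hj
        simpa [hn] using this
      have h3 : (0 : ℝ) ≤ (1 / 2 : ℝ) ^ (T c).S.card := by positivity
      calc pJ T (insert c J) ≤ pJ T J := pJ_le T (subset_insert c J)
        _ = pJ T J * 1 := (mul_one _).symm
        _ ≤ _ := mul_le_mul_of_nonneg_left (by linarith) hp
    · push Not at h
      have h3 : (0 : ℝ) ≤ ∑ j ∈ J, if Near τ T j c then (1 : ℝ) else 0 :=
        sum_nonneg fun i _ => by positivity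
      rw [pJ_insert hcJ fun j hj => disjoint_of_not_near (h j hj)]
      exact mul_le_mul_of_nonneg_left (by linarith) hp
  refine (sum_le_sum h1).trans ?_
  rw [← mul_sum, sum_add_distrib]
  refine mul_le_mul_of_nonneg_left (add_le_add ?_ ?_) hp
  · rw [sum_comm, ← nsmul_eq_mul]
    refine sum_le_card_nsmul _ _ _ fun j _ => ?_
    rw [← sum_filter, sum_const, nsmul_eq_mul, mul_one]
    have h4 := near_count hT j
    have h5 : ((univ \ J).filter fun c => Near τ T j c).card ≤
        (univ.filter fun c => Near τ T j c).card :=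
      card_le_card (filter_subset_filter _ (subset_univ _))
    exact_mod_cast h5.trans h4
  · exact sum_le_sum_of_subset_of_nonneg (subset_univ _) fun i _ _ => by positivity

theorem lam_nonneg (T : Fin N → Term n) : 0 ≤ lam T := sum_nonneg fun _ _ => by positivity

open Classical in
/-- Remove one element. -/
theorem sum_step (P P' : Finset (Fin N) → Prop) [DecidablePred P] [DecidablePred P'] (m : ℕ)
    (h : ∀ J' : Finset (Fin N), J'.card = m + 1 → P' J' → ∃ c ∈ J', P (J'.erase c)) :
    ∑ J' ∈ (powersetCard (m + 1) (univ : Finset (Fin N))).filter P', pJ T J' ≤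
      ∑ J ∈ (powersetCard m (univ : Finset (Fin N))).filter P, ∑ c ∈ univ \ J, pJ T (insert c J) := by
  rw [sum_sigma']
  refine sum_le_of_cover _ _ (fun p : (_ : Finset (Fin N)) × Fin N => insert p.2 p.1)
    (pJ T) (pJ_nonneg T) fun J' hJ' => ?_
  rw [mem_filter, mem_powersetCard] at hJ'
  obtain ⟨c, hc, hP⟩ := h J' hJ'.1.2 hJ'.2
  refine ⟨⟨J'.erase c, c⟩, ?_, insert_erase hc⟩
  rw [mem_sigma, mem_filter, mem_powersetCard, mem_sdiff]
  refine ⟨⟨⟨subset_univ _, ?_⟩, hP⟩, mem_univ _, notMem_erase c J'⟩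
  rw [card_erase_of_mem hc, hJ'.1.2, Nat.add_sub_cancel]

open Classical in
theorem sum_step' (hT : Wide r τ W T) (P P' : Finset (Fin N) → Prop) [DecidablePred P]
    [DecidablePred P'] (m : ℕ)
    (h : ∀ J' : Finset (Fin N), J'.card = m + 1 → P' J' → ∃ c ∈ J', P (J'.erase c)) :
    ∑ J' ∈ (powersetCard (m + 1) (univ : Finset (Fin N))).filter P', pJ T J' ≤
      (∑ J ∈ (powersetCard m (univ : Finset (Fin N))).filter P, pJ T J) * (m * rh r W + lam T) := by
  refine (sum_step P P' m h).trans ?_
  rw [sum_mul]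
  refine sum_le_sum fun J hJ => ?_
  have hc : J.card = m := (mem_powersetCard.mp (mem_filter.mp hJ).1).2
  have := add_one hT J
  rwa [hc] at this

open Classical in
theorem sum_sets (hT : Wide r τ W T) (m : ℕ) :
    ∑ J ∈ powersetCard m (univ : Finset (Fin N)), pJ T J ≤ (m * rh r W + lam T) ^ m := by
  have hl := lam_nonneg T
  induction m with
  | zero =>
    rw [powersetCard_zero, sum_singleton, pow_zero]
    have : pJ T ∅ = 1 := by
      unfold pJ
      simp only [prod_empty]
      exact E_const 1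
    rw [this]
  | succ m ih =>
    have h1 := sum_step' hT (fun _ => True) (fun _ => True) m fun J' hJ' _ => by
      have : J'.Nonempty := by
        rw [← card_pos, hJ']
        exact Nat.succ_pos m
      obtain ⟨c, hc⟩ := this
      exact ⟨c, hc, trivial⟩
    simp only [filter_true] at h1
    have h0 : (0 : ℝ) ≤ m * rh r W + lam T := by positivity
    refine h1.trans ?_
    rw [pow_succ]
    have h2 : (m * rh r W + lam T : ℝ) ≤ ((m + 1 : ℕ) : ℝ) * rh r W + lam T := by
      push_cast
      have : (0 : ℝ) ≤ (rh r W : ℝ) := Nat.cast_nonneg _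
      linarith
    exact mul_le_mul (ih.trans (pow_le_pow_left₀ h0 h2 m)) h2 h0 (pow_nonneg (h0.trans h2) m)

open Classical in
theorem two_bound (hT : Wide r τ W T) :
    ∑ J ∈ (powersetCard 2 (univ : Finset (Fin N))).filter (fun J => NoHv τ T J ∧ ¬ Far τ T J),
      pJ T J ≤ lam T * rh r W * (1 / 2 : ℝ) ^ τ := by
  have h1 : ∑ J ∈ (powersetCard 2 (univ : Finset (Fin N))).filter
      (fun J => NoHv τ T J ∧ ¬ Far τ T J), pJ T J ≤
      ∑ p ∈ (univ : Finset (Fin N)).sigma fun a => univ.filter fun b => Near τ T a b ∧ a < b ∧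
        ¬ Hv τ T a b, pJ T {p.1, p.2} := by
    refine sum_le_of_cover _ _ (fun p : (_ : Fin N) × Fin N => ({p.1, p.2} : Finset (Fin N)))
      (pJ T) (pJ_nonneg T) fun J hJ => ?_
    rw [mem_filter, mem_powersetCard] at hJ
    obtain ⟨⟨_, hc⟩, hN, hF⟩ := hJ
    unfold Far at hF
    push Not at hF
    obtain ⟨i, hi, j, hj, hij, hn⟩ := hF
    have hJ : J = {i, j} := by
      symm
      refine eq_of_subset_of_card_le ?_ ?_
      · intro k hk
        rw [mem_insert, mem_singleton] at hk
        rcases hk with rfl | rfl <;> assumption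
      · rw [hc, card_pair hij]
    rcases lt_or_gt_of_ne hij with hlt | hlt
    · refine ⟨⟨i, j⟩, ?_, hJ.symm⟩
      rw [mem_sigma, mem_filter]
      exact ⟨mem_univ _, mem_univ _, hn, hlt, hN i hi j hj⟩
    · refine ⟨⟨j, i⟩, ?_, ?_⟩
      · rw [mem_sigma, mem_filter]
        exact ⟨mem_univ _, mem_univ _, hn.symm, hlt, hN j hj i hi⟩
      · simp only
        rw [hJ, pair_comm]
  refine h1.trans ?_
  rw [sum_sigma]
  have h2 : ∀ a ∈ (univ : Finset (Fin N)),
      ∑ b ∈ univ.filter (fun b => Near τ T a b ∧ a < b ∧ ¬ Hv τ T a b), pJ T {a, b} ≤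
        (1 / 2 : ℝ) ^ (T a).S.card * (rh r W * (1 / 2 : ℝ) ^ τ) := by
    intro a _
    have h3 : ∀ b ∈ univ.filter (fun b => Near τ T a b ∧ a < b ∧ ¬ Hv τ T a b),
        pJ T {a, b} ≤ (1 / 2 : ℝ) ^ (T a).S.card * (1 / 2 : ℝ) ^ τ := by
      intro b hb
      rw [mem_filter] at hb
      obtain ⟨_, _, hlt, hh⟩ := hb
      have h4 : pJ T {a, b} = E fun x => (T a).f x * (T b).f x := by
        unfold pJ
        congr 1
        funext x
        rw [prod_pair hlt.ne]
      have h5 : τ ≤ ((T b).S \ (T a).S).card := by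
        by_contra hcon
        exact hh ⟨hlt, by omega⟩
      rw [h4]
      refine (E_two _ _).trans ?_
      rw [pow_add]
      refine mul_le_mul_of_nonneg_left ?_ (by positivity)
      exact pow_le_pow_of_le_one (by norm_num) (by norm_num) h5
    refine (sum_le_card_nsmul _ _ _ h3).trans ?_
    rw [nsmul_eq_mul]
    have h6 : ((univ.filter fun b => Near τ T a b ∧ a < b ∧ ¬ Hv τ T a b).card : ℝ) ≤ rh r W := by
      have h7 := near_count hT a
      have h8 : (univ.filter fun b => Near τ T a b ∧ a < b ∧ ¬ Hv τ T a b).card ≤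
          (univ.filter fun b => Near τ T a b).card := by
        refine card_le_card fun b hb => ?_
        rw [mem_filter] at hb ⊢
        exact ⟨hb.1, hb.2.1⟩
      exact_mod_cast h8.trans h7
    calc _ ≤ (rh r W : ℝ) * ((1 / 2 : ℝ) ^ (T a).S.card * (1 / 2 : ℝ) ^ τ) :=
          mul_le_mul_of_nonneg_right h6 (by positivity)
      _ = _ := by ring
  refine (sum_le_sum h2).trans (le_of_eq ?_)
  rw [← sum_mul]
  unfold lam
  ring

open Classical in
theorem key_bound (hT : Wide r τ W T) (m : ℕ) (hm : 2 ≤ m) :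
    ∑ J ∈ (powersetCard m (univ : Finset (Fin N))).filter (fun J => NoHv τ T J ∧ ¬ Far τ T J), pJ T J ≤
      key r τ W (lam T) m := by
  have hl := lam_nonneg T
  induction m, hm using Nat.le_induction with
  | base =>
    refine (two_bound hT).trans (le_of_eq ?_)
    unfold key
    simp
  | succ m hm ih =>
    have h1 := sum_step' hT (fun J => NoHv τ T J ∧ ¬ Far τ T J) (fun J => NoHv τ T J ∧ ¬ Far τ T J) m
      fun J' hJ' hP => by
        obtain ⟨hN, hF⟩ := hP
        unfold Far at hF
        push Not at hF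
        obtain ⟨i, hi, j, hj, hij, hn⟩ := hF
        obtain ⟨c, hc, hc'⟩ : ∃ c ∈ J', c ∉ ({i, j} : Finset (Fin N)) := by
          by_contra hcon
          push Not at hcon
          have h2 := card_le_card (show J' ⊆ ({i, j} : Finset (Fin N)) from hcon)
          rw [card_pair hij, hJ'] at h2
          omega
        rw [mem_insert, mem_singleton, not_or] at hc'
        refine ⟨c, hc, fun a ha b hb => hN a (mem_of_mem_erase ha) b (mem_of_mem_erase hb), ?_⟩
        intro hfar
        exact hfar i (mem_erase.mpr ⟨Ne.symm hc'.1, hi⟩) j (mem_erase.mpr ⟨Ne.symm hc'.2, hj⟩) hij hn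
    refine h1.trans ?_
    have h0 : (0 : ℝ) ≤ m * rh r W + lam T := by positivity
    refine (mul_le_mul_of_nonneg_right ih h0).trans ?_
    unfold key
    obtain ⟨k, rfl⟩ := Nat.exists_eq_add_of_le hm
    have h3 : 2 + k + 1 - 2 = k + 1 := by omega
    have h4 : 2 + k - 2 = k := by omega
    rw [h3, h4, pow_succ, mul_assoc (lam T * rh r W * (1 / 2 : ℝ) ^ τ)]
    refine mul_le_mul_of_nonneg_left ?_ (by positivity)
    have h2 : (((2 + k : ℕ) : ℝ) * rh r W + lam T : ℝ) ≤ ((2 + k + 1 : ℕ) : ℝ) * rh r W + lam T := by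
      push_cast
      have : (0 : ℝ) ≤ (rh r W : ℝ) := Nat.cast_nonneg _
      linarith
    exact mul_le_mul (pow_le_pow_left₀ h0 h2 k) h2 h0 (pow_nonneg (h0.trans h2) k)

end Pool.Agent.MP_ca1109_lc.Dnf
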