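import Pool.Agent.MP_ca1109_lc.Dnf.M5a
import Pool.Agent.MP_ca1109_lc.Dnf.M7a

/-!
# Read-bounded DNFs: the probability that no wide term is satisfied
-/

namespace Pool.Agent.MP_ca1109_lc.Dnf

open Finset

variable {n N r τ W : ℕ} {T : Fin N → Term n}

theorem Z_cases (j : Fin N) (x : Cube n) : Z τ T j x = 0 ∨ Z τ T j x = 1 := by
  unfold Z
  by_cases h : ZP τ T j x
  · exact Or.inr (one_true h)
  · exact Or.inl (one_false h)

/-- No term is satisfied iff all `Z_j` vanish. -/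
theorem none_iff (x : Cube n) : (∀ j, ¬ (T j).Sat x) ↔ ∀ j, Z τ T j x = 0 := by
  constructor
  · intro h j
    exact one_false fun h1 => h j h1.1
  · intro h
    by_contra hcon
    push Not at hcon
    have hex : ∃ k : ℕ, ∃ hk : k < N, (T ⟨k, hk⟩).Sat x := by
      obtain ⟨j, hj⟩ := hcon
      exact ⟨j, j.2, hj⟩
    classical
    obtain ⟨hk, hs⟩ := Nat.find_spec hex
    have h1 : ZP τ T ⟨Nat.find hex, hk⟩ x := by
      refine ⟨hs, fun i hi hi' => ?_⟩
      exact Nat.find_min hex (show (i : ℕ) < Nat.find hex from hi.1) ⟨i.2, hi'⟩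
    have h2 := h ⟨Nat.find hex, hk⟩
    unfold Z at h2
    rw [one_true h1] at h2
    exact one_ne_zero h2

theorem sum_sq (x : Cube n) : (∑ j, Z τ T j x) ^ 2 =
    ∑ j, Z τ T j x + 2 * ∑ J ∈ powersetCard 2 (univ : Finset (Fin N)), ∏ j ∈ J, Z τ T j x := by
  classical
  have h1 := sum_prod_choose (fun j => Z τ T j x) (fun j => Z_cases j x) 1
  have h2 := sum_prod_choose (fun j => Z τ T j x) (fun j => Z_cases j x) 2
  rw [Nat.cast_choose_two] at h2
  rw [Nat.choose_one_right, Finset.powersetCard_one, Finset.sum_map] at h1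
  simp only [Function.Embedding.coeFn_mk, Finset.prod_singleton] at h1
  rw [h2, h1]
  ring

theorem none_bound (hT : Wide r τ W T) (hμ : 0 < mu τ T) :
    E (fun x => one (∀ j, ¬ (T j).Sat x)) ≤ (mu τ T + 2 * key r τ W (lam T) 2) / mu τ T ^ 2 := by
  set m := mu τ T with hm
  have hX : E (fun x => ∑ j, Z τ T j x) = m := E_sum univ _
  have hmom := moment_bound hT 2 le_rfl
  rw [← hm, ← E_sum] at hmom
  have h1 : ∀ x, one (∀ j, ¬ (T j).Sat x) ≤ 1 / m ^ 2 * (∑ j, Z τ T j x - m) ^ 2 := by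
    intro x
    by_cases h : ∀ j, ¬ (T j).Sat x
    · rw [one_true h]
      have h0 : ∑ j, Z τ T j x = 0 := Finset.sum_eq_zero fun j _ => (none_iff x).1 h j
      rw [h0]
      apply le_of_eq
      field_simp
      ring
    · rw [one_false h]
      positivity
  refine (E_mono h1).trans ?_
  have h2 : ∀ x, 1 / m ^ 2 * (∑ j, Z τ T j x - m) ^ 2 = 1 / m ^ 2 * ((∑ j, Z τ T j x +
      2 * ∑ J ∈ powersetCard 2 (univ : Finset (Fin N)), ∏ j ∈ J, Z τ T j x) -
        ((2 * m) * (∑ j, Z τ T j x) - m ^ 2)) := by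
    intro x
    rw [← sum_sq]
    ring
  simp only [h2]
  rw [E_smul, E_sub, E_add, E_smul, E_sub, E_smul, E_const, hX]
  rw [one_div_mul_eq_div]
  apply div_le_div_of_nonneg_right _ (by positivity)
  have hf : ((2 : ℕ).factorial : ℝ) = 2 := by norm_num
  rw [hf] at hmom
  linarith

end Pool.Agent.MP_ca1109_lc.Dnf
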