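import Pool.Agent.MP_ca1109_lc.Dnf.M5b
import Pool.Agent.MP_ca1109_lc.Dnf.M6
import Pool.Agent.MP_ca1109_lc.Dnf.M7a

/-!
# Read-bounded DNFs: inclusion and exclusion
-/

namespace Pool.Agent.MP_ca1109_lc.Dnf

open Finset

variable {n N r τ W : ℕ} {T : Fin N → Term n}

/-- Sandwiches of the alternating sums. -/
theorem alt_sand (T : Fin N → Term n) {K : ℕ} {η M : ℝ} (H : Finset (Fin N) → Cube n → ℝ)
    (hH : ∀ J : Finset (Fin N), J.card ≤ 2 * K + 1 → Sand (η * pJ T J) (1 + M) (H J)) (k : ℕ)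
    (hk : k ≤ 2 * K + 2) :
    Sand (∑ m ∈ range k, ∑ J ∈ powersetCard m (univ : Finset (Fin N)), η * pJ T J)
      (∑ m ∈ range k, ∑ J ∈ powersetCard m (univ : Finset (Fin N)), (1 + M))
      (fun x => ∑ m ∈ range k, (-1 : ℝ) ^ m * ∑ J ∈ powersetCard m univ, H J x) := by
  refine Sand.sum _ fun m hm => ?_
  have h1 : Sand (∑ J ∈ powersetCard m (univ : Finset (Fin N)), η * pJ T J)
      (∑ J ∈ powersetCard m (univ : Finset (Fin N)), (1 + M))
      (fun x => ∑ J ∈ powersetCard m univ, H J x) := by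
    refine Sand.sum _ fun J hJ => hH J ?_
    rw [(mem_powersetCard.1 hJ).2]
    have := mem_range.1 hm
    omega
  have h2 := h1.smul ((-1) ^ m)
  simpa only [abs_pow, abs_neg, abs_one, one_pow, one_mul] using h2

/-- The sum of the errors. -/
theorem alt_err (hT : Wide r τ W T) {K : ℕ} {η : ℝ} (hη : 0 ≤ η) (k : ℕ) (hk : k ≤ 2 * K + 2) :
    ∑ m ∈ range k, ∑ J ∈ powersetCard m (univ : Finset (Fin N)), η * pJ T J ≤
      η * ((2 * K + 2) * ((2 * K + 1) * rh r W + lam T + 1) ^ (2 * K + 1)) := by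
  have hl : 0 ≤ lam T := Finset.sum_nonneg fun j _ => by positivity
  have hX : 1 ≤ (2 * (K : ℝ) + 1) * rh r W + lam T + 1 := by
    have : 0 ≤ (2 * (K : ℝ) + 1) * rh r W := by positivity
    linarith
  have h1 : ∀ m ∈ range k, ∑ J ∈ powersetCard m (univ : Finset (Fin N)), η * pJ T J ≤
      η * ((2 * K + 1) * rh r W + lam T + 1) ^ (2 * K + 1) := by
    intro m hm
    have hmk : m ≤ 2 * K + 1 := by
      have := mem_range.1 hm
      omega
    have hmk' : (m : ℝ) ≤ 2 * K + 1 := by exact_mod_cast hmk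
    rw [← Finset.mul_sum]
    refine mul_le_mul_of_nonneg_left ?_ hη
    calc ∑ J ∈ powersetCard m (univ : Finset (Fin N)), pJ T J ≤ (m * rh r W + lam T) ^ m :=
          sum_sets hT m
      _ ≤ ((2 * K + 1) * rh r W + lam T + 1) ^ m := by
          apply pow_le_pow_left₀ (by positivity)
          have : (m : ℝ) * rh r W ≤ (2 * K + 1) * rh r W := by gcongr
          linarith
      _ ≤ ((2 * K + 1) * rh r W + lam T + 1) ^ (2 * K + 1) := pow_le_pow_right₀ hX hmk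
  refine (Finset.sum_le_sum h1).trans ?_
  rw [Finset.sum_const, card_range, nsmul_eq_mul]
  have hk' : (k : ℝ) ≤ 2 * K + 2 := by exact_mod_cast hk
  calc (k : ℝ) * (η * ((2 * K + 1) * rh r W + lam T + 1) ^ (2 * K + 1)) ≤
        (2 * K + 2) * (η * ((2 * K + 1) * rh r W + lam T + 1) ^ (2 * K + 1)) := by gcongr
    _ = _ := by ring

/-- The sum of the norms. -/
theorem alt_norm (N : ℕ) {K : ℕ} {M : ℝ} (hM : 0 ≤ M) (k : ℕ) (hk : k ≤ 2 * K + 2) :
    ∑ m ∈ range k, ∑ J ∈ powersetCard m (univ : Finset (Fin N)), (1 + M) ≤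
      (2 * K + 2) * (N + 1) ^ (2 * K + 1) * (1 + M) := by
  have h1 : ∀ m ∈ range k, ∑ J ∈ powersetCard m (univ : Finset (Fin N)), (1 + M) ≤
      ((N : ℝ) + 1) ^ (2 * K + 1) * (1 + M) := by
    intro m hm
    have hmk : m ≤ 2 * K + 1 := by
      have := mem_range.1 hm
      omega
    rw [Finset.sum_const, nsmul_eq_mul, card_powersetCard, card_univ, Fintype.card_fin]
    gcongr
    have h2 : (N.choose m : ℝ) ≤ (N : ℝ) ^ m := by exact_mod_cast Nat.choose_le_pow N m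
    have hN : (0 : ℝ) ≤ N := by positivity
    calc (N.choose m : ℝ) ≤ (N : ℝ) ^ m := h2
      _ ≤ ((N : ℝ) + 1) ^ m := by gcongr; linarith
      _ ≤ ((N : ℝ) + 1) ^ (2 * K + 1) := pow_le_pow_right₀ (by linarith) hmk
  refine (Finset.sum_le_sum h1).trans ?_
  rw [Finset.sum_const, card_range, nsmul_eq_mul]
  have hk' : (k : ℝ) ≤ 2 * K + 2 := by exact_mod_cast hk
  calc (k : ℝ) * (((N : ℝ) + 1) ^ (2 * K + 1) * (1 + M)) ≤
        (2 * K + 2) * (((N : ℝ) + 1) ^ (2 * K + 1) * (1 + M)) := by gcongr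
    _ = _ := by ring

theorem Z_zero_or (τ : ℕ) (T : Fin N → Term n) (j : Fin N) (x : Cube n) :
    Z τ T j x = 0 ∨ Z τ T j x = 1 := by
  unfold Z
  by_cases h : ZP τ T j x
  · exact Or.inr (one_true h)
  · exact Or.inl (one_false h)

theorem bonferroni (hT : Wide r τ W T) {s₀ w K : ℕ} {η M : ℝ} (hw : τ ≤ w) (hη : 0 ≤ η) (hM : 0 ≤ M)
    (hK : 1 ≤ K) (Fn : List (Term n)) (hlen : Fn.length ≤ s₀) (hwid : ∀ t ∈ Fn, t.S.card ≤ w)
    (hS : Small (s₀ + (2 * K + 1) * (2 * r)) w η M) :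
    Sand (mu τ T ^ (2 * K + 1) / (2 * K + 1).factorial + key r τ W (lam T) (2 * K + 1) +
        2 * η * ((2 * K + 2) * ((2 * K + 1) * rh r W + lam T + 1) ^ (2 * K + 1)))
      ((2 * K + 2) * (N + 1) ^ (2 * K + 1) * (1 + M))
      (fun x => one (¬ Or Fn x ∧ ∀ j, ¬ (T j).Sat x)) := by
  classical
  obtain ⟨H, hHd⟩ : ∃ H : Finset (Fin N) → Cube n → ℝ,
    H = fun J x => one (¬ Or Fn x) * ∏ j ∈ J, Z τ T j x := ⟨_, rfl⟩
  have hH : ∀ J : Finset (Fin N), J.card ≤ 2 * K + 1 → Sand (η * pJ T J) (1 + M) (H J) := by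
    intro J hJ
    rw [hHd]
    exact product_form hT hw Fn hlen hwid hS J hJ
  have hHJ : ∀ J x, H J x = one (¬ Or Fn x) * ∏ j ∈ J, Z τ T j x := fun J x => by rw [hHd]
  have hpull : ∀ k x, ∑ m ∈ range k, (-1 : ℝ) ^ m * ∑ J ∈ powersetCard m univ, H J x =
      one (¬ Or Fn x) * ∑ m ∈ range k, (-1 : ℝ) ^ m *
        ∑ J ∈ powersetCard m univ, ∏ j ∈ J, Z τ T j x := by
    intro k x
    rw [Finset.mul_sum]
    refine Finset.sum_congr rfl fun m _ => ?_
    rw [Finset.mul_sum, Finset.mul_sum, Finset.mul_sum]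
    refine Finset.sum_congr rfl fun J _ => ?_
    rw [hHJ]
    ring
  have hf : ∀ x, one (¬ Or Fn x ∧ ∀ j, ¬ (T j).Sat x) =
      one (¬ Or Fn x) * one (∀ j, Z τ T j x = 0) := by
    intro x
    rw [one_and]
    congr 1
    by_cases h : ∀ j, ¬ (T j).Sat x
    · rw [one_true h, one_true ((none_iff x).1 h)]
    · rw [one_false h, one_false fun h' => h ((none_iff x).2 h')]
  obtain ⟨lo1, up1, h1, hE1, hlo1, hup1⟩ := alt_sand T H hH (2 * K + 1) (by omega)
  obtain ⟨lo2, up2, h2, hE2, hlo2, hup2⟩ := alt_sand T H hH (2 * K + 2) le_rfl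
  have herr1 := alt_err hT hη (2 * K + 1) (K := K) (by omega)
  have herr2 := alt_err hT hη (2 * K + 2) (K := K) le_rfl
  have hn1 := alt_norm N hM (2 * K + 1) (K := K) (by omega)
  have hn2 := alt_norm N hM (2 * K + 2) (K := K) le_rfl
  obtain ⟨S1, hS1⟩ : ∃ S1 : Cube n → ℝ, S1 = fun x =>
    ∑ m ∈ range (2 * K + 1), (-1 : ℝ) ^ m * ∑ J ∈ powersetCard m univ, H J x := ⟨_, rfl⟩
  obtain ⟨S2, hS2⟩ : ∃ S2 : Cube n → ℝ, S2 = fun x =>
    ∑ m ∈ range (2 * K + 2), (-1 : ℝ) ^ m * ∑ J ∈ powersetCard m univ, H J x := ⟨_, rfl⟩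
  rw [← hS1] at h1
  rw [← hS2] at h2
  have e1 : E lo1 ≤ E S1 := E_mono fun x => (h1 x).1
  have e2 : E S2 ≤ E up2 := E_mono fun x => (h2 x).2
  -- the difference of the two sums
  have hdiff : E S1 - E S2 ≤
      mu τ T ^ (2 * K + 1) / (2 * K + 1).factorial + key r τ W (lam T) (2 * K + 1) := by
    have hd : ∀ x, S1 x - S2 x = ∑ J ∈ powersetCard (2 * K + 1) univ, H J x := by
      intro x
      rw [hS1, hS2]
      simp only
      rw [Finset.sum_range_succ _ (2 * K + 1)]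
      have : (-1 : ℝ) ^ (2 * K + 1) = -1 := by
        rw [pow_succ, pow_mul]
        norm_num
      rw [this]
      ring
    rw [← E_sub]
    simp only [hd]
    rw [E_sum]
    refine le_trans (Finset.sum_le_sum fun J _ => ?_) (moment_bound hT (2 * K + 1) (by omega))
    refine E_mono fun x => ?_
    rw [hHJ]
    have h0 : 0 ≤ ∏ j ∈ J, Z τ T j x := Finset.prod_nonneg fun j _ => one_nonneg _
    exact mul_le_of_le_one_left h0 (one_le _)
  refine ⟨lo2, up1, fun x => ⟨?_, ?_⟩, ?_, hlo2.trans hn2, hup1.trans hn1⟩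
  · refine (h2 x).1.trans ?_
    show S2 x ≤ one (¬ Or Fn x ∧ ∀ j, ¬ (T j).Sat x)
    rw [hf, hS2]
    simp only
    rw [hpull]
    exact mul_le_mul_of_nonneg_left (bonf_lo _ (fun j => Z_zero_or τ T j x) K) (one_nonneg _)
  · refine le_trans ?_ (h1 x).2
    show one (¬ Or Fn x ∧ ∀ j, ¬ (T j).Sat x) ≤ S1 x
    rw [hf, hS1]
    simp only
    rw [hpull]
    exact mul_le_mul_of_nonneg_left (bonf_up _ (fun j => Z_zero_or τ T j x) K) (one_nonneg _)
  · linarith

end Pool.Agent.MP_ca1109_lc.Dnf
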