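import Pool.Agent.MP_ca1109_lc.Dnf.M3

/-!
# Read-bounded DNFs: second moments
-/

namespace Pool.Agent.MP_ca1109_lc.Dnf

open Finset

variable {n N r τ W : ℕ} {T : Fin N → Term n}

/- ROW M8a (`narrow` is in M8b).  PROOF.
* `second_moment`: `X = ∑_{i ∈ I} t_i`, `lo = 1 - (1 - X/μ)^2` (0 where `X = 0`, `≤ 1` elsewhere, and `X ≥ 1` implies that some term is satisfied).
  `E X = μ`, `E X^2 = ∑_i E t_i + ∑_{i ≠ j} E t_i t_j ≤ μ + μ^2 + μ`, so `E lo = 2 - E X^2 / μ^2 ≥ 1 - 2/μ`.  `L1 lo ≤ 1 + (1 + N/μ)^2`.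
* `case_A`: `greedy` gives `I` with mass `μ ≥ Λ`; for `i < j` in `I`: disjoint: `E t_i t_j = p_i p_j`; meeting: not heavy, so
  `E t_i t_j ≤ (1/2)^(|S_i| + |S_j \ S_i|) ≤ p_i (1/2)^τ` (`E_two`), and at most `W r` such `j` for given `i` (`meet_count`).
  Sum `≤ μ^2 + 2 μ W r (1/2)^τ ≤ μ^2 + μ`.
* `narrow`: `I` = a maximal set of indices with pairwise disjoint `S_i`; all covariances are 0.  If its mass is `< Λ`, `|I| ≤ Λ 2^w`, and every `j` meets
  some `i ∈ I` (`S_j` is nonempty): `N ≤ |I| * w * r`. -/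

theorem Big.mono {δ δ' M M' : ℝ} {f : Cube n → ℝ} (h : Big δ M f) (h1 : δ ≤ δ') (h2 : M ≤ M') :
    Big δ' M' f := by
  obtain ⟨lo, hs, he, hl⟩ := h
  exact ⟨lo, hs, by linarith, hl.trans h2⟩

theorem Big.scale {f : Cube n → ℝ} {Λ μ : ℝ} (hΛ : 0 < Λ) (h : Λ ≤ μ)
    (hB : Big (2 / μ) (1 + (1 + N / μ) ^ 2) f) : Big (2 / Λ) (1 + (1 + N / Λ) ^ 2) f := by
  have hμ : 0 < μ := hΛ.trans_le h
  refine hB.mono ?_ ?_
  · exact div_le_div_of_nonneg_left (by norm_num) hΛ h
  · have h1 : (N : ℝ) / μ ≤ N / Λ := div_le_div_of_nonneg_left (Nat.cast_nonneg _) hΛ h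
    have h2 : (0 : ℝ) ≤ N / μ := by positivity
    have := pow_le_pow_left₀ (by linarith : (0 : ℝ) ≤ 1 + N / μ) (add_le_add_right h1 1) 2
    linarith

theorem second_moment (T : Fin N → Term n) (I : Finset (Fin N)) (μ : ℝ) (hμ : 0 < μ)
    (h1 : ∑ i ∈ I, (1 / 2 : ℝ) ^ (T i).S.card = μ)
    (h2 : ∑ i ∈ I, ∑ j ∈ I.erase i, E (fun x => (T i).f x * (T j).f x) ≤ μ ^ 2 + μ) :
    Big (2 / μ) (1 + (1 + N / μ) ^ 2) (fun x => one (∃ j, (T j).Sat x)) := by
  classical
  set X : Cube n → ℝ := fun x => ∑ i ∈ I, (T i).f x with hX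
  have hEX : E X = μ := by
    rw [hX, E_sum, ← h1]
    exact sum_congr rfl fun i _ => E_term (T i)
  have hEX2 : E (fun x => X x * X x) ≤ μ ^ 2 + 2 * μ := by
    have h3 : (fun x => X x * X x) = fun x => ∑ i ∈ I, ∑ j ∈ I, (T i).f x * (T j).f x := by
      funext x
      rw [hX]
      exact sum_mul_sum _ _ _ _
    rw [h3, E_sum]
    have h4 : ∀ i ∈ I, E (fun x => ∑ j ∈ I, (T i).f x * (T j).f x) =
        (1 / 2 : ℝ) ^ (T i).S.card + ∑ j ∈ I.erase i, E (fun x => (T i).f x * (T j).f x) := by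
      intro i hi
      rw [E_sum, ← add_sum_erase I _ hi]
      congr 1
      have h5 : (fun x => (T i).f x * (T i).f x) = (T i).f := by
        funext x
        unfold Term.f one
        split_ifs <;> norm_num
      rw [h5, E_term]
    rw [sum_congr rfl h4, sum_add_distrib, h1]
    linarith
  have hL1X : L1 X ≤ N := by
    rw [hX]
    refine (L1_sum _ _).trans ?_
    have h3 : ∑ i ∈ I, L1 (fun x => (T i).f x) ≤ ∑ i ∈ I, (1 : ℝ) :=
      sum_le_sum fun i _ => L1_term (T i)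
    refine h3.trans ?_
    rw [sum_const, nsmul_eq_mul, mul_one]
    have : I.card ≤ N := by simpa using card_le_univ I
    exact_mod_cast this
  refine ⟨fun x => 1 - (1 - μ⁻¹ * X x) * (1 - μ⁻¹ * X x), fun x => ?_, ?_, ?_⟩
  · change 1 - (1 - μ⁻¹ * X x) * (1 - μ⁻¹ * X x) ≤ one (∃ j, (T j).Sat x)
    by_cases h : ∃ j, (T j).Sat x
    · rw [one_true h]
      nlinarith [mul_self_nonneg (1 - μ⁻¹ * X x)]
    · rw [one_false h]
      have hX0 : X x = 0 := by
        rw [hX]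
        refine sum_eq_zero fun i _ => one_false fun hs => h ⟨i, hs⟩
      simp only [hX0]
      norm_num
  · have h3 : (fun x => 1 - (1 - μ⁻¹ * X x) * (1 - μ⁻¹ * X x)) =
        fun x => (2 * μ⁻¹) * X x - (μ⁻¹ ^ 2) * (X x * X x) := by
      funext x
      ring
    rw [h3, E_sub, E_smul, E_smul, hEX]
    have h4 : μ⁻¹ ^ 2 * E (fun x => X x * X x) ≤ μ⁻¹ ^ 2 * (μ ^ 2 + 2 * μ) :=
      mul_le_mul_of_nonneg_left hEX2 (by positivity)
    have h5 : μ⁻¹ ^ 2 * (μ ^ 2 + 2 * μ) = 1 + 2 / μ := by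
      field_simp
    have h6 : 2 * μ⁻¹ * μ = 2 := by
      field_simp
    linarith
  · have h3 : L1 (fun x => 1 - μ⁻¹ * X x) ≤ 1 + N / μ := by
      refine (L1_sub (fun _ => 1) (fun x => μ⁻¹ * X x)).trans ?_
      rw [L1_const, abs_one, L1_smul, abs_of_pos (inv_pos.mpr hμ), div_eq_inv_mul]
      have := mul_le_mul_of_nonneg_left hL1X (inv_pos.mpr hμ).le
      linarith
    refine (L1_sub (fun _ => 1) (fun x => (1 - μ⁻¹ * X x) * (1 - μ⁻¹ * X x))).trans ?_
    rw [L1_const, abs_one]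
    have h4 := (L1_mul (fun x => 1 - μ⁻¹ * X x) (fun x => 1 - μ⁻¹ * X x)).trans
      (mul_le_mul h3 h3 (L1_nonneg _) (by positivity))
    rw [sq]
    linarith

theorem case_A (hT : Wide r τ W T) (hA : 2 * (W * r : ℝ) * (1 / 2) ^ τ ≤ 1) {Λ : ℝ} (hΛ : 0 < Λ)
    (hl : (1 + 2 * r) * Λ ≤ lam T) :
    Big (2 / Λ) (1 + (1 + N / Λ) ^ 2) (fun x => one (∃ j, (T j).Sat x)) := by
  obtain ⟨I, hI, hlam⟩ := greedy hT
  set p : Fin N → ℝ := fun i => (1 / 2 : ℝ) ^ (T i).S.card with hp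
  set μ : ℝ := ∑ i ∈ I, p i with hμ
  have hp0 : ∀ i, 0 ≤ p i := fun i => by rw [hp]; positivity
  have hle : Λ ≤ μ := by
    have h1 : (1 + 2 * (r : ℝ)) * Λ ≤ (1 + 2 * r) * μ := hl.trans hlam
    exact le_of_mul_le_mul_left h1 (by positivity)
  have hμ0 : 0 < μ := hΛ.trans_le hle
  refine Big.scale hΛ hle (second_moment T I μ hμ0 rfl ?_)
  set q : ℝ := (1 / 2 : ℝ) ^ τ with hq
  have hq0 : 0 ≤ q := by rw [hq]; positivity
  have hE : ∀ i ∈ I, ∀ j ∈ I.erase i, E (fun x => (T i).f x * (T j).f x) ≤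
      p i * p j + (if ¬ Disjoint (T i).S (T j).S then (p i + p j) * q else 0) := by
    intro i hi j hj
    obtain ⟨hne, hj⟩ := mem_erase.mp hj
    by_cases hd : Disjoint (T i).S (T j).S
    · rw [if_neg (not_not.mpr hd), add_zero]
      have := E_indep hd (on_term (T i)) (on_term (T j))
      rw [E_term, E_term] at this
      exact this.le
    · rw [if_pos hd]
      have h0 := mul_nonneg (hp0 i) (hp0 j)
      rcases lt_or_gt_of_ne hne with hlt | hlt
      · -- j < i
        have h5 : τ ≤ ((T i).S \ (T j).S).card := by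
          by_contra hcon
          exact hI j hj i hi ⟨hlt, by omega⟩
        have h6 : E (fun x => (T i).f x * (T j).f x) ≤ p j * q := by
          have h7 : (fun x => (T i).f x * (T j).f x) = fun x => (T j).f x * (T i).f x := by
            funext x
            ring
          rw [h7]
          refine (E_two _ _).trans ?_
          rw [pow_add]
          exact mul_le_mul_of_nonneg_left
            (pow_le_pow_of_le_one (by norm_num) (by norm_num) h5) (by positivity)
        nlinarith [mul_nonneg (hp0 i) hq0]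
      · have h5 : τ ≤ ((T j).S \ (T i).S).card := by
          by_contra hcon
          exact hI i hi j hj ⟨hlt, by omega⟩
        have h6 : E (fun x => (T i).f x * (T j).f x) ≤ p i * q := by
          refine (E_two _ _).trans ?_
          rw [pow_add]
          exact mul_le_mul_of_nonneg_left
            (pow_le_pow_of_le_one (by norm_num) (by norm_num) h5) (by positivity)
        nlinarith [mul_nonneg (hp0 j) hq0]
  have h1 : ∑ i ∈ I, ∑ j ∈ I.erase i, E (fun x => (T i).f x * (T j).f x) ≤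
      ∑ i ∈ I, ∑ j ∈ I,
        (p i * p j + (if ¬ Disjoint (T i).S (T j).S then (p i + p j) * q else 0)) := by
    refine sum_le_sum fun i hi => (sum_le_sum (hE i hi)).trans ?_
    refine sum_le_sum_of_subset_of_nonneg (erase_subset _ _) fun j _ _ => ?_
    have := mul_nonneg (hp0 i) (hp0 j)
    have h3 := mul_nonneg (add_nonneg (hp0 i) (hp0 j)) hq0
    split_ifs <;> linarith
  refine h1.trans ?_
  have h2 : ∑ i ∈ I, ∑ j ∈ I, (p i * p j) = μ ^ 2 := by
    rw [sq, hμ, sum_mul_sum]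
  have h3 : ∀ i ∈ I, ∑ j ∈ I, (if ¬ Disjoint (T i).S (T j).S then p i * q else 0) ≤
      p i * (W * r * q) := by
    intro i _
    rw [← sum_filter, sum_const, nsmul_eq_mul]
    have h4 : ((I.filter fun j => ¬ Disjoint (T i).S (T j).S).card : ℝ) ≤ W * r := by
      have h5 := meet_count hT i
      have h6 : (I.filter fun j => ¬ Disjoint (T i).S (T j).S).card ≤
          (univ.filter fun j => ¬ Disjoint (T i).S (T j).S).card :=
        card_le_card (filter_subset_filter _ (subset_univ _))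
      exact_mod_cast h6.trans h5
    calc _ ≤ ((W : ℝ) * r) * (p i * q) := mul_le_mul_of_nonneg_right h4 (mul_nonneg (hp0 i) hq0)
      _ = _ := by ring
  have h4 : ∑ i ∈ I, ∑ j ∈ I, (if ¬ Disjoint (T i).S (T j).S then p i * q else 0) ≤
      μ * (W * r * q) := by
    refine (sum_le_sum h3).trans (le_of_eq ?_)
    rw [← sum_mul]
  have h5 : ∑ i ∈ I, ∑ j ∈ I, (if ¬ Disjoint (T i).S (T j).S then p j * q else 0) ≤
      μ * (W * r * q) := by
    rw [sum_comm]
    refine le_trans (le_of_eq ?_) h4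
    refine sum_congr rfl fun i _ => sum_congr rfl fun j _ => ?_
    simp only [disjoint_comm]
  have h6 : ∑ i ∈ I, ∑ j ∈ I,
        (p i * p j + (if ¬ Disjoint (T i).S (T j).S then (p i + p j) * q else 0)) =
      (∑ i ∈ I, ∑ j ∈ I, (p i * p j)) +
        ((∑ i ∈ I, ∑ j ∈ I, (if ¬ Disjoint (T i).S (T j).S then p i * q else 0)) +
        ∑ i ∈ I, ∑ j ∈ I, (if ¬ Disjoint (T i).S (T j).S then p j * q else 0)) := by
    simp only [← sum_add_distrib]
    refine sum_congr rfl fun i _ => sum_congr rfl fun j _ => ?_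
    split_ifs <;> ring
  rw [h6, h2]
  have h7 : μ * (2 * (W * r : ℝ) * q) ≤ μ * 1 := mul_le_mul_of_nonneg_left hA hμ0.le
  nlinarith

end Pool.Agent.MP_ca1109_lc.Dnf
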