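import Pool.Agent.MP_ca1109_lc.Dnf.M11
import Pool.Agent.MP_ca1109_lc.Dnf.C4

/-!
# Read-bounded DNFs: the choice of the parameters
-/

namespace Pool.Agent.MP_ca1109_lc.Dnf

open Finset

variable {n N : ℕ}

/-- The number of near neighbours, `r = 2 ^ L`, `W = 4 ^ L`. -/
theorem rh_le (L : ℕ) : (rh (2 ^ L) (4 ^ L) : ℝ) ≤ 9 * ((2 : ℝ) ^ L) ^ 5 := by
  have hq : (1 : ℝ) ≤ 2 ^ L := one_le_pow₀ (by norm_num)
  have h4 : (4 : ℝ) ^ L = (2 ^ L) ^ 2 := by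
    rw [← pow_mul, mul_comm, pow_mul]
    norm_num
  have h1 : (rh (2 ^ L) (4 ^ L) : ℝ) = 4 ^ L * 2 ^ L * (1 + 2 * 2 ^ L) ^ 2 := by
    unfold rh
    push_cast
    ring
  rw [h1, h4]
  generalize (2 : ℝ) ^ L = q at hq
  have h2 : (1 + 2 * q) ^ 2 ≤ (3 * q) ^ 2 := by
    apply pow_le_pow_left₀ (by positivity)
    linarith
  calc q ^ 2 * q * (1 + 2 * q) ^ 2 ≤ q ^ 2 * q * (3 * q) ^ 2 := by gcongr
    _ = 9 * q ^ 5 := by ring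

/-- The sum which enters the powers. -/
theorem base_le (L m : ℕ) {Λ : ℝ} (hΛ : 0 ≤ Λ) {m' : ℕ} (hm : m' ≤ m) :
    (m' : ℝ) * rh (2 ^ L) (4 ^ L) + (1 + 2 * ((2 ^ L : ℕ) : ℝ)) * Λ + 1 ≤
      (9 * m + 3 * Λ + 1) * ((2 : ℝ) ^ L) ^ 5 := by
  have hq : (1 : ℝ) ≤ 2 ^ L := one_le_pow₀ (by norm_num)
  have h1 := rh_le L
  push_cast
  have hm' : (m' : ℝ) ≤ m := by exact_mod_cast hm
  generalize (2 : ℝ) ^ L = q at hq h1
  have h5 : q ≤ q ^ 5 := le_self_pow₀ hq (by norm_num)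
  have h6 : (1 : ℝ) ≤ q ^ 5 := hq.trans h5
  have h2 : (m' : ℝ) * rh (2 ^ L) (4 ^ L) ≤ m * (9 * q ^ 5) := by gcongr
  have h3 : (1 + 2 * q) * Λ ≤ 3 * q ^ 5 * Λ := by
    gcongr
    linarith
  calc (m' : ℝ) * rh (2 ^ L) (4 ^ L) + (1 + 2 * q) * Λ + 1 ≤
        m * (9 * q ^ 5) + 3 * q ^ 5 * Λ + q ^ 5 := by linarith
    _ = _ := by ring

/-- The bound for the near sets. -/
theorem key_le (L m A : ℕ) {Λ : ℝ} (hΛ : 0 ≤ Λ) {m' : ℕ} (hm2 : 2 ≤ m') (hm : m' ≤ m)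
    (hA : 5 * m + 2 ≤ A) :
    key (2 ^ L) (A * L) (4 ^ L) ((1 + 2 * ((2 ^ L : ℕ) : ℝ)) * Λ) m' ≤
      27 * Λ * (9 * m + 3 * Λ + 1) ^ m / 2 ^ L := by
  have hq : (1 : ℝ) ≤ 2 ^ L := one_le_pow₀ (by norm_num)
  have h1 := rh_le L
  have h2 := base_le L m hΛ hm
  have hpow : (1 / 2 : ℝ) ^ (A * L) = 1 / ((2 : ℝ) ^ L) ^ A := by
    rw [one_div, inv_pow, ← pow_mul, mul_comm, one_div]
  unfold key
  rw [hpow]
  set c : ℝ := 9 * m + 3 * Λ + 1 with hc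
  have hc1 : 1 ≤ c := by
    have : (0 : ℝ) ≤ 9 * m := by positivity
    linarith
  have h3 : (m' : ℝ) * rh (2 ^ L) (4 ^ L) + (1 + 2 * ((2 ^ L : ℕ) : ℝ)) * Λ ≤
      c * ((2 : ℝ) ^ L) ^ 5 := by linarith
  have h4 : (1 + 2 * ((2 ^ L : ℕ) : ℝ)) * Λ ≤ 3 * 2 ^ L * Λ := by
    push_cast
    gcongr
    linarith
  have h0 : 0 ≤ (m' : ℝ) * rh (2 ^ L) (4 ^ L) + (1 + 2 * ((2 ^ L : ℕ) : ℝ)) * Λ := by positivity
  have hR0 : (0 : ℝ) ≤ rh (2 ^ L) (4 ^ L) := by positivity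
  have hl0 : 0 ≤ (1 + 2 * ((2 ^ L : ℕ) : ℝ)) * Λ := by positivity
  generalize (m' : ℝ) * rh (2 ^ L) (4 ^ L) + (1 + 2 * ((2 ^ L : ℕ) : ℝ)) * Λ = u at h0 h3 ⊢
  generalize (1 + 2 * ((2 ^ L : ℕ) : ℝ)) * Λ = l at h4 hl0 ⊢
  generalize (rh (2 ^ L) (4 ^ L) : ℝ) = R at h1 hR0 ⊢
  generalize (2 : ℝ) ^ L = q at hq h1 h3 h4 ⊢
  have hq0 : 0 < q := by linarith
  have hc0 : 0 ≤ c := by linarith
  calc l * R * (1 / q ^ A) * u ^ (m' - 2) = (l * R * u ^ (m' - 2)) / q ^ A := by ring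
    _ ≤ (3 * q * Λ * (9 * q ^ 5) * (c * q ^ 5) ^ (m' - 2)) / q ^ A := by gcongr
    _ = 27 * Λ * c ^ (m' - 2) * q ^ (6 + 5 * (m' - 2)) / q ^ A := by
        rw [mul_pow, ← pow_mul, pow_add]
        ring
    _ ≤ 27 * Λ * c ^ m * q ^ (A - 1) / q ^ A := by
        gcongr
        · omega
        · omega
    _ = 27 * Λ * c ^ m / q := by
        have h : q ^ A = q ^ (A - 1) * q := by rw [← pow_succ]; congr 1; omega
        rw [h]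
        field_simp

/-- The exponential gain of the truncation. -/
theorem trunc_le (a G L : ℕ) (ha : 1 ≤ a) :
    ((2 : ℝ) ^ L) ^ G ≤ (1 + 1 / (20 * ((2 * a : ℕ) : ℝ))) ^ (40 * a * (G * L)) := by
  have ha' : (1 : ℝ) ≤ a := by exact_mod_cast ha
  have h1 : (2 : ℝ) ≤ (1 + 1 / (20 * ((2 * a : ℕ) : ℝ))) ^ (40 * a) := by
    have h2 := one_add_mul_le_pow (a := 1 / (20 * ((2 * a : ℕ) : ℝ)))
      (by have : (0 : ℝ) ≤ 1 / (20 * ((2 * a : ℕ) : ℝ)) := by positivity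
          linarith) (40 * a)
    refine le_trans (le_of_eq ?_) h2
    push_cast
    field_simp
    norm_num
  calc ((2 : ℝ) ^ L) ^ G = 2 ^ (G * L) := by rw [← pow_mul, mul_comm]
    _ ≤ ((1 + 1 / (20 * ((2 * a : ℕ) : ℝ))) ^ (40 * a)) ^ (G * L) := by gcongr
    _ = _ := by rw [← pow_mul]

/-- The number of terms of the small DNFs. -/
theorem size_le (A L m : ℕ) (hL : 1 ≤ L) (hm : 2 * (m : ℝ) ≤ 2 ^ L) :
    ((2 ^ ((2 * A + 3) * L) + m * (2 * 2 ^ L) : ℕ) : ℝ) + 1 ≤ ((2 : ℝ) ^ L) ^ (2 * A + 5) := by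
  have hq : (2 : ℝ) ≤ 2 ^ L := by
    calc (2 : ℝ) = 2 ^ 1 := by norm_num
      _ ≤ 2 ^ L := pow_le_pow_right₀ (by norm_num) hL
  have h0 : ((2 : ℝ) ^ ((2 * A + 3) * L)) = ((2 : ℝ) ^ L) ^ (2 * A + 3) := by
    rw [← pow_mul, mul_comm]
  push_cast
  rw [h0]
  generalize (2 : ℝ) ^ L = q at hq hm
  have h1 : q ^ 2 ≤ q ^ (2 * A + 3) := pow_le_pow_right₀ (by linarith) (by omega)
  have h2 : (m : ℝ) * (2 * q) ≤ q ^ 2 := by nlinarith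
  have h3 : 1 ≤ q ^ 2 := one_le_pow₀ (by linarith)
  have h4 : 3 ≤ q ^ 2 := by nlinarith
  have h5 : 0 ≤ q ^ (2 * A + 3) := by positivity
  calc q ^ (2 * A + 3) + m * (2 * q) + 1 ≤ 3 * q ^ (2 * A + 3) := by linarith
    _ ≤ q ^ 2 * q ^ (2 * A + 3) := by gcongr
    _ = q ^ (2 * A + 5) := by rw [← pow_add]; congr 1; omega

/-- The error of the small DNFs. -/
theorem eta_le (A L m : ℕ) (hA : 1 ≤ A) (hL : 1 ≤ L) {Λ : ℝ} (hΛ : 0 ≤ Λ) (S : ℝ) (hS0 : 0 ≤ S)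
    (hS : S ≤ ((2 : ℝ) ^ L) ^ (2 * A + 5)) :
    2 * (4 * S ^ 3 / (1 + 1 / (20 * ((2 * (A * L) : ℕ) : ℝ))) ^
        (40 * (A * L) * ((3 * (2 * A + 5) + 5 * m + 1) * L))) *
      ((m + 1) * ((m : ℝ) * rh (2 ^ L) (4 ^ L) + (1 + 2 * ((2 ^ L : ℕ) : ℝ)) * Λ + 1) ^ m) ≤
      8 * (m + 1) * (9 * m + 3 * Λ + 1) ^ m / 2 ^ L := by
  have hq : (1 : ℝ) ≤ 2 ^ L := one_le_pow₀ (by norm_num)
  have h1 := trunc_le (A * L) (3 * (2 * A + 5) + 5 * m + 1) L (Nat.mul_pos hA hL)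
  have h2 := base_le L m hΛ le_rfl
  have h0 : 0 ≤ (m : ℝ) * rh (2 ^ L) (4 ^ L) + (1 + 2 * ((2 ^ L : ℕ) : ℝ)) * Λ + 1 := by positivity
  generalize (m : ℝ) * rh (2 ^ L) (4 ^ L) + (1 + 2 * ((2 ^ L : ℕ) : ℝ)) * Λ + 1 = u at h0 h2 ⊢
  generalize (1 + 1 / (20 * ((2 * (A * L) : ℕ) : ℝ))) ^
        (40 * (A * L) * ((3 * (2 * A + 5) + 5 * m + 1) * L)) = D at h1 ⊢
  generalize (9 * (m : ℝ) + 3 * Λ + 1) = c at h2 ⊢
  generalize (2 : ℝ) ^ L = q at hq h1 h2 hS ⊢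
  have hq0 : 0 < q := by linarith
  have hc : 0 ≤ c := by
    by_contra hc
    push Not at hc
    have := mul_neg_of_neg_of_pos hc (pow_pos hq0 5)
    linarith
  calc 2 * (4 * S ^ 3 / D) * ((m + 1) * u ^ m) ≤
        2 * (4 * (q ^ (2 * A + 5)) ^ 3 / q ^ (3 * (2 * A + 5) + 5 * m + 1)) *
          ((m + 1) * (c * q ^ 5) ^ m) := by gcongr
    _ = 8 * (m + 1) * c ^ m / q := by
        have e1 : (q ^ (2 * A + 5)) ^ 3 = q ^ (3 * (2 * A + 5)) := by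
          rw [← pow_mul, mul_comm]
        have e2 : (c * q ^ 5) ^ m = c ^ m * q ^ (5 * m) := by
          rw [mul_pow, ← pow_mul]
        rw [e1, e2, pow_add, pow_add, pow_one]
        field_simp
        ring

/-- The spectral norm. -/
theorem norm_le (A L m G N : ℕ) (hL : 1 ≤ L) (S : ℝ) (hS0 : 0 ≤ S)
    (hS : S ≤ ((2 : ℝ) ^ L) ^ (2 * A + 5)) {C : ℕ}
    (hC : 10 + 3 * (2 * A + 5) + 120 * A * G + 40 * A + 4 * m + 3 ≤ C) :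
    (m + 1) * ((N : ℝ) + 1) ^ m *
      (2 + (8 * S * (20 * ((2 * (A * L) : ℕ) : ℝ)) ^ (40 * (A * L) * (G * L))) ^ 3) ≤
      ((N : ℝ) + 1) ^ C * (C * L : ℝ) ^ (C * L ^ 2) := by
  have hL' : (1 : ℝ) ≤ L := by exact_mod_cast hL
  have hC' : (10 + 3 * (2 * A + 5) + 120 * A * G + 40 * A + 4 * m + 3 : ℝ) ≤ C := by
    exact_mod_cast hC
  have hA0 : (0 : ℝ) ≤ A := by positivity
  have hAG : (0 : ℝ) ≤ A * G := by positivity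
  have hm0 : (0 : ℝ) ≤ m := by positivity
  obtain ⟨u, hu⟩ : ∃ u : ℝ, u = C * L := ⟨_, rfl⟩
  have hCu : (C : ℝ) ≤ u := by rw [hu]; nlinarith
  have hu2 : 2 ≤ u := by nlinarith
  have hu1 : 1 ≤ u := by linarith
  have hu40 : 20 * ((2 * (A * L) : ℕ) : ℝ) ≤ u := by
    rw [hu]
    push_cast
    have : (40 * A : ℝ) ≤ C := by nlinarith
    nlinarith
  have hum : 3 * ((m : ℝ) + 1) ≤ u := by nlinarith
  have h1 : 8 ≤ u ^ 3 := by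
    calc (8 : ℝ) = 2 ^ 3 := by norm_num
      _ ≤ u ^ 3 := by gcongr
  have h2 : ((2 : ℝ) ^ L) ^ (2 * A + 5) ≤ u ^ (L * (2 * A + 5)) := by
    rw [← pow_mul]
    gcongr
  have h3 : 8 * S * (20 * ((2 * (A * L) : ℕ) : ℝ)) ^ (40 * (A * L) * (G * L)) ≤
      u ^ (3 + L * (2 * A + 5) + 40 * (A * L) * (G * L)) := by
    rw [pow_add, pow_add]
    gcongr
    exact hS.trans h2
  have h4 : (2 : ℝ) + (8 * S * (20 * ((2 * (A * L) : ℕ) : ℝ)) ^ (40 * (A * L) * (G * L))) ^ 3 ≤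
      3 * u ^ (3 * (3 + L * (2 * A + 5) + 40 * (A * L) * (G * L))) := by
    have h5 : (8 * S * (20 * ((2 * (A * L) : ℕ) : ℝ)) ^ (40 * (A * L) * (G * L))) ^ 3 ≤
        (u ^ (3 + L * (2 * A + 5) + 40 * (A * L) * (G * L))) ^ 3 := by gcongr
    have h6 : (u ^ (3 + L * (2 * A + 5) + 40 * (A * L) * (G * L))) ^ 3 =
        u ^ (3 * (3 + L * (2 * A + 5) + 40 * (A * L) * (G * L))) := by
      rw [← pow_mul, mul_comm]
    have h7 : 1 ≤ u ^ (3 * (3 + L * (2 * A + 5) + 40 * (A * L) * (G * L))) := one_le_pow₀ hu1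
    rw [h6] at h5
    linarith
  have hexp : 3 * (3 + L * (2 * A + 5) + 40 * (A * L) * (G * L)) + 1 ≤ C * L ^ 2 := by
    have e1 : L ≤ L ^ 2 := Nat.le_self_pow (by norm_num) L
    have e2 : 1 ≤ L ^ 2 := Nat.one_le_pow _ _ hL
    calc 3 * (3 + L * (2 * A + 5) + 40 * (A * L) * (G * L)) + 1 =
          10 * 1 + 3 * (2 * A + 5) * L + 120 * A * G * L ^ 2 := by ring
      _ ≤ 10 * L ^ 2 + 3 * (2 * A + 5) * L ^ 2 + 120 * A * G * L ^ 2 := by gcongr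
      _ = (10 + 3 * (2 * A + 5) + 120 * A * G) * L ^ 2 := by ring
      _ ≤ C * L ^ 2 := by
          apply Nat.mul_le_mul_right
          omega
  rw [← hu]
  have hN : (1 : ℝ) ≤ (N : ℝ) + 1 := by
    have : (0 : ℝ) ≤ N := by positivity
    linarith
  calc (m + 1) * ((N : ℝ) + 1) ^ m *
        (2 + (8 * S * (20 * ((2 * (A * L) : ℕ) : ℝ)) ^ (40 * (A * L) * (G * L))) ^ 3) ≤
        (m + 1) * ((N : ℝ) + 1) ^ m *
          (3 * u ^ (3 * (3 + L * (2 * A + 5) + 40 * (A * L) * (G * L)))) := by gcongr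
    _ = ((N : ℝ) + 1) ^ m * ((3 * (m + 1)) *
          u ^ (3 * (3 + L * (2 * A + 5) + 40 * (A * L) * (G * L)))) := by ring
    _ ≤ ((N : ℝ) + 1) ^ m * (u * u ^ (3 * (3 + L * (2 * A + 5) + 40 * (A * L) * (G * L)))) := by
        gcongr
    _ = ((N : ℝ) + 1) ^ m *
          u ^ (3 * (3 + L * (2 * A + 5) + 40 * (A * L) * (G * L)) + 1) := by rw [pow_succ']
    _ ≤ ((N : ℝ) + 1) ^ C * u ^ (C * L ^ 2) := by
        gcongr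
        omega

theorem core (ε : ℝ) (hε : 0 < ε) : ∃ C L₀ : ℕ, ∀ L ≥ L₀, ∀ (n N : ℕ) (T : Fin N → Term n),
    Read (2 ^ L) T → (∀ j, 1 ≤ (T j).S.card) → (∀ j, (T j).S.card ≤ 4 ^ L) →
      Sand ε (((N : ℝ) + 1) ^ C * (C * L : ℝ) ^ (C * L ^ 2)) (fun x => one (∃ j, (T j).Sat x)) := by
  obtain ⟨Λ, hΛ1, hΛε⟩ : ∃ Λ : ℝ, 1 ≤ Λ ∧ 8 / Λ ≤ ε := by
    refine ⟨max 1 (8 / ε), le_max_left _ _, ?_⟩
    have h1 : 0 < max 1 (8 / ε) := lt_of_lt_of_le one_pos (le_max_left _ _)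
    rw [div_le_iff₀ h1, mul_comm, ← div_le_iff₀ hε]
    exact le_max_right _ _
  obtain ⟨K, hK, h4⟩ : ∃ K : ℕ, 1 ≤ K ∧ (Λ + 1) ^ (2 * K + 1) / (2 * K + 1).factorial ≤ ε / 8 := by
    have h := (FloorSemiring.tendsto_pow_div_factorial_atTop (Λ + 1)).eventually
      (ge_mem_nhds (show (0 : ℝ) < ε / 8 by positivity))
    obtain ⟨n0, hn0⟩ := Filter.eventually_atTop.1 h
    exact ⟨n0 + 1, by omega, hn0 _ (by omega)⟩
  obtain ⟨m, hm⟩ : ∃ m : ℕ, m = 2 * K + 1 := ⟨_, rfl⟩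
  obtain ⟨A, hA⟩ : ∃ A : ℕ, A = 5 * m + 2 := ⟨_, rfl⟩
  obtain ⟨G, hG⟩ : ∃ G : ℕ, G = 3 * (2 * A + 5) + 5 * m + 1 := ⟨_, rfl⟩
  obtain ⟨c, hc⟩ : ∃ c : ℝ, c = 9 * m + 3 * Λ + 1 := ⟨_, rfl⟩
  have hmr : (m : ℝ) = 2 * K + 1 := by rw [hm]; push_cast; rfl
  have hm0 : (0 : ℝ) ≤ m := by positivity
  have hc1 : 1 ≤ c := by rw [hc]; linarith
  have hcm : 1 ≤ c ^ m := one_le_pow₀ hc1
  obtain ⟨B, hB⟩ : ∃ B : ℝ, B = 2 * (27 * Λ * c ^ m) + 8 * (27 * Λ * c ^ m) / ε + 2 * A * Λ +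
    2 * m + 64 * (m + 1) * c ^ m / ε + 2 := ⟨_, rfl⟩
  refine ⟨10 + 3 * (2 * A + 5) + 120 * A * G + 40 * A + 4 * m + 3, ⌈B⌉₊, fun L hL n N T hr hlo hW => ?_⟩
  have hBL : B ≤ 2 ^ L := by
    have h1 : B ≤ L := (Nat.le_ceil B).trans (by exact_mod_cast hL)
    have h2 : (L : ℝ) ≤ 2 ^ L := by exact_mod_cast Nat.lt_two_pow_self.le
    linarith
  have p1 : 0 ≤ 2 * (27 * Λ * c ^ m) := by positivity
  have p2 : 0 ≤ 8 * (27 * Λ * c ^ m) / ε := by positivity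
  have p3 : 0 ≤ 2 * A * Λ := by positivity
  have p4 : 0 ≤ 64 * (m + 1) * c ^ m / ε := by positivity
  have b1 : 2 * (27 * Λ * c ^ m) ≤ 2 ^ L := by linarith
  have b2 : 8 * (27 * Λ * c ^ m) / ε ≤ 2 ^ L := by linarith
  have b3 : 2 * A * Λ ≤ 2 ^ L := by linarith
  have b4 : 64 * (m + 1) * c ^ m / ε ≤ 2 ^ L := by linarith
  have b5 : 2 * (m : ℝ) ≤ 2 ^ L := by linarith
  have b6 : (2 : ℝ) ≤ 2 ^ L := by linarith
  have hL1 : 1 ≤ L := by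
    by_contra h
    have : L = 0 := by omega
    rw [this] at b6
    norm_num at b6
  have hq0 : (0 : ℝ) < 2 ^ L := by positivity
  have hA1 : 1 ≤ A := by omega
  have hτ : 1 ≤ A * L := Nat.mul_pos hA1 hL1
  have hkey : ∀ m', 2 ≤ m' → m' ≤ m →
      key (2 ^ L) (A * L) (4 ^ L) ((1 + 2 * ((2 ^ L : ℕ) : ℝ)) * Λ) m' ≤
        27 * Λ * c ^ m / 2 ^ L := fun m' h2 hm' => by
    rw [hc]
    exact key_le L m A (by linarith) h2 hm' (by omega)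
  obtain ⟨S, hS⟩ : ∃ S : ℝ, S = ((2 ^ ((2 * A + 3) * L) + m * (2 * 2 ^ L) : ℕ) : ℝ) + 1 := ⟨_, rfl⟩
  have hS0 : 0 ≤ S := by rw [hS]; positivity
  have hSle : S ≤ ((2 : ℝ) ^ L) ^ (2 * A + 5) := by
    rw [hS]
    exact size_le A L m hL1 b5
  have hsmall := small_dnf (2 ^ ((2 * A + 3) * L) + m * (2 * 2 ^ L)) (2 * (A * L))
    (40 * (A * L) * (G * L)) (by omega)
  rw [← hS] at hsmall
  have heta := eta_le A L m hA1 hL1 (Λ := Λ) (by linarith) S hS0 hSle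
  rw [← hG, ← hc] at heta
  have hnorm := norm_le A L m G N hL1 S hS0 hSle le_rfl
  obtain ⟨η, hη⟩ : ∃ η : ℝ, η = 4 * S ^ 3 / (1 + 1 / (20 * ((2 * (A * L) : ℕ) : ℝ))) ^
    (40 * (A * L) * (G * L)) := ⟨_, rfl⟩
  obtain ⟨M, hM⟩ : ∃ M : ℝ, M = (8 * S * (20 * ((2 * (A * L) : ℕ) : ℝ)) ^
    (40 * (A * L) * (G * L))) ^ 3 := ⟨_, rfl⟩
  rw [← hη, ← hM] at hsmall
  rw [← hη] at heta
  rw [← hM] at hnorm
  have hη0 : 0 ≤ η := by rw [hη]; positivity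
  have hM0 : 0 ≤ M := by rw [hM]; positivity
  have hqA : (1 / 2 : ℝ) ^ (A * L) = 1 / ((2 : ℝ) ^ L) ^ A := by
    rw [one_div, inv_pow, ← pow_mul, mul_comm, one_div]
  have hq4 : (4 : ℝ) ^ L = (2 ^ L) ^ 2 := by
    rw [← pow_mul, mul_comm, pow_mul]
    norm_num
  have kA : 2 * (((4 ^ L : ℕ) : ℝ) * ((2 ^ L : ℕ) : ℝ)) * (1 / 2) ^ (A * L) ≤ 1 := by
    rw [hqA]
    push_cast
    rw [hq4]
    have h1 : ((2 : ℝ) ^ L) ^ 4 ≤ ((2 : ℝ) ^ L) ^ A := pow_le_pow_right₀ (by linarith) (by omega)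
    have h2 : 2 * (((2 : ℝ) ^ L) ^ 2 * 2 ^ L) ≤ ((2 : ℝ) ^ L) ^ 4 := by
      generalize (2 : ℝ) ^ L = q at b6 hq0
      calc 2 * (q ^ 2 * q) ≤ q * (q ^ 2 * q) := by gcongr
        _ = q ^ 4 := by ring
    rw [mul_one_div, div_le_one (by positivity)]
    exact h2.trans h1
  have k2 : 2 * key (2 ^ L) (A * L) (4 ^ L) ((1 + 2 * ((2 ^ L : ℕ) : ℝ)) * Λ) 2 ≤ 1 := by
    have h1 := hkey 2 le_rfl (by omega)
    have h2 : 2 * (27 * Λ * c ^ m / 2 ^ L) ≤ 1 := by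
      rw [← mul_div_assoc, div_le_one hq0]
      exact b1
    linarith
  have k3 : key (2 ^ L) (A * L) (4 ^ L) ((1 + 2 * ((2 ^ L : ℕ) : ℝ)) * Λ) (2 * K + 1) ≤ ε / 8 := by
    refine (hkey (2 * K + 1) (by omega) (by omega)).trans ?_
    rw [div_le_iff₀ hε] at b2
    rw [div_le_iff₀ hq0]
    linarith
  have ks : ((2 ^ L : ℕ) : ℝ) * (2 * ((A * L : ℕ) : ℝ)) * (Λ * 2 ^ (2 * (A * L))) ≤
      ((2 ^ ((2 * A + 3) * L) : ℕ) : ℝ) := by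
    have e1 : (2 : ℝ) ^ (2 * (A * L)) = (2 ^ L) ^ (2 * A) := by
      rw [← pow_mul]; congr 1; ring
    have e2 : (2 : ℝ) ^ ((2 * A + 3) * L) = (2 ^ L) ^ (2 * A + 3) := by
      rw [← pow_mul]; congr 1; ring
    have hLq : (L : ℝ) ≤ 2 ^ L := by exact_mod_cast Nat.lt_two_pow_self.le
    push_cast
    rw [e1, e2]
    generalize (2 : ℝ) ^ L = q at b3 hq0 hLq
    calc q * (2 * (A * L)) * (Λ * q ^ (2 * A)) = q ^ (2 * A) * q * (2 * A * Λ) * L := by ring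
      _ ≤ q ^ (2 * A) * q * q * q := by gcongr
      _ = q ^ (2 * A + 3) := by ring
  have kη : 2 * η * ((2 * K + 2) * ((2 * K + 1) * rh (2 ^ L) (4 ^ L) +
      (1 + 2 * ((2 ^ L : ℕ) : ℝ)) * Λ + 1) ^ (2 * K + 1)) ≤ ε / 8 := by
    have h1 : (2 * (K : ℝ) + 2) = m + 1 := by rw [hmr]; ring
    rw [h1, ← hmr, ← hm]
    refine heta.trans ?_
    rw [div_le_iff₀ hε] at b4
    rw [div_le_iff₀ hq0]
    linarith
  have kS : Small (2 ^ ((2 * A + 3) * L) + (2 * K + 1) * (2 * 2 ^ L)) (2 * (A * L)) η M := by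
    rw [← hm]
    exact hsmall
  refine Sand.mono (finite (K := K) (s₀ := 2 ^ ((2 * A + 3) * L)) (τ := A * L) (r := 2 ^ L)
    (W := 4 ^ L) (Λ := Λ) (η := η) (M := M) hτ hΛ1 hΛε kA hK hη0 hM0 k2 k3 h4 ks kη kS T hr hlo hW)
    le_rfl ?_
  have h1 : (2 * (K : ℝ) + 2) = m + 1 := by rw [hmr]; ring
  rw [h1, ← hm]
  exact hnorm

end Pool.Agent.MP_ca1109_lc.Dnf
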