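import Pool.Agent.MP_ca1109_lc.Dnf.P2

/-!
# Read-bounded DNFs: functions of `k` DNFs and CNFs
-/

namespace Pool.Agent.MP_ca1109_lc.Dnf

open Finset Filter

variable {n N : ℕ}

/-- `f` is a DNF (of any size and any width) in which every variable occurs in at most `r` terms:
`f x` is true iff for some `j` the term `⋀_{i ∈ S j} (x i = a j i)` is true. -/
def IsDNF (r : ℝ) (n : ℕ) (f : (Fin n → Bool) → Bool) : Prop :=
  ∃ (N : ℕ) (S : Fin N → Finset (Fin n)) (a : Fin N → Fin n → Bool),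
    (∀ i, ((univ.filter fun j => i ∈ S j).card : ℝ) ≤ r) ∧
      ∀ x, f x = true ↔ ∃ j, ∀ i ∈ S j, x i = a j i

/-- `f` or its negation is a DNF, that is, `f` is a DNF or a CNF. -/
def IsNF (r : ℝ) (n : ℕ) (f : (Fin n → Bool) → Bool) : Prop :=
  IsDNF r n f ∨ IsDNF r n (fun x => !(f x))

/-- `T` is a Boolean function of `k` DNFs or CNFs in which every variable occurs at most `r` times. -/
def NFTest (k : ℕ) (r : ℝ) (n : ℕ) (T : (Fin n → Bool) → Bool) : Prop :=
  ∃ (f : Fin k → (Fin n → Bool) → Bool) (F : (Fin k → Bool) → Bool),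
    (∀ i, IsNF r n (f i)) ∧ ∀ x, T x = F fun i => f i x

/-- Functions of `k` bits as combinations of conjunctions of negated bits. -/
theorem expand (k : ℕ) (Φ : (Fin k → Bool) → ℝ) (hΦ : ∀ v, |Φ v| ≤ 1) :
    ∃ c : Finset (Fin k) → ℝ, (∀ U, |c U| ≤ 2 ^ k) ∧
      ∀ v, Φ v = ∑ U, c U * ∏ i ∈ U, (if v i = true then (0 : ℝ) else 1) := by
  classical
  refine ⟨fun U => ∑ v' : Fin k → Bool, Φ v' * ((∏ i ∈ U, if v' i = true then (-1 : ℝ) else 1) *
    ∏ i ∈ univ \ U, if v' i = true then (1 : ℝ) else 0), fun U => ?_, fun v => ?_⟩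
  · calc |∑ v' : Fin k → Bool, Φ v' * ((∏ i ∈ U, if v' i = true then (-1 : ℝ) else 1) *
          ∏ i ∈ univ \ U, if v' i = true then (1 : ℝ) else 0)| ≤
          ∑ v' : Fin k → Bool, |Φ v' * ((∏ i ∈ U, if v' i = true then (-1 : ℝ) else 1) *
          ∏ i ∈ univ \ U, if v' i = true then (1 : ℝ) else 0)| := Finset.abs_sum_le_sum_abs _ _
      _ ≤ ∑ v' : Fin k → Bool, (1 : ℝ) := by
          refine Finset.sum_le_sum fun v' _ => ?_
          rw [abs_mul, abs_mul, Finset.abs_prod, Finset.abs_prod]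
          have h1 : ∏ i ∈ U, |if v' i = true then (-1 : ℝ) else 1| ≤ 1 :=
            Finset.prod_le_one (fun i _ => abs_nonneg _) fun i _ => by split_ifs <;> simp
          have h2 : ∏ i ∈ univ \ U, |if v' i = true then (1 : ℝ) else 0| ≤ 1 :=
            Finset.prod_le_one (fun i _ => abs_nonneg _) fun i _ => by split_ifs <;> simp
          have h3 : 0 ≤ ∏ i ∈ U, |if v' i = true then (-1 : ℝ) else 1| :=
            Finset.prod_nonneg fun i _ => abs_nonneg _
          have h4 : 0 ≤ ∏ i ∈ univ \ U, |if v' i = true then (1 : ℝ) else 0| :=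
            Finset.prod_nonneg fun i _ => abs_nonneg _
          exact mul_le_one₀ (hΦ v') (mul_nonneg h3 h4) (mul_le_one₀ h1 h4 h2)
      _ = 2 ^ k := by simp
  · have key : ∀ v' : Fin k → Bool, ∑ U : Finset (Fin k),
        ((∏ i ∈ U, if v' i = true then (-1 : ℝ) else 1) *
          ∏ i ∈ univ \ U, if v' i = true then (1 : ℝ) else 0) *
          ∏ i ∈ U, (if v i = true then (0 : ℝ) else 1) = if v' = v then 1 else 0 := by
      intro v'
      have h1 := Finset.prod_add (fun i => (if v' i = true then (-1 : ℝ) else 1) *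
        (if v i = true then (0 : ℝ) else 1)) (fun i => if v' i = true then (1 : ℝ) else 0)
        (univ : Finset (Fin k))
      rw [Finset.powerset_univ] at h1
      have h2 : ∏ i : Fin k, ((if v' i = true then (-1 : ℝ) else 1) *
        (if v i = true then (0 : ℝ) else 1) + if v' i = true then (1 : ℝ) else 0) =
          if v' = v then 1 else 0 := by
        have h3 : ∀ i, (if v' i = true then (-1 : ℝ) else 1) *
            (if v i = true then (0 : ℝ) else 1) + (if v' i = true then (1 : ℝ) else 0) =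
            if v' i = v i then 1 else 0 := by
          intro i
          cases v' i <;> cases v i <;> simp
        simp only [h3]
        by_cases h : v' = v
        · rw [if_pos h]
          exact Finset.prod_eq_one fun i _ => by rw [h, if_pos rfl]
        · rw [if_neg h]
          obtain ⟨i, hi⟩ := Function.ne_iff.1 h
          exact Finset.prod_eq_zero (Finset.mem_univ i) (if_neg hi)
      rw [← h2, h1]
      refine Finset.sum_congr rfl fun U _ => ?_
      rw [Finset.prod_mul_distrib]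
      ring
    have h4 : ∑ U : Finset (Fin k), (∑ v' : Fin k → Bool, Φ v' *
        ((∏ i ∈ U, if v' i = true then (-1 : ℝ) else 1) *
          ∏ i ∈ univ \ U, if v' i = true then (1 : ℝ) else 0)) *
          ∏ i ∈ U, (if v i = true then (0 : ℝ) else 1) =
        ∑ v' : Fin k → Bool, Φ v' * ∑ U : Finset (Fin k),
        ((∏ i ∈ U, if v' i = true then (-1 : ℝ) else 1) *
          ∏ i ∈ univ \ U, if v' i = true then (1 : ℝ) else 0) *
          ∏ i ∈ U, (if v i = true then (0 : ℝ) else 1) := by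
      simp only [Finset.sum_mul, Finset.mul_sum]
      rw [Finset.sum_comm]
      refine Finset.sum_congr rfl fun v' _ => Finset.sum_congr rfl fun U _ => ?_
      ring
    rw [h4]
    simp only [key]
    simp

/-- The disjunction of some of `k` DNFs. -/
theorem union_dnf {k n : ℕ} {r : ℝ} (g : Fin k → (Fin n → Bool) → Bool)
    (hg : ∀ i, IsDNF r n (g i)) (U : Finset (Fin k)) :
    ∃ (N : ℕ) (T : Fin N → Term n), Read (k * ⌊r⌋₊) T ∧
      ∀ x, (∃ j, (T j).Sat x) ↔ ∃ i ∈ U, g i x = true := by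
  classical
  choose N S a hr hx using hg
  let I : Type := Σ i : U, Fin (N i)
  let e : Fin (Fintype.card I) ≃ I := (Fintype.equivFin I).symm
  refine ⟨Fintype.card I, fun j => ⟨S (e j).1 (e j).2, a (e j).1 (e j).2⟩, fun v => ?_, fun x => ?_⟩
  · have h1 : (univ.filter fun j : Fin (Fintype.card I) => v ∈ S (e j).1 (e j).2).card =
        ∑ i : U, (univ.filter fun j : Fin (N i) => v ∈ S i j).card := by
      rw [Finset.card_filter, Equiv.sum_comp e (fun p : I => if v ∈ S p.1 p.2 then 1 else 0),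
        Fintype.sum_sigma]
      exact Finset.sum_congr rfl fun i _ => (Finset.card_filter _ _).symm
    have h2 : ∀ i : U, (univ.filter fun j : Fin (N i) => v ∈ S i j).card ≤ ⌊r⌋₊ := fun i =>
      Nat.le_floor (hr i v)
    calc (univ.filter fun j : Fin (Fintype.card I) => v ∈ S (e j).1 (e j).2).card =
        ∑ i : U, (univ.filter fun j : Fin (N i) => v ∈ S i j).card := h1
      _ ≤ ∑ i : U, ⌊r⌋₊ := Finset.sum_le_sum fun i _ => h2 i
      _ = U.card * ⌊r⌋₊ := by simp
      _ ≤ k * ⌊r⌋₊ := by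
          apply Nat.mul_le_mul_right
          simpa using Finset.card_le_univ U
  · constructor
    · rintro ⟨j, hj⟩
      exact ⟨(e j).1, (e j).1.2, (hx _ x).2 ⟨(e j).2, hj⟩⟩
    · rintro ⟨i, hi, hix⟩
      obtain ⟨j, hj⟩ := (hx i x).1 hix
      refine ⟨e.symm ⟨⟨i, hi⟩, j⟩, ?_⟩
      have he : e (e.symm ⟨⟨i, hi⟩, j⟩) = ⟨⟨i, hi⟩, j⟩ := Equiv.apply_symm_apply _ _
      show ∀ v ∈ S (e (e.symm ⟨⟨i, hi⟩, j⟩)).1 (e (e.symm ⟨⟨i, hi⟩, j⟩)).2,
        x v = a (e (e.symm ⟨⟨i, hi⟩, j⟩)).1 (e (e.symm ⟨⟨i, hi⟩, j⟩)).2 v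
      rw [he]
      exact hj

/-- All `k` functions can be taken to be DNFs. -/
theorem all_dnf {k n : ℕ} {r : ℝ} {T : (Fin n → Bool) → Bool} (h : NFTest k r n T) :
    ∃ (g : Fin k → (Fin n → Bool) → Bool) (F : (Fin k → Bool) → Bool),
      (∀ i, IsDNF r n (g i)) ∧ ∀ x, T x = F fun i => g i x := by
  classical
  obtain ⟨f, F, hf, hT⟩ := h
  refine ⟨fun i => if IsDNF r n (f i) then f i else fun x => !(f i x),
    fun v => F fun i => if IsDNF r n (f i) then v i else !(v i), fun i => ?_, fun x => ?_⟩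
  · by_cases h : IsDNF r n (f i)
    · simp only [h, if_true]
    · simp only [h, if_false]
      exact (hf i).resolve_left h
  · rw [hT]
    congr 1
    funext i
    by_cases h : IsDNF r n (f i)
    · simp only [h, if_true]
    · simp only [h, if_false, Bool.not_not]

theorem read_asym (k : ℕ) {θ θ' : ℝ} (h0 : 0 < θ') (h1 : θ < θ') : ∀ᶠ n : ℕ in atTop,
    (k : ℝ) * 2 ^ (Real.logb 2 n ^ θ) ≤ 2 ^ (Real.logb 2 n ^ θ') := by
  obtain ⟨θ₁, h10, h11, h12⟩ : ∃ θ₁ : ℝ, 0 < θ₁ ∧ θ ≤ θ₁ ∧ θ₁ < θ' :=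
    ⟨max θ (θ' / 2), lt_max_of_lt_right (by linarith), le_max_left _ _, max_lt h1 (by linarith)⟩
  have hlim : Tendsto (fun n : ℕ => Real.logb 2 n) atTop atTop :=
    (Real.tendsto_logb_atTop (by norm_num)).comp tendsto_natCast_atTop_atTop
  have e1 := (tendsto_rpow_atTop h10).eventually (eventually_ge_atTop (k : ℝ))
  have e2 := (tendsto_rpow_atTop (show 0 < θ' - θ₁ by linarith)).eventually (eventually_ge_atTop 2)
  filter_upwards [hlim.eventually e1, hlim.eventually e2, hlim.eventually (eventually_ge_atTop 1)]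
    with n h2 h3 hx
  generalize Real.logb 2 n = x at h2 h3 hx
  have hx0 : 0 < x := by linarith
  have hk : (k : ℝ) ≤ 2 ^ (x ^ θ₁) := by
    calc (k : ℝ) ≤ 2 ^ k := by exact_mod_cast Nat.lt_two_pow_self.le
      _ = (2 : ℝ) ^ (k : ℝ) := (Real.rpow_natCast _ _).symm
      _ ≤ 2 ^ (x ^ θ₁) := Real.rpow_le_rpow_of_exponent_le (by norm_num) h2
  have h4 : x ^ θ ≤ x ^ θ₁ := Real.rpow_le_rpow_of_exponent_le hx h11
  have h5 : x ^ θ₁ + x ^ θ₁ ≤ x ^ θ' := by
    have h6 : x ^ θ' = x ^ (θ' - θ₁) * x ^ θ₁ := by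
      rw [← Real.rpow_add hx0]
      congr 1
      ring
    have h7 : 0 ≤ x ^ θ₁ := Real.rpow_nonneg hx0.le _
    rw [h6]
    nlinarith
  calc (k : ℝ) * 2 ^ (x ^ θ) ≤ 2 ^ (x ^ θ₁) * 2 ^ (x ^ θ₁) := by
        gcongr
        norm_num
    _ = 2 ^ (x ^ θ₁ + x ^ θ₁) := (Real.rpow_add (by norm_num) _ _).symm
    _ ≤ 2 ^ (x ^ θ') := Real.rpow_le_rpow_of_exponent_le (by norm_num) h5

theorem nf_sand (k : ℕ) (θ : ℝ) (hθ : θ < 1 / 2) (ε : ℝ) (hε : 0 < ε) :
    ∃ C : ℕ, ∀ᶠ n : ℕ in atTop, ∀ T, NFTest k (2 ^ (Real.logb 2 n ^ θ)) n T →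
      Sand ε ((n : ℝ) ^ C) (fun x => one (T x = true)) := by
  classical
  obtain ⟨θ', hθ'0, hθ'1, hθθ'⟩ : ∃ θ' : ℝ, 0 < θ' ∧ θ' < 1 / 2 ∧ θ < θ' := by
    refine ⟨(max θ 0 + 1 / 2) / 2, ?_, ?_, ?_⟩
    · have := le_max_right θ 0
      linarith
    · have : max θ 0 < 1 / 2 := max_lt hθ (by norm_num)
      linarith
    · have := le_max_left θ 0
      linarith
  obtain ⟨C, hC⟩ := dnf_sand θ' hθ'1 (ε / 4 ^ k) (by positivity)
  refine ⟨C + (2 * k + 1), ?_⟩
  filter_upwards [hC, read_asym k hθ'0 hθθ', eventually_ge_atTop 2] with n h1 h2 hn T hT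
  have hn2 : (2 : ℝ) ≤ n := by exact_mod_cast hn
  obtain ⟨g, F, hg, hTx⟩ := all_dnf hT
  obtain ⟨c, hc, hΦ⟩ := expand k (fun v => one (F v = true)) fun v => by
    rw [abs_of_nonneg (one_nonneg _)]
    exact one_le _
  -- the disjunctions
  have hU : ∀ U : Finset (Fin k), Sand (ε / 4 ^ k) ((n : ℝ) ^ C)
      (fun x => one (∃ i ∈ U, g i x = true)) := by
    intro U
    obtain ⟨N, T', hr, hT'⟩ := union_dnf g hg U
    have h3 : ((k * ⌊(2 : ℝ) ^ (Real.logb 2 n ^ θ)⌋₊ : ℕ) : ℝ) ≤ 2 ^ (Real.logb 2 n ^ θ') := by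
      push_cast
      refine le_trans ?_ h2
      gcongr
      exact Nat.floor_le (by positivity)
    refine (h1 N _ T' hr h3).congr fun x => ?_
    by_cases h : ∃ i ∈ U, g i x = true
    · rw [one_true h, one_true ((hT' x).2 h)]
    · rw [one_false h, one_false fun h' => h ((hT' x).1 h')]
  have hprod : ∀ (U : Finset (Fin k)) (x : Cube n),
      ∏ i ∈ U, (if g i x = true then (0 : ℝ) else 1) = 1 + (-1) * one (∃ i ∈ U, g i x = true) := by
    intro U x
    by_cases h : ∃ i ∈ U, g i x = true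
    · rw [one_true h]
      obtain ⟨i, hi, hix⟩ := h
      have h3 : ∏ i ∈ U, (if g i x = true then (0 : ℝ) else 1) = 0 :=
        Finset.prod_eq_zero hi (if_pos hix)
      rw [h3]
      norm_num
    · rw [one_false h]
      push Not at h
      have h3 : ∏ i ∈ U, (if g i x = true then (0 : ℝ) else 1) = 1 :=
        Finset.prod_eq_one fun i hi => if_neg (h i hi)
      rw [h3]
      norm_num
  have hU2 : ∀ U : Finset (Fin k), Sand (|c U| * (ε / 4 ^ k)) (|c U| * (1 + (n : ℝ) ^ C))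
      (fun x => c U * ∏ i ∈ U, (if g i x = true then (0 : ℝ) else 1)) := by
    intro U
    have h3 : Sand 0 1 (fun _ : Cube n => (1 : ℝ)) := Sand.of_L1 (by rw [L1_const]; simp)
    have h4 := (h3.add ((hU U).smul (-1))).smul (c U)
    refine (h4.mono (le_of_eq ?_) (le_of_eq ?_)).congr fun x => ?_
    · rw [abs_neg, abs_one, one_mul, zero_add]
    · rw [abs_neg, abs_one, one_mul]
    · rw [hprod]
  have h5 := Sand.sum (univ : Finset (Finset (Fin k))) fun U _ => hU2 U
  refine (h5.mono ?_ ?_).congr fun x => ?_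
  · calc ∑ U : Finset (Fin k), |c U| * (ε / 4 ^ k) ≤ ∑ U : Finset (Fin k), 2 ^ k * (ε / 4 ^ k) := by
          refine Finset.sum_le_sum fun U _ => ?_
          have := hc U
          gcongr
      _ = ε := by
          rw [Finset.sum_const, Finset.card_univ, Fintype.card_finset, Fintype.card_fin,
            nsmul_eq_mul]
          push_cast
          have : (4 : ℝ) ^ k = 2 ^ k * 2 ^ k := by rw [← mul_pow]; norm_num
          rw [this]
          field_simp
  · have hnC : 1 ≤ (n : ℝ) ^ C := one_le_pow₀ (by linarith)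
    calc ∑ U : Finset (Fin k), |c U| * (1 + (n : ℝ) ^ C) ≤
          ∑ U : Finset (Fin k), 2 ^ k * (2 * (n : ℝ) ^ C) := by
          refine Finset.sum_le_sum fun U _ => ?_
          have := hc U
          gcongr
          linarith
      _ = 2 ^ k * 2 ^ k * 2 * (n : ℝ) ^ C := by
          rw [Finset.sum_const, Finset.card_univ, Fintype.card_finset, Fintype.card_fin,
            nsmul_eq_mul]
          push_cast
          ring
      _ ≤ (n : ℝ) ^ k * (n : ℝ) ^ k * n * (n : ℝ) ^ C := by gcongr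
      _ = (n : ℝ) ^ (C + (2 * k + 1)) := by ring
  · show ∑ U, c U * ∏ i ∈ U, (if g i x = true then (0 : ℝ) else 1) = one (T x = true)
    rw [hTx, ← hΦ fun i => g i x]

end Pool.Agent.MP_ca1109_lc.Dnf
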