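import Pool.Agent.MP_ca1109_lc.Dnf.Q2
import Pool.Agent.MP_ca1109_lc.Csp.H0

/-!
# Read-bounded DNFs: padding
-/

namespace Pool.Agent.MP_ca1109_lc.Dnf

open Finset Filter Pool.Agent.H66 Pool.Agent.MP_ca1109_lc.Mpg

/-- A DNF read on the first `n` of `N` bits. -/
theorem IsDNF.res {r r' : ℝ} {n N : ℕ} (hN : n ≤ N) (hr : r ≤ r') (hr' : 0 ≤ r')
    {f : (Fin n → Bool) → Bool} (h : IsDNF r n f) :
    IsDNF r' N fun x => f fun i => x (Fin.castLE hN i) := by
  classical
  obtain ⟨M, S, a, h1, h2⟩ := h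
  refine ⟨M, fun j => (S j).map (Fin.castLEEmb hN),
    fun j i => if hi : i.1 < n then a j ⟨i.1, hi⟩ else false, ?_, ?_⟩
  · intro i
    by_cases hi : i.1 < n
    · refine le_trans ?_ ((h1 ⟨i.1, hi⟩).trans hr)
      refine Nat.cast_le.2 (Finset.card_le_card ?_)
      intro j hj
      rw [Finset.mem_filter] at hj ⊢
      refine ⟨Finset.mem_univ _, ?_⟩
      obtain ⟨i', hi', he⟩ := Finset.mem_map.1 hj.2
      have : i' = ⟨i.1, hi⟩ := by
        apply Fin.ext
        have h3 := congrArg Fin.val he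
        exact h3
      rwa [← this]
    · have h3 : (univ.filter fun j => i ∈ (S j).map (Fin.castLEEmb hN)) = ∅ := by
        refine Finset.filter_eq_empty_iff.2 fun j _ hj => ?_
        obtain ⟨i', hi', he⟩ := Finset.mem_map.1 hj
        apply hi
        rw [← he]
        exact i'.2
      rw [h3]
      simpa using hr'
  · intro x
    rw [h2]
    refine exists_congr fun j => ?_
    constructor
    · intro h4 i hi
      obtain ⟨i', hi', he⟩ := Finset.mem_map.1 hi
      have h5 : i.1 < n := by
        rw [← he]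
        exact i'.2
      have h6 : (⟨i.1, h5⟩ : Fin n) = i' := by
        apply Fin.ext
        exact (congrArg Fin.val he).symm
      beta_reduce
      rw [dif_pos h5, h6, ← h4 i' hi', ← he]
      rfl
    · intro h4 i hi
      have h5 := h4 (Fin.castLE hN i) (Finset.mem_map.2 ⟨i, hi, rfl⟩)
      beta_reduce at h5
      rw [dif_pos (show (Fin.castLE hN i).1 < n from i.2)] at h5
      exact h5

theorem NFTest.res {k : ℕ} {r r' : ℝ} {n N : ℕ} (hN : n ≤ N) (hr : r ≤ r') (hr' : 0 ≤ r')
    {T : (Fin n → Bool) → Bool} (h : NFTest k r n T) :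
    NFTest k r' N fun x => T fun i => x (Fin.castLE hN i) := by
  obtain ⟨f, F, h1, h2⟩ := h
  refine ⟨fun j x => f j fun i => x (Fin.castLE hN i), F, fun j => ?_, fun x => h2 _⟩
  rcases h1 j with h3 | h3
  · exact Or.inl (h3.res hN hr hr')
  · exact Or.inr (h3.res hN hr hr')

/-- Padding: a generator for all functions of `k` DNFs or CNFs in which every variable occurs at
most `n ^ δ` times gives generators for all polynomially bounded numbers of occurrences. -/
theorem pad (k : ℕ) (δ : ℝ) (hδ : 0 < δ) (ε : ℝ)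
    (h : LogGen (fun n => NFTest k ((n : ℝ) ^ δ) n) ε) (c : ℕ) :
    LogGen (fun n => NFTest k ((n : ℝ) ^ c) n) ε := by
  set q : ℕ := ⌈(c : ℝ) / δ⌉₊ with hq
  have hqc : (c : ℝ) ≤ q * δ := by
    rw [← div_le_iff₀ hδ]
    exact Nat.le_ceil _
  refine Csp.logGen_shrink (𝒯 := fun n => NFTest k ((n : ℝ) ^ δ) n) (e := ε) (Post.p11_N 1 q)
    (Post.p11_poly 1 q) (Filter.tendsto_atTop_mono (Post.p11_le 1 q) Filter.tendsto_id)
    (2 * q + 3) ?_ (fun m l => (List.range m).map fun i => l.getD i false) ?_ ?_ ?_ h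
  · filter_upwards [Filter.eventually_ge_atTop 2, Filter.eventually_ge_atTop (1 + 1)] with m h1 h2
    exact Post.p11_pow 1 q m h1 h2
  · exact PolyTime.map (f := fun (p : ℕ × List Bool) (i : ℕ) => p.2.getD i false)
      (PolyTime.range PolyTime.fst) (PolyTime.getD PolyTime.snd (PolyTime.snd.comp PolyTime.fst) false)
  · intro m l
    rw [List.length_map, List.length_range]
  · filter_upwards [Filter.eventually_ge_atTop 1] with m hm
    intro T hT A _ _ l _ hfool
    have h2 : m ^ q ≤ Post.p11_N 1 q m := by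
      have := Post.p11_le' 1 q m
      rwa [one_mul] at this
    have hm1 : (1 : ℝ) ≤ m := by exact_mod_cast hm
    have h3 : (m : ℝ) ^ c ≤ ((Post.p11_N 1 q m : ℕ) : ℝ) ^ δ := by
      calc (m : ℝ) ^ c = (m : ℝ) ^ (c : ℝ) := (Real.rpow_natCast _ _).symm
        _ ≤ (m : ℝ) ^ ((q : ℝ) * δ) := Real.rpow_le_rpow_of_exponent_le hm1 hqc
        _ = ((m : ℝ) ^ q) ^ δ := by
          rw [Real.rpow_mul (by positivity), Real.rpow_natCast]
        _ ≤ _ := Real.rpow_le_rpow (by positivity) (by exact_mod_cast h2) hδ.le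
    have h4 := hfool _ (hT.res (Post.p11_le 1 q m) h3 (by positivity))
    have e2 : prob T = prob (fun x : Fin (Post.p11_N 1 q m) → Bool =>
        T (fun i : Fin m => x (Fin.castLE (Post.p11_le 1 q m) i))) :=
      (prob_marginal (fun i : Fin m => Fin.castLE (Post.p11_le 1 q m) i)
        (Fin.castLE_injective _) T).symm
    have e1 : ∀ a, bits m ((List.range m).map fun i => (l a).getD i false) =
        fun i => bits (Post.p11_N 1 q m) (l a) (Fin.castLE (Post.p11_le 1 q m) i) := by
      intro a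
      funext i
      unfold bits
      rw [List.getD_eq_getElem?_getD, List.getElem?_map, List.getElem?_range i.2]
      rfl
    simp only [e1]
    rw [e2]
    exact h4

end Pool.Agent.MP_ca1109_lc.Dnf
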